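import Pool.Agent.Pinsker.FromMax
import Pool.Agent.PolyMax.Maximal

set_option autoImplicit false
set_option warn.classDefReducibility false

/-!
# The weak maximal inequality along polynomial orbits of commuting maps (from PolyMax)
-/

open MeasureTheory Filter Topology Finset
open scoped ENNReal NNReal

namespace Pool.Pinsker

theorem maxProp_poly {X : Type*} [MeasurableSpace X] (μ : Measure X) [IsProbabilityMeasure μ]
    {d : ℕ} (T : Fin d → Equiv.Perm X) (hT' : ∀ i, Measurable ⇑(T i).symm)
    (hT : ∀ i, MeasurePreserving (⇑(T i)) μ μ) (hc : ∀ i j, Commute (T i) (T j))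
    (p : Fin d → Polynomial ℤ) :
    MaxProp μ (fun n x => (List.ofFn fun i => T i ^ (p i).eval n).prod x) := by
  have hsymm : ∀ i, MeasurePreserving (⇑(T i).symm) μ μ := by
    intro i
    have e : MeasurableEquiv X X := ⟨T i, (hT i).measurable, hT' i⟩
    exact MeasurePreserving.symm ⟨T i, (hT i).measurable, hT' i⟩ (hT i)
  obtain ⟨C, hC⟩ := Pool.PolyMax.maximal (∑ i, (p i).natDegree)
  have hpow : ∀ (i : Fin d) (k : ℤ), Measurable (⇑(T i ^ k)) := by
    intro i k
    have hnat : ∀ (S : Equiv.Perm X), Measurable S → ∀ n : ℕ, Measurable (⇑(S ^ n)) := by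
      intro S hS n
      induction n with
      | zero => exact measurable_id
      | succ n ih => rw [pow_succ]; exact ih.comp hS
    cases k with
    | ofNat n => exact hnat _ (hT i).measurable n
    | negSucc n =>
      rw [zpow_negSucc, ← inv_pow]
      exact hnat (T i)⁻¹ (hT' i) (n + 1)
  have hprod : ∀ l : List (Equiv.Perm X), (∀ S ∈ l, Measurable (⇑S)) → Measurable (⇑l.prod) := by
    intro l
    induction l with
    | nil => intro _; exact measurable_id
    | cons a l ih =>
      intro h
      rw [List.prod_cons]
      exact (h a (List.mem_cons_self)).comp (ih fun S hS => h S (List.mem_cons_of_mem _ hS))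
  apply maxProp_of_maximal (fun n x => (List.ofFn fun i => T i ^ (p i).eval n).prod x) ?_ C ?_
  · intro n
    apply hprod
    intro S hS
    rw [List.mem_ofFn] at hS
    obtain ⟨i, rfl⟩ := hS
    exact hpow i _
  · intro v hv
    have h := hC μ d T hT hsymm hc p
      (fun i => Finset.single_le_sum (f := fun i => (p i).natDegree) (fun _ _ => Nat.zero_le _)
        (Finset.mem_univ i)) v hv
    refine le_of_eq_of_le ?_ h
    apply lintegral_congr
    intro x
    congr 1
    apply iSup_congr
    intro N
    congr 1
    push_cast
    rfl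

end Pool.Pinsker
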