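import Pool.Agent.Pinsker.CondEnt

set_option autoImplicit false
set_option warn.classDefReducibility false

/-!
# Module Approx: a finite partition measurable for a join of partitions

`approx`: if `η : X → κ` is measurable with respect to `⨆_{j ∈ S} σ(α j)`, then for every `ε > 0`
there is a finite `F ⊆ S` with `H(η | (α j)_{j ∈ F}) ≤ ε`.

Paper proof.
(1) The family `𝒢` of all sets `{x | (α j x)_{j ∈ F} ∈ s}` (`F ⊆ S` finite, `s` arbitrary) is an
algebra of sets (`MeasureTheory.IsSetAlgebra`; for unions take the union of the two `F`'s) which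
generates `𝒞 = ⨆_{j∈S} σ(α j)` (`generateFrom 𝒢 = 𝒞`, both inequalities easy).
(2) For `A` measurable for `𝒞` and `δ > 0` there is `A' ∈ 𝒢` with `μ (A ∆ A') < δ`:
`MeasureTheory.Measure.MeasureDense.of_generateFrom_isSetAlgebra_finite` (for the measure
`μ.trim (h : 𝒞 ≤ m0)` on `(X, 𝒞)`, whose values on `𝒞`-measurable sets are those of `μ`,
`MeasureTheory.trim_measurableSet_eq`) and `Measure.MeasureDense.approx`.
(3) `H(1_A | 1_{A'}) ≤ H(1_{A ∆ A'})`: `1_A` is a function of `(1_{A∆A'}, 1_{A'})`, so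
`H(1_A | 1_{A'}) ≤ H((1_{A∆A'}, 1_{A'}) | 1_{A'})`, and this is `≤ H(1_{A∆A'}|1_{A'}) + 0`
(`cent_factor`, `cent_pair_le`, `cent_self`, `cent_le_ent`).
And `H(1_D) = h(μ D) + h(1 - μ D)` (`Fintype.sum` over `Prop`/`Bool`), which tends to `0` when
`μ D → 0` (`Real.continuous_negMulLog`, `h 0 = h 1 = 0`).
(4) Let `A_k = η⁻¹{k}`, `k ∈ κ`.  `η` is a function of `(1_{A_k})_k` (relabelling), so for every
finite `g`, `H(η | g) ≤ Σ_k H(1_{A_k} | g)` (`cent_pi_le`).  Choose `A'_k ∈ 𝒢` (index set `F_k`)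
with `H(1_{A_k} | 1_{A'_k}) ≤ ε / (|κ| + 1)`, put `F = ⋃ F_k` and `g = (α j)_{j∈F}`; `1_{A'_k}` is
a function of `g`, so `H(1_{A_k} | g) ≤ H(1_{A_k} | 1_{A'_k})` (`cent_cond_factor`).
-/

open MeasureTheory Filter Topology Finset

namespace Pool.Pinsker

variable {X : Type*} {m0 : MeasurableSpace X} {μ : Measure X} [IsProbabilityMeasure μ]

omit [IsProbabilityMeasure μ] in
private theorem fm_set {m' : MeasurableSpace X} {A : Set X} (hA : MeasurableSet[m'] A) :
    FM m' (fun x => x ∈ A) := by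
  intro s
  have h : @Measurable X Prop m' ⊤ (fun x => x ∈ A) := by
    have := @measurable_mem X A m'
    exact this.mpr hA
  exact h (t := s) trivial

private theorem ent_set (D : Set X) (hD : MeasurableSet D) :
    ent μ (fun x => x ∈ D) = Real.negMulLog (μ.real D) + Real.negMulLog (1 - μ.real D) := by
  unfold ent
  rw [Fintype.univ_Prop, Finset.sum_pair (by simp)]
  have h1 : (fun x => x ∈ D) ⁻¹' {True} = D := by
    ext x; simp
  have h2 : (fun x => x ∈ D) ⁻¹' {False} = Dᶜ := by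
    ext x; simp
  rw [h1, h2, probReal_compl_eq_one_sub hD]

/-- conditional entropy of a set given a set that is close to it -/
theorem cent_set_small (ε : ℝ) (hε : 0 < ε) : ∃ δ : ℝ, 0 < δ ∧ ∀ A A' : Set X,
    MeasurableSet A → MeasurableSet A' → μ.real (symmDiff A A') ≤ δ →
    cent μ (fun x => x ∈ A) (fun x => x ∈ A') ≤ ε := by
  have hc : Continuous (fun t : ℝ => Real.negMulLog t + Real.negMulLog (1 - t)) :=
    Real.continuous_negMulLog.add (Real.continuous_negMulLog.comp (by fun_prop))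
  obtain ⟨δ, hδ, hδ'⟩ := Metric.continuousAt_iff.mp (hc.continuousAt (x := (0 : ℝ))) ε hε
  refine ⟨δ / 2, by positivity, fun A A' hA hA' hd => ?_⟩
  have hD : MeasurableSet (symmDiff A A') := hA.symmDiff hA'
  have h1 : cent μ (fun x => x ∈ A) (fun x => x ∈ A') ≤
      cent μ (fun x => (x ∈ symmDiff A A', x ∈ A')) (fun x => x ∈ A') := by
    refine cent_factor (fun x => (x ∈ symmDiff A A', x ∈ A')) (fun x => x ∈ A)
      (fun x => x ∈ A') (fm_pair (fm_set hD) (fm_set hA')) (fm_set hA')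
      (fun p : Prop × Prop => (p.1 ∧ ¬ p.2) ∨ (¬ p.1 ∧ p.2)) ?_
    intro x
    simp only [Set.mem_symmDiff, eq_iff_iff]
    tauto
  have h2 := cent_pair_le (μ := μ) (fun x => x ∈ symmDiff A A') (fun x => x ∈ A')
    (fun x => x ∈ A') (fm_set hD) (fm_set hA') (fm_set hA')
  have h3 := cent_self (μ := μ) (fun x => x ∈ A') (fun x => x ∈ A') (fun p => p) (fun x => rfl)
  have h4 := cent_le_ent (μ := μ) (fun x => x ∈ symmDiff A A') (fun x => x ∈ A')
    (fm_set hD) (fm_set hA')
  rw [ent_set _ hD] at h4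
  have h5 : dist (μ.real (symmDiff A A')) 0 < δ := by
    rw [Real.dist_eq, sub_zero, abs_of_nonneg measureReal_nonneg]
    linarith
  have h6 := hδ' h5
  simp only [Real.negMulLog_zero, sub_zero, Real.negMulLog_one, add_zero, Real.dist_eq] at h6
  have h7 := (abs_lt.mp h6).2
  linarith

/-- The sets that depend on finitely many coordinates in `S`. -/
private def cyl {J ι : Type*} (α : J → X → ι) (S : Set J) : Set (Set X) :=
  {B | ∃ F : Finset J, (F : Set J) ⊆ S ∧ ∃ s : Set (F → ι), B = {x | (fun j : F => α j x) ∈ s}}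

omit [IsProbabilityMeasure μ] in
private theorem cyl_alg {J ι : Type*} [DecidableEq J] (α : J → X → ι) (S : Set J) :
    IsSetAlgebra (cyl α S) where
  empty_mem := ⟨∅, by simp, ∅, by simp⟩
  compl_mem := by
    rintro _ ⟨F, hF, s, rfl⟩
    exact ⟨F, hF, sᶜ, rfl⟩
  union_mem := by
    rintro _ _ ⟨F, hF, s, rfl⟩ ⟨F', hF', s', rfl⟩
    refine ⟨F ∪ F', ?_, {v | (fun j : F => v ⟨j, Finset.mem_union_left _ j.2⟩) ∈ s ∨
      (fun j : F' => v ⟨j, Finset.mem_union_right _ j.2⟩) ∈ s'}, ?_⟩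
    · rw [Finset.coe_union]
      exact Set.union_subset hF hF'
    · rfl

omit [IsProbabilityMeasure μ] in
private theorem cyl_gen {J ι : Type*} [DecidableEq J] [Fintype ι] (α : J → X → ι) (S : Set J) :
    (⨆ j ∈ S, MeasurableSpace.comap (α j) ⊤) = MeasurableSpace.generateFrom (cyl α S) := by
  apply le_antisymm
  · refine iSup₂_le fun j hj => ?_
    rintro _ ⟨s, -, rfl⟩
    apply MeasurableSpace.measurableSet_generateFrom
    refine ⟨{j}, by simpa using hj, {v | v ⟨j, Finset.mem_singleton_self j⟩ ∈ s}, rfl⟩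
  · apply MeasurableSpace.generateFrom_le
    rintro _ ⟨F, hF, s, rfl⟩
    have h1 : ∀ j : F, FM (⨆ j ∈ S, MeasurableSpace.comap (α j) ⊤) (α j) := by
      intro j t
      have h2 : MeasurableSpace.comap (α j) ⊤ ≤ ⨆ j ∈ S, MeasurableSpace.comap (α j) ⊤ :=
        le_iSup₂_of_le (j : J) (hF j.2) le_rfl
      exact h2 _ ⟨t, trivial, rfl⟩
    exact fm_pi (f := fun j : F => α j) h1 s

theorem approx {J ι κ : Type*} [DecidableEq J] [Fintype ι] [Fintype κ] (α : J → X → ι)
    (hα : ∀ j, FM m0 (α j)) (S : Set J) (η : X → κ)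
    (hη : FM (⨆ j ∈ S, MeasurableSpace.comap (α j) ⊤) η) (ε : ℝ) (hε : 0 < ε) :
    ∃ F : Finset J, (F : Set J) ⊆ S ∧ cent μ η (fun x => fun j : F => α j x) ≤ ε := by
  classical
  have hm : (⨆ j ∈ S, MeasurableSpace.comap (α j) ⊤) ≤ m0 := by
    refine iSup₂_le fun j hj => ?_
    rintro _ ⟨s, -, rfl⟩
    exact hα j s
  have hXne : Nonempty X := μ.nonempty_of_neZero
  have hκne : Nonempty κ := hXne.map η
  have hcard : (0 : ℝ) < Fintype.card κ := by
    exact_mod_cast Fintype.card_pos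
  obtain ⟨δ, hδ, hδ'⟩ := cent_set_small (μ := μ) (ε / Fintype.card κ) (by positivity)
  have hdense : @Measure.MeasureDense X (⨆ j ∈ S, MeasurableSpace.comap (α j) ⊤)
      (μ.trim hm) (cyl α S) := by
    have := isFiniteMeasure_trim (μ := μ) hm
    exact @Measure.MeasureDense.of_generateFrom_isSetAlgebra_finite X
      (⨆ j ∈ S, MeasurableSpace.comap (α j) ⊤) (μ.trim hm) (cyl α S) _ (cyl_alg α S) (cyl_gen α S)
  have hcylm : ∀ B ∈ cyl α S, MeasurableSet[⨆ j ∈ S, MeasurableSpace.comap (α j) ⊤] B := by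
    intro B hB
    rw [cyl_gen]
    exact MeasurableSpace.measurableSet_generateFrom hB
  have key : ∀ k : κ, ∃ B ∈ cyl α S, μ.real (symmDiff (η ⁻¹' {k}) B) ≤ δ := by
    intro k
    have h1 := hη {k}
    have h2 : (μ.trim hm) (η ⁻¹' {k}) ≠ ⊤ := by
      rw [trim_measurableSet_eq hm h1]
      exact measure_ne_top μ _
    obtain ⟨B, hB, hBd⟩ := @Measure.MeasureDense.approx X (⨆ j ∈ S, MeasurableSpace.comap (α j) ⊤)
      (μ.trim hm) (cyl α S) hdense _ h1 h2 δ hδ
    refine ⟨B, hB, ?_⟩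
    have h3 : MeasurableSet[⨆ j ∈ S, MeasurableSpace.comap (α j) ⊤] (symmDiff (η ⁻¹' {k}) B) :=
      MeasurableSet.symmDiff h1 (hcylm B hB)
    rw [trim_measurableSet_eq hm h3] at hBd
    rw [Measure.real]
    exact ENNReal.toReal_le_of_le_ofReal hδ.le hBd.le
  choose B hB hBd using key
  choose Fk hFk sk hsk using hB
  refine ⟨Finset.univ.biUnion Fk, ?_, ?_⟩
  · intro j hj
    simp only [Finset.coe_biUnion, Set.mem_iUnion] at hj
    obtain ⟨k, -, hk⟩ := hj
    exact hFk k hk
  · set F : Finset J := Finset.univ.biUnion Fk with hF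
    have hsub : ∀ k, Fk k ⊆ F := fun k => Finset.subset_biUnion_of_mem Fk (Finset.mem_univ k)
    have hg : FM m0 (fun x => fun j : F => α j x) := fm_pi fun j => hα j
    have hA : ∀ k, MeasurableSet[m0] (η ⁻¹' {k}) := fun k => hm _ (hη {k})
    have hB' : ∀ k, MeasurableSet[m0] (B k) := fun k => by
      apply hm
      apply hcylm
      exact ⟨Fk k, hFk k, sk k, hsk k⟩
    have hfm : ∀ k, FM m0 (fun x => x ∈ η ⁻¹' {k}) := fun k => fm_set (hA k)
    have h1 : cent μ η (fun x => fun j : F => α j x) ≤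
        cent μ (fun x => fun k : κ => x ∈ η ⁻¹' {k}) (fun x => fun j : F => α j x) := by
      refine cent_factor (fun x => fun k : κ => x ∈ η ⁻¹' {k}) η _ (fm_pi hfm) hg
        (fun v => if h : ∃ k, v k then h.choose else Classical.arbitrary κ) ?_
      intro x
      have h2 : ∃ k, x ∈ η ⁻¹' {k} := ⟨η x, rfl⟩
      rw [dif_pos h2]
      exact h2.choose_spec
    have h3 := cent_pi_le (μ := μ) (fun k : κ => fun x => x ∈ η ⁻¹' {k})
      (fun x => fun j : F => α j x) hfm hg
    have h4 : ∀ k ∈ (Finset.univ : Finset κ),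
        cent μ (fun x => x ∈ η ⁻¹' {k}) (fun x => fun j : F => α j x) ≤ ε / Fintype.card κ := by
      intro k _
      have h5 := cent_cond_factor (μ := μ) (fun x => x ∈ η ⁻¹' {k}) (fun x => x ∈ B k)
        (fun x => fun j : F => α j x) (hfm k) hg
        (fun v => (fun j : Fk k => v ⟨j, hsub k j.2⟩) ∈ sk k) (by
          intro x
          show (x ∈ B k) = _
          rw [hsk k]
          rfl)
      exact h5.trans (hδ' _ _ (hA k) (hB' k) (hBd k))
    have h6 := Finset.sum_le_sum h4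
    rw [Finset.sum_const, Finset.card_univ, nsmul_eq_mul, mul_div_cancel₀ _ hcard.ne'] at h6
    exact h1.trans (h3.trans h6)

end Pool.Pinsker
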