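import Pool.Agent.Pinsker.OneZero

set_option autoImplicit false
set_option warn.classDefReducibility false

/-!
# Module Char: the Pinsker factor is characteristic (general frames)

Paper proof of `char_bounded`.  Let `e_j` be `Π`-measurable versions of `E(f_j|Π)` with `|e_j| ≤ D`
(`Pool.Lib.RM.exists_version`).  Telescoping
`∏ f_j - ∏ e_j = Σ_a (∏_{j<a} e_j) (f_a - e_a) (∏_{j>a} f_j)`
(order of `Fin m`; prove by a general lemma for commutative rings, e.g.
`Finset.prod_sub_prod_eq...` or induction: with `u_k(j) = e_j` for `j < k` and `f_j` for `j ≥ k`,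
`∏ u_0 - ∏ u_m = Σ_{k<m} (∏ u_k - ∏ u_{k+1})`), and each summand is of the form treated in
`one_zero` with `F_a = f_a - e_a`, `E(F_a|Π) = 0`.  Replace `e_j(g_j(n)x)` by
`μ[f_j|Π](g_j(n)x)` almost everywhere.
`char_memLp`: `f_j` is a.e. equal to a bounded measurable function (as in the theorem `result` of
`Pool/Agent/Results/MP_4d8f14_an/RemotePast.lean`, `hver`), and both averages change only on a
null set.
`char_trivial`: if all sets of zero entropy have measure `0` or `1`, then so do all sets of `Π`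
(`measurableSet_pinsker_iff`), hence `μ[f_j|Π] = ∫ f_j` a.e. (see `hconst` in the same file).
-/

open MeasureTheory Filter Topology Finset
open scoped ENNReal

namespace Pool.Pinsker

open Pool.Lib.Erg Pool.Lib.RM Pool.Lib.RP

variable {X : Type*} {m0 : MeasurableSpace X} {μ : Measure X} [IsProbabilityMeasure μ]
  {G : Type*} [Group G] [MulAction G X] [DecidableEq G]

/-- telescoping a difference of products -/
theorem prod_tele : ∀ (m : ℕ) (a b : Fin m → ℂ), ∏ j, a j - ∏ j, b j =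
    ∑ k : Fin m, ∏ j : Fin m, (if j < k then b j else if j = k then a j - b j else a j) := by
  intro m
  induction m with
  | zero => intro a b; simp
  | succ m ih =>
    intro a b
    rw [Fin.prod_univ_succ, Fin.prod_univ_succ b, Fin.sum_univ_succ]
    have h1 : ∏ j : Fin (m + 1), (if j < (0 : Fin (m + 1)) then b j else
        if j = 0 then a j - b j else a j) = (a 0 - b 0) * ∏ j : Fin m, a j.succ := by
      rw [Fin.prod_univ_succ]
      simp [Fin.succ_ne_zero]
    have h2 : ∀ k : Fin m, ∏ j : Fin (m + 1), (if j < k.succ then b j else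
        if j = k.succ then a j - b j else a j) =
        b 0 * ∏ j : Fin m, (if j < k then b j.succ else
          if j = k then a j.succ - b j.succ else a j.succ) := by
      intro k
      rw [Fin.prod_univ_succ]
      simp [Fin.succ_pos, Fin.succ_lt_succ_iff, Fin.succ_inj]
    rw [h1, Finset.sum_congr rfl fun k _ => h2 k, ← Finset.mul_sum,
      ← ih (fun j => a j.succ) (fun j => b j.succ)]
    ring

theorem char_bounded
    (hG : ∀ g : G, MeasurePreserving (fun x : X => g • x) μ μ) (𝔉 : Frame G)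
    {m : ℕ} (g : Fin m → ℤ → G)
    (p : Fin m → Polynomial ℝ) (hp : ∀ j (n : ℤ), 𝔉.φ (g j n) = (p j).eval (n : ℝ))
    (h1 : ∀ j, ∃ a b : ℝ, (p j).eval a ≠ (p j).eval b)
    (h2 : ∀ i j, i ≠ j → ∃ a b : ℝ, (p j - p i).eval a ≠ (p j - p i).eval b)
    (hmax : ∀ j, MaxProp μ (fun n x => g j n • x))
    (f : Fin m → X → ℂ) (hf : ∀ j, Measurable[m0] (f j)) (D : ℝ) (hfD : ∀ j x, ‖f j x‖ ≤ D) :
    ∀ᵐ x ∂μ, Tendsto (fun N : ℕ => (2 * (N : ℂ) + 1)⁻¹ * ∑ n ∈ Finset.Icc (-(N : ℤ)) N,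
      (∏ j, f j (g j n • x) - ∏ j, (μ[f j|pinsker μ 𝔉 (X := X)]) (g j n • x)))
      atTop (𝓝 0) := by
  classical
  have hP : pinsker μ 𝔉 (X := X) ≤ m0 := pinsker_le 𝔉
  choose e hem heD hee using fun j =>
    exists_version (μ := μ) (pinsker μ 𝔉 (X := X)) hP (f j) (hf j) D (hfD j)
  have hem0 : ∀ j, Measurable[m0] (e j) := fun j u hu => hP _ (hem j hu)
  set F : Fin m → Fin m → X → ℂ := fun k j x =>
    if j < k then e j x else if j = k then f j x - e j x else f j x with hFdef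
  have hFm : ∀ k j, Measurable[m0] (F k j) := by
    intro k j
    simp only [hFdef]
    by_cases hjk : j < k
    · simp only [hjk, if_true]; exact hem0 j
    · by_cases hjk' : j = k
      · simp only [hjk', if_true, if_false, lt_irrefl]
        exact (hf k).sub (hem0 k)
      · simp only [hjk, hjk', if_false]; exact hf j
  have hFD : ∀ k j x, ‖F k j x‖ ≤ D + D := by
    intro k j x
    have hD0 : 0 ≤ D := (norm_nonneg _).trans (hfD j x)
    simp only [hFdef]
    split_ifs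
    · linarith [heD j x]
    · exact (norm_sub_le _ _).trans (add_le_add (hfD j x) (heD j x))
    · linarith [hfD j x]
  have hzero : ∀ k, μ[F k k|pinsker μ 𝔉 (X := X)] =ᵐ[μ] 0 := by
    intro k
    have e0 : F k k = f k - e k := by
      funext x
      simp [hFdef]
    have hfi : Integrable (f k) μ :=
      Integrable.of_bound (hf k).aestronglyMeasurable D (Eventually.of_forall (hfD k))
    have hei : Integrable (e k) μ :=
      Integrable.of_bound (hem0 k).aestronglyMeasurable D (Eventually.of_forall (heD k))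
    have e1 := condExp_sub (μ := μ) hfi hei (pinsker μ 𝔉 (X := X))
    have e2 : μ[e k|pinsker μ 𝔉 (X := X)] = e k :=
      condExp_of_stronglyMeasurable hP (hem k).stronglyMeasurable hei
    rw [e0]
    rw [e2] at e1
    filter_upwards [e1, hee k] with x hx1 hx2
    rw [hx1, Pi.sub_apply, hx2, sub_self]
    rfl
  have hone : ∀ᵐ x ∂μ, ∀ k : Fin m, Tendsto (fun N : ℕ => (2 * (N : ℂ) + 1)⁻¹ *
      ∑ n ∈ Finset.Icc (-(N : ℤ)) N, ∏ j, F k j (g j n • x)) atTop (𝓝 0) := by
    rw [ae_all_iff]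
    intro k
    exact one_zero hG 𝔉 g p hp h1 h2 hmax (F k) (hFm k) (D + D) (hFD k) k (hzero k)
  have hall : ∀ᵐ x ∂μ, ∀ (j : Fin m) (n : ℤ),
      e j (g j n • x) = (μ[f j|pinsker μ 𝔉 (X := X)]) (g j n • x) := by
    rw [ae_all_iff]
    intro j
    rw [ae_all_iff]
    intro n
    exact (hG (g j n)).quasiMeasurePreserving.ae (hee j)
  filter_upwards [hone, hall] with x hx1 hx2
  have h3 := tendsto_finsetSum (Finset.univ : Finset (Fin m)) (fun k _ => hx1 k)
  simp only [Finset.sum_const_zero] at h3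
  refine h3.congr fun N => ?_
  rw [← Finset.mul_sum, Finset.sum_comm]
  congr 1
  apply Finset.sum_congr rfl
  intro n _
  have h4 : ∏ j, (μ[f j|pinsker μ 𝔉 (X := X)]) (g j n • x) = ∏ j, e j (g j n • x) :=
    Finset.prod_congr rfl fun j _ => (hx2 j n).symm
  rw [h4, prod_tele m (fun j => f j (g j n • x)) (fun j => e j (g j n • x))]

theorem char_memLp
    (hG : ∀ g : G, MeasurePreserving (fun x : X => g • x) μ μ) (𝔉 : Frame G)
    {m : ℕ} (g : Fin m → ℤ → G)
    (p : Fin m → Polynomial ℝ) (hp : ∀ j (n : ℤ), 𝔉.φ (g j n) = (p j).eval (n : ℝ))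
    (h1 : ∀ j, ∃ a b : ℝ, (p j).eval a ≠ (p j).eval b)
    (h2 : ∀ i j, i ≠ j → ∃ a b : ℝ, (p j - p i).eval a ≠ (p j - p i).eval b)
    (hmax : ∀ j, MaxProp μ (fun n x => g j n • x))
    (f : Fin m → X → ℂ) (hf : ∀ j, MemLp (f j) ∞ μ) :
    ∀ᵐ x ∂μ, Tendsto (fun N : ℕ => (2 * (N : ℂ) + 1)⁻¹ * ∑ n ∈ Finset.Icc (-(N : ℤ)) N,
      (∏ j, f j (g j n • x) - ∏ j, (μ[f j|pinsker μ 𝔉 (X := X)]) (g j n • x)))
      atTop (𝓝 0) := by
  classical
  set C : ℝ := 1 + ∑ j, (eLpNorm (f j) ∞ μ).toReal with hC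
  have hfC : ∀ j, ∀ᵐ x ∂μ, ‖f j x‖ ≤ C := by
    intro j
    have h2 := ae_le_eLpNormEssSup (f := f j) (μ := μ)
    filter_upwards [h2] with x hx
    rw [← eLpNorm_exponent_top] at hx
    have h3 := ENNReal.toReal_mono (hf j).eLpNorm_ne_top hx
    have h4 : (eLpNorm (f j) ∞ μ).toReal ≤ ∑ j, (eLpNorm (f j) ∞ μ).toReal :=
      Finset.single_le_sum (f := fun j => (eLpNorm (f j) ∞ μ).toReal)
        (fun j _ => ENNReal.toReal_nonneg) (Finset.mem_univ j)
    have h5 : ‖f j x‖ ≤ (eLpNorm (f j) ∞ μ).toReal := by simpa using h3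
    linarith
  have hC0 : 0 ≤ C := by
    have : 0 ≤ ∑ j, (eLpNorm (f j) ∞ μ).toReal :=
      Finset.sum_nonneg fun j _ => ENNReal.toReal_nonneg
    linarith
  have hver : ∀ j, ∃ F : X → ℂ, Measurable[m0] F ∧ (∀ x, ‖F x‖ ≤ C) ∧ F =ᵐ[μ] f j := by
    intro j
    set f0 := (hf j).1.mk (f j) with hf0
    have hm : Measurable[m0] f0 := (hf j).1.stronglyMeasurable_mk.measurable
    have hset : MeasurableSet[m0] {x | ‖f0 x‖ ≤ C} := by
      have h2 : MeasurableSet {z : ℂ | ‖z‖ ≤ C} :=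
        (isClosed_le continuous_norm continuous_const).measurableSet
      exact hm h2
    refine ⟨fun x => if ‖f0 x‖ ≤ C then f0 x else 0, Measurable.ite hset hm measurable_const,
      fun x => ?_, ?_⟩
    · by_cases h : ‖f0 x‖ ≤ C
      · simp only [h, if_true]
      · simp only [h, if_false, norm_zero]; exact hC0
    · filter_upwards [(hf j).1.ae_eq_mk, hfC j] with x hx1 hx2
      rw [hx1] at hx2
      simp only [hf0, hx2, if_true]
      exact hx1.symm
  choose F hFm hFC hFf using hver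
  have hcond : ∀ j, μ[F j|pinsker μ 𝔉 (X := X)] =ᵐ[μ] μ[f j|pinsker μ 𝔉 (X := X)] := fun j =>
    condExp_congr_ae (hFf j)
  have hall : ∀ᵐ x ∂μ, ∀ (j : Fin m) (n : ℤ), F j (g j n • x) = f j (g j n • x) ∧
      (μ[F j|pinsker μ 𝔉 (X := X)]) (g j n • x) =
        (μ[f j|pinsker μ 𝔉 (X := X)]) (g j n • x) := by
    rw [ae_all_iff]
    intro j
    rw [ae_all_iff]
    intro n
    have : ∀ᵐ y ∂μ, F j y = f j y ∧
        (μ[F j|pinsker μ 𝔉 (X := X)]) y = (μ[f j|pinsker μ 𝔉 (X := X)]) y := by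
      filter_upwards [hFf j, hcond j] with y h3 h4
      exact ⟨h3, h4⟩
    exact (hG (g j n)).quasiMeasurePreserving.ae this
  filter_upwards [char_bounded hG 𝔉 g p hp h1 h2 hmax F hFm C hFC, hall] with x hx1 hx2
  refine hx1.congr fun N => ?_
  congr 1
  apply Finset.sum_congr rfl
  intro n _
  congr 1
  · exact Finset.prod_congr rfl fun j _ => (hx2 j n).1
  · exact Finset.prod_congr rfl fun j _ => (hx2 j n).2

theorem char_trivial
    (hG : ∀ g : G, MeasurePreserving (fun x : X => g • x) μ μ) (𝔉 : Frame G)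
    {m : ℕ} (g : Fin m → ℤ → G)
    (p : Fin m → Polynomial ℝ) (hp : ∀ j (n : ℤ), 𝔉.φ (g j n) = (p j).eval (n : ℝ))
    (h1 : ∀ j, ∃ a b : ℝ, (p j).eval a ≠ (p j).eval b)
    (h2 : ∀ i j, i ≠ j → ∃ a b : ℝ, (p j - p i).eval a ≠ (p j - p i).eval b)
    (hmax : ∀ j, MaxProp μ (fun n x => g j n • x))
    (f : Fin m → X → ℂ) (hf : ∀ j, MemLp (f j) ∞ μ)
    (htriv : ∀ B : Set X, MeasurableSet[m0] B → Zero μ 𝔉 (fun x => x ∈ B) → μ B = 0 ∨ μ B = 1) :
    ∀ᵐ x ∂μ, Tendsto (fun N : ℕ => (2 * (N : ℂ) + 1)⁻¹ * ∑ n ∈ Finset.Icc (-(N : ℤ)) N,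
      ∏ j, f j (g j n • x)) atTop (𝓝 (∏ j, ∫ x, f j x ∂μ)) := by
  have hP : pinsker μ 𝔉 (X := X) ≤ m0 := pinsker_le 𝔉
  have hconst : ∀ j, μ[f j|pinsker μ 𝔉 (X := X)] =ᵐ[μ] fun _ => ∫ x, f j x ∂μ := by
    intro j
    have hfi : Integrable (f j) μ := (hf j).integrable (by simp)
    symm
    apply ae_eq_condExp_of_forall_setIntegral_eq hP hfi
    · intro s _ _
      exact (integrable_const _).integrableOn
    · intro s hs _
      have hs' := (measurableSet_pinsker_iff 𝔉 hG s).1 hs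
      rcases htriv s hs'.1 hs'.2 with h | h
      · rw [Measure.restrict_eq_zero.2 h]
        simp
      · have h3 : s =ᵐ[μ] Set.univ := by
          rw [ae_eq_univ]
          rw [prob_compl_eq_zero_iff (hP _ hs)]
          exact h
        rw [Measure.restrict_congr_set h3, Measure.restrict_univ]
        simp
    · exact (@stronglyMeasurable_const _ _ (pinsker μ 𝔉 (X := X)) _ _).aestronglyMeasurable
  have hall2 : ∀ᵐ x ∂μ, ∀ (j : Fin m) (n : ℤ),
      (μ[f j|pinsker μ 𝔉 (X := X)]) (g j n • x) = ∫ x, f j x ∂μ := by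
    rw [ae_all_iff]
    intro j
    rw [ae_all_iff]
    intro n
    exact (hG (g j n)).quasiMeasurePreserving.ae (hconst j)
  filter_upwards [char_memLp hG 𝔉 g p hp h1 h2 hmax f hf, hall2] with x hx1 hx2
  have h3 := hx1.add_const (∏ j, ∫ x, f j x ∂μ)
  rw [zero_add] at h3
  refine h3.congr fun N => ?_
  have hne : (2 * (N : ℂ) + 1) ≠ 0 := by exact_mod_cast Nat.succ_ne_zero (2 * N)
  have h4 : ∑ n ∈ Finset.Icc (-(N : ℤ)) N,
      (∏ j, f j (g j n • x) - ∏ j, (μ[f j|pinsker μ 𝔉 (X := X)]) (g j n • x)) =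
      ∑ n ∈ Finset.Icc (-(N : ℤ)) N, ∏ j, f j (g j n • x) -
        (2 * (N : ℂ) + 1) * ∏ j, ∫ x, f j x ∂μ := by
    rw [Finset.sum_sub_distrib]
    congr 1
    have h5 : ∀ n ∈ Finset.Icc (-(N : ℤ)) N,
        ∏ j, (μ[f j|pinsker μ 𝔉 (X := X)]) (g j n • x) =
        ∏ j, ∫ x, f j x ∂μ := fun n _ => Finset.prod_congr rfl fun j _ => hx2 j n
    rw [Finset.sum_congr rfl h5, Finset.sum_const, Int.card_Icc, nsmul_eq_mul]
    congr 1
    have : ((N : ℤ) + 1 - -(N : ℤ)).toNat = 2 * N + 1 := by omega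
    rw [this]
    push_cast
    ring
  rw [h4, mul_sub, inv_mul_cancel_left₀ hne, sub_add_cancel]

end Pool.Pinsker
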