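import Pool.Agent.Pinsker.CondEnt

set_option autoImplicit false
set_option warn.classDefReducibility false

/-!
# Module Names: names on finite sets of a group

`name α B x = (α (g • x))_{g ∈ B}`.  Everything is relabelling (module CondEnt).
* `fm_name`: `fm_pi`.
* `fm_name_shift`: `x ↦ name α B (g • x)` has the components `α (h • g • x) = α ((h g) • x)`.
* `cent_name_insert`: for `g ∉ B` the name on `insert g B` and the pair
  `(α (g • x), name α B x)` are relabellings of each other (an injective map from the first to the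
  second: `n ↦ (n g, fun h => n h)`), then `cent_comp_inj_left` and `cent_chain`.
* `cent_name_shift`: `H(α(g•·) | (α ((f g) • ·))_{f ∈ F}) = H(α | name α F)`: `cent_mp` for
  `x ↦ g • x` gives `H(α∘g | (name α F)∘g) = H(α | name α F)`, and
  `(name α F)(g • x) = (α ((f g) • x))_{f ∈ F}`; this is a relabelling of
  `name α (F.image (· * g))` (the map `(F.image (· g) → ι) → (F → ι)`, `n ↦ fun f => n (f g)` is
  injective, since `f ↦ f g` is a surjection of `F` onto the image).
* `name_factor`: restriction of a name.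
* `name_pair`: the name of the pair is a relabelling of the pair of names.
-/

open MeasureTheory Filter Topology Finset

namespace Pool.Pinsker

variable {X : Type*} {m0 : MeasurableSpace X} {μ : Measure X} [IsProbabilityMeasure μ]
variable {G : Type*} [Group G] [MulAction G X] [DecidableEq G]
variable {ι κ l : Type*} [Fintype ι] [Fintype κ] [Fintype l]

omit [DecidableEq G] in
theorem fm_name {m' : MeasurableSpace X} (α : X → ι) (B : Finset G)
    (h : ∀ g ∈ B, FM m' (fun x => α (g • x))) : FM m' (name α B) :=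
  fm_pi (J := B) (f := fun g x => α ((g : G) • x)) (fun j => h j.1 j.2)

omit [DecidableEq G] in
theorem fm_name_shift {m' : MeasurableSpace X} (α : X → ι) (B : Finset G) (k : G)
    (h : ∀ g ∈ B, FM m' (fun x => α ((g * k) • x))) : FM m' (fun x => name α B (k • x)) := by
  have h1 : (fun x => name α B (k • x)) = fun x => fun g : B => α (((g : G) * k) • x) := by
    funext x g
    simp [name, mul_smul]
  rw [h1]
  exact fm_pi (J := B) (f := fun g x => α (((g : G) * k) • x)) (fun j => h j.1 j.2)

omit [DecidableEq G] [Fintype ι] in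
theorem fm_act (hG : ∀ g : G, MeasurePreserving (fun x : X => g • x) μ μ) (α : X → ι)
    (hα : FM m0 α) (g : G) : FM m0 (fun x => α (g • x)) :=
  fun s => (hG g).measurable (hα s)

theorem cent_name_insert (α : X → ι) (g : G) (B : Finset G) (hg : g ∉ B) (ζ : X → κ) :
    cent μ (name α (insert g B)) ζ =
      cent μ (name α B) ζ + cent μ (fun x => α (g • x)) (fun x => (name α B x, ζ x)) := by
  rw [← cent_chain]
  let e : (↥(insert g B) → ι) → ι × (B → ι) :=
    fun n => (n ⟨g, mem_insert_self g B⟩, fun h => n ⟨h.1, mem_insert_of_mem h.2⟩)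
  have he : Function.Injective e := by
    intro n n' hn
    have h1 : n ⟨g, mem_insert_self g B⟩ = n' ⟨g, mem_insert_self g B⟩ := congrArg Prod.fst hn
    have h2 : (fun h : B => n ⟨h.1, mem_insert_of_mem h.2⟩) =
        fun h : B => n' ⟨h.1, mem_insert_of_mem h.2⟩ := congrArg Prod.snd hn
    funext ⟨k, hk⟩
    rcases mem_insert.1 hk with rfl | hk'
    · exact h1
    · exact congrFun h2 ⟨k, hk'⟩
  rw [← cent_comp_inj_left (name α (insert g B)) ζ e he]
  rfl

theorem ent_name_insert (α : X → ι) (g : G) (B : Finset G) (hg : g ∉ B) :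
    ent μ (name α (insert g B)) =
      ent μ (name α B) + cent μ (fun x => α (g • x)) (name α B) := by
  rw [← ent_pair]
  let e : (↥(insert g B) → ι) → ι × (B → ι) :=
    fun n => (n ⟨g, mem_insert_self g B⟩, fun h => n ⟨h.1, mem_insert_of_mem h.2⟩)
  have he : Function.Injective e := by
    intro n n' hn
    have h1 : n ⟨g, mem_insert_self g B⟩ = n' ⟨g, mem_insert_self g B⟩ := congrArg Prod.fst hn
    have h2 : (fun h : B => n ⟨h.1, mem_insert_of_mem h.2⟩) =
        fun h : B => n' ⟨h.1, mem_insert_of_mem h.2⟩ := congrArg Prod.snd hn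
    funext ⟨k, hk⟩
    rcases mem_insert.1 hk with rfl | hk'
    · exact h1
    · exact congrFun h2 ⟨k, hk'⟩
  rw [← ent_comp_inj (name α (insert g B)) e he]
  rfl

theorem cent_name_shift (hG : ∀ g : G, MeasurePreserving (fun x : X => g • x) μ μ)
    (α : X → ι) (hα : FM m0 α) (F : Finset G) (g : G) :
    cent μ (fun x => α (g • x)) (name α (F.image fun f => f * g)) = cent μ α (name α F) := by
  have h1 := cent_mp (fun x => g • x) (hG g) α (name α F) hα
    (fm_name α F fun b _ => fm_act hG α hα b)
  rw [← h1]
  let e : (↥(F.image fun f => f * g) → ι) → (F → ι) :=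
    fun n f => n ⟨f.1 * g, mem_image_of_mem _ f.2⟩
  have he : Function.Injective e := by
    intro n n' hn
    funext ⟨k, hk⟩
    obtain ⟨f, hf, rfl⟩ := mem_image.1 hk
    exact congrFun hn ⟨f, hf⟩
  rw [← cent_comp_inj_right (fun x => α (g • x)) (name α (F.image fun f => f * g)) e he]
  congr 1
  funext x f
  simp [e, name, mul_smul]

omit [DecidableEq G] [Fintype ι] in
theorem name_factor (α : X → ι) (B B' : Finset G) (h : B' ⊆ B) :
    ∃ e : (B → ι) → (B' → ι), ∀ x : X, name α B' x = e (name α B x) :=
  ⟨fun n g => n ⟨g.1, h g.2⟩, fun _ => rfl⟩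

theorem ent_name_pair (α : X → ι) (β : X → κ) (B : Finset G) :
    ent μ (name (fun x => (α x, β x)) B) = ent μ (fun x => (name α B x, name β B x)) := by
  let e : (B → ι × κ) → (B → ι) × (B → κ) := fun n => (fun g => (n g).1, fun g => (n g).2)
  have he : Function.Injective e := by
    intro n n' hn
    funext g
    exact Prod.ext (congrFun (congrArg Prod.fst hn) g) (congrFun (congrArg Prod.snd hn) g)
  rw [← ent_comp_inj (name (fun x => (α x, β x)) B) e he]
  rfl

/-- `H(name α B | g) ≤ Σ_{b ∈ B} H(α∘b | g)`. -/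
theorem cent_name_le (hG : ∀ g : G, MeasurePreserving (fun x : X => g • x) μ μ)
    (α : X → ι) (hα : FM m0 α) (B : Finset G) (ζ : X → κ) (hζ : FM m0 ζ) :
    cent μ (name α B) ζ ≤ ∑ b ∈ B, cent μ (fun x => α (b • x)) ζ := by
  have h := cent_pi_le (μ := μ) (J := B) (fun b x => α ((b : G) • x)) ζ
    (fun j => fm_act hG α hα j.1) hζ
  rw [Finset.sum_coe_sort B (fun b => cent μ (fun x => α (b • x)) ζ)] at h
  exact h

omit [Fintype ι] [IsProbabilityMeasure μ] in
/-- the entropy of the name of the indicator of `B` as an explicit sum over subsets of `Λ` -/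
theorem ent_name_set (B : Set X) (Λ : Finset G) :
    ent μ (name (fun x => x ∈ B) Λ) =
      ∑ S ∈ Λ.powerset, Real.negMulLog (μ.real {x | ∀ g ∈ Λ, (g • x ∈ B ↔ g ∈ S)}) := by
  classical
  unfold ent
  symm
  refine Finset.sum_nbij (fun S => fun g : Λ => (g : G) ∈ S) (fun _ _ => mem_univ _) ?_ ?_ ?_
  · intro S hS S' hS' h
    ext g
    constructor
    · intro hg
      have : ((g ∈ S) : Prop) = (g ∈ S') := congrFun h ⟨g, mem_powerset.1 hS hg⟩
      exact this.mp hg
    · intro hg
      have : ((g ∈ S) : Prop) = (g ∈ S') := congrFun h ⟨g, mem_powerset.1 hS' hg⟩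
      exact this.mpr hg
  · intro p _
    refine ⟨Λ.filter fun g => ∃ h : g ∈ Λ, p ⟨g, h⟩, ?_, ?_⟩
    · exact mem_coe.2 (mem_powerset.2 (filter_subset _ _))
    · funext ⟨g, hg⟩
      simp [hg]
  · intro S hS
    congr 2
    ext x
    simp only [Set.mem_ofPred_eq, Set.mem_preimage, Set.mem_singleton_iff]
    constructor
    · intro h
      funext ⟨g, hg⟩
      exact propext (h g hg)
    · intro h g hg
      have := congrFun h ⟨g, hg⟩
      exact iff_of_eq this

end Pool.Pinsker
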