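import Pool.Agent.Pinsker.Defs

set_option autoImplicit false
set_option warn.classDefReducibility false

/-!
# Module ZFrame: the frame of `ℤ^d`

`G = Multiplicative (Fin d → ℤ)`, `φ` additive and injective, `a < b` iff `φ a < φ b`,
`Λ n = [0, n]^d = {g | 0 ≤ g i ≤ n}`.
* `exists_height`: `Module.rank ℚ ℝ` is infinite (`Real.rank_rat_real : Module.rank ℚ ℝ = 𝔠`), so
  there are `w_1, .., w_d ∈ ℝ` linearly independent over `ℚ`; `φ g = Σ g_i w_i`
  (alternative: `w_i = Real.log p_i` for distinct primes, or `w_i = π^i`/powers of a transcendental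
  Liouville number).
* `box_folner`: for a finite `F ⊂ ℤ^d` let `R ≥ |f_i|` for all `f ∈ F` and all `i`.  If
  `R ≤ g_i ≤ n - R` for all `i` then `f + g ∈ Λ n`.  So
  `#{g ∈ Λ n : F g ⊄ Λ n} ≤ (n+1)^d - (n+1-2R)^d` for `n ≥ 2R` (for natural `R`), and the quotient
  by `(n+1)^d` tends to `0`.  (Or: `≤ d (2R) (n+1)^(d-1)`, union bound over the coordinate that is
  `< R` or `> n - R`.)
* `zframe`: `irrefl`, `trans`, `total` from the order of `ℝ` and injectivity of `φ`; `mul_right`,
  `φ_lt` from additivity.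
-/

open MeasureTheory Filter Topology Finset

namespace Pool.Pinsker

theorem exists_height (d : ℕ) : ∃ w : Fin d → ℝ,
    Function.Injective (fun g : Fin d → ℤ => ∑ i, (g i : ℝ) * w i) := by
  have hθ : Transcendental ℤ (liouvilleNumber ((2 : ℕ) : ℝ)) :=
    transcendental_liouvilleNumber le_rfl
  obtain ⟨θ, hθ⟩ : ∃ θ : ℝ, Transcendental ℤ θ := ⟨_, hθ⟩
  refine ⟨fun i => θ ^ (i : ℕ), ?_⟩
  intro g h hgh
  have hgh' : ∑ i : Fin d, (g i : ℝ) * θ ^ (i : ℕ) = ∑ i : Fin d, (h i : ℝ) * θ ^ (i : ℕ) := hgh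
  let p : Polynomial ℤ := ∑ i : Fin d, Polynomial.C (g i - h i) * Polynomial.X ^ (i : ℕ)
  have hp : Polynomial.aeval θ p = 0 := by
    have : Polynomial.aeval θ p = ∑ i : Fin d, ((g i : ℝ) - (h i : ℝ)) * θ ^ (i : ℕ) := by
      simp [p, map_sum]
    rw [this]
    simp only [sub_mul, Finset.sum_sub_distrib]
    linarith
  have hp0 : p = 0 := by
    by_contra hne
    exact hθ ⟨p, hne, hp⟩
  funext i
  have h1 : p.coeff (i : ℕ) = g i - h i := by
    simp only [p, Polynomial.finsetSum_coeff, Polynomial.coeff_C_mul, Polynomial.coeff_X_pow]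
    rw [Finset.sum_eq_single i]
    · simp
    · intro j _ hj
      have : (i : ℕ) ≠ (j : ℕ) := fun h => hj (Fin.ext h.symm)
      simp [this]
    · intro h; exact absurd (Finset.mem_univ i) h
  rw [hp0, Polynomial.coeff_zero] at h1
  omega

/-- the box `[0, n]^d` -/
noncomputable def zbox (d n : ℕ) : Finset (Multiplicative (Fin d → ℤ)) :=
  (Fintype.piFinset fun _ : Fin d => Finset.Icc (0 : ℤ) n).map
    Multiplicative.ofAdd.toEmbedding

theorem mem_zbox (d n : ℕ) (g : Multiplicative (Fin d → ℤ)) :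
    g ∈ zbox d n ↔ ∀ i, 0 ≤ Multiplicative.toAdd g i ∧ Multiplicative.toAdd g i ≤ n := by
  unfold zbox
  rw [Finset.mem_map_equiv, Fintype.mem_piFinset]
  simp only [Finset.mem_Icc]
  rfl

theorem zbox_card (d n : ℕ) : (zbox d n).card = (n + 1) ^ d := by
  unfold zbox
  rw [Finset.card_map, Fintype.card_piFinset]
  simp

theorem zbox_folner (d : ℕ) (F : Finset (Multiplicative (Fin d → ℤ))) :
    Tendsto (fun n : ℕ => (((zbox d n).filter fun g =>
      ¬ (F.image (fun f => f * g) ⊆ zbox d n)).card : ℝ) / (zbox d n).card) atTop (𝓝 0) := by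
  obtain ⟨R, hR⟩ : ∃ R : ℕ, ∀ f ∈ F, ∀ i, |Multiplicative.toAdd f i| ≤ (R : ℤ) := by
    refine ⟨∑ f ∈ F, ∑ i, (Multiplicative.toAdd f i).natAbs, fun f hf i => ?_⟩
    have h1 : (Multiplicative.toAdd f i).natAbs ≤ ∑ i, (Multiplicative.toAdd f i).natAbs :=
      Finset.single_le_sum (f := fun i => (Multiplicative.toAdd f i).natAbs)
        (fun _ _ => Nat.zero_le _) (Finset.mem_univ i)
    have h2 : ∑ i, (Multiplicative.toAdd f i).natAbs ≤
        ∑ f ∈ F, ∑ i, (Multiplicative.toAdd f i).natAbs :=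
      Finset.single_le_sum (f := fun f => ∑ i, (Multiplicative.toAdd f i).natAbs)
        (fun _ _ => Nat.zero_le _) hf
    rw [Int.abs_eq_natAbs]
    exact_mod_cast h1.trans h2
  have hupper : ∀ n : ℕ, 2 * R ≤ n → (((zbox d n).filter fun g =>
      ¬ (F.image (fun f => f * g) ⊆ zbox d n)).card : ℝ) / (zbox d n).card ≤
        1 - (1 - (2 * R : ℝ) / ((n : ℝ) + 1)) ^ d := by
    intro n hn
    set I : Finset (Multiplicative (Fin d → ℤ)) :=
      (Fintype.piFinset fun _ : Fin d => Finset.Icc (R : ℤ) ((n : ℤ) - R)).map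
        Multiplicative.ofAdd.toEmbedding with hI
    have hmemI : ∀ g, g ∈ I ↔ ∀ i, (R : ℤ) ≤ Multiplicative.toAdd g i ∧
        Multiplicative.toAdd g i ≤ (n : ℤ) - R := by
      intro g
      rw [hI, Finset.mem_map_equiv, Fintype.mem_piFinset]
      simp only [Finset.mem_Icc]
      rfl
    have hIcard : I.card = (n + 1 - 2 * R) ^ d := by
      rw [hI, Finset.card_map, Fintype.card_piFinset]
      simp only [Int.card_Icc, Finset.prod_const, Finset.card_univ, Fintype.card_fin]
      congr 1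
      omega
    have hIsub : I ⊆ zbox d n := by
      intro g hg
      rw [mem_zbox]
      intro i
      have := (hmemI g).1 hg i
      omega
    have hsub : ((zbox d n).filter fun g => ¬ (F.image (fun f => f * g) ⊆ zbox d n)) ⊆
        zbox d n \ I := by
      intro g hg
      rw [Finset.mem_filter] at hg
      rw [Finset.mem_sdiff]
      refine ⟨hg.1, fun hgI => hg.2 ?_⟩
      intro x hx
      rw [Finset.mem_image] at hx
      obtain ⟨f, hf, rfl⟩ := hx
      rw [mem_zbox]
      intro i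
      have h1 := (hmemI g).1 hgI i
      have h2 := abs_le.1 (hR f hf i)
      have h3 : Multiplicative.toAdd (f * g) i =
          Multiplicative.toAdd f i + Multiplicative.toAdd g i := by
        rw [toAdd_mul]; rfl
      rw [h3]
      omega
    have hcard := Finset.card_le_card hsub
    rw [Finset.card_sdiff_of_subset hIsub, zbox_card, hIcard] at hcard
    have hle : (n + 1 - 2 * R) ^ d ≤ (n + 1) ^ d := Nat.pow_le_pow_left (by omega) d
    have hcard' : (((zbox d n).filter fun g =>
        ¬ (F.image (fun f => f * g) ⊆ zbox d n)).card : ℝ) ≤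
        ((n : ℝ) + 1) ^ d - ((n : ℝ) + 1 - 2 * R) ^ d := by
      have h4 : (((zbox d n).filter fun g =>
        ¬ (F.image (fun f => f * g) ⊆ zbox d n)).card : ℝ) ≤
          (((n + 1) ^ d - (n + 1 - 2 * R) ^ d : ℕ) : ℝ) := by exact_mod_cast hcard
      rw [Nat.cast_sub hle] at h4
      have h5 : ((n + 1 - 2 * R : ℕ) : ℝ) = (n : ℝ) + 1 - 2 * R := by
        rw [Nat.cast_sub (by omega)]; push_cast; ring
      rw [Nat.cast_pow, Nat.cast_pow, h5] at h4
      push_cast at h4
      exact h4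
    have hn1 : (0 : ℝ) < (n : ℝ) + 1 := by positivity
    have hpow : (0 : ℝ) < ((n : ℝ) + 1) ^ d := by positivity
    rw [zbox_card]
    push_cast
    rw [div_le_iff₀ hpow]
    have h6 : (1 - (1 - (2 * R : ℝ) / ((n : ℝ) + 1)) ^ d) * ((n : ℝ) + 1) ^ d =
        ((n : ℝ) + 1) ^ d - ((n : ℝ) + 1 - 2 * R) ^ d := by
      rw [sub_mul, one_mul, ← mul_pow]
      congr 2
      field_simp
    rw [h6]
    exact hcard'
  have hlim : Tendsto (fun n : ℕ => 1 - (1 - (2 * R : ℝ) / ((n : ℝ) + 1)) ^ d) atTop (𝓝 0) := by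
    have h1 : Tendsto (fun n : ℕ => (2 * R : ℝ) / ((n : ℝ) + 1)) atTop (𝓝 0) := by
      have := (tendsto_one_div_add_atTop_nhds_zero_nat (𝕜 := ℝ)).const_mul (2 * R : ℝ)
      rw [mul_zero] at this
      refine this.congr fun n => ?_
      ring
    have h2 : Tendsto (fun n : ℕ => 1 - (1 - (2 * R : ℝ) / ((n : ℝ) + 1)) ^ d) atTop
        (𝓝 (1 - (1 - 0) ^ d)) := (((tendsto_const_nhds (x := (1 : ℝ))).sub h1).pow d).const_sub 1
    simpa using h2
  refine squeeze_zero' (Eventually.of_forall fun n => by positivity) ?_ hlim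
  exact eventually_atTop.2 ⟨2 * R, hupper⟩

/-- the frame of `ℤ^d` for a height given by `w` -/
noncomputable def zframe (d : ℕ) (w : Fin d → ℝ)
    (hw : Function.Injective (fun g : Fin d → ℤ => ∑ i, (g i : ℝ) * w i)) :
    Frame (Multiplicative (Fin d → ℤ)) where
  lt a b := ∑ i, ((Multiplicative.toAdd a i : ℤ) : ℝ) * w i <
    ∑ i, ((Multiplicative.toAdd b i : ℤ) : ℝ) * w i
  irrefl := fun a => lt_irrefl _
  trans := fun a b c h1 h2 => lt_trans h1 h2
  total := fun a b => by
    rcases lt_trichotomy (∑ i, ((Multiplicative.toAdd a i : ℤ) : ℝ) * w i)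
      (∑ i, ((Multiplicative.toAdd b i : ℤ) : ℝ) * w i) with h | h | h
    · exact Or.inl h
    · exact Or.inr (Or.inl (Multiplicative.toAdd.injective (hw h)))
    · exact Or.inr (Or.inr h)
  mul_right := fun a b c h => by
    have e : ∀ x y : Multiplicative (Fin d → ℤ),
        ∑ i, ((Multiplicative.toAdd (x * y) i : ℤ) : ℝ) * w i =
          ∑ i, ((Multiplicative.toAdd x i : ℤ) : ℝ) * w i +
          ∑ i, ((Multiplicative.toAdd y i : ℤ) : ℝ) * w i := by
      intro x y
      rw [← Finset.sum_add_distrib]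
      refine Finset.sum_congr rfl fun i _ => ?_
      rw [toAdd_mul, Pi.add_apply]
      push_cast
      ring
    rw [e, e]
    linarith
  φ a := ∑ i, ((Multiplicative.toAdd a i : ℤ) : ℝ) * w i
  φ_mul := fun x y => by
    rw [← Finset.sum_add_distrib]
    refine Finset.sum_congr rfl fun i _ => ?_
    rw [toAdd_mul, Pi.add_apply]
    push_cast
    ring
  φ_lt := fun a b h => h
  Λ n := zbox d n
  Λ_card := fun n => by rw [zbox_card]; positivity
  folner := fun F => by
    have := zbox_folner d F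
    exact this

end Pool.Pinsker
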