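import Pool.Agent.Pinsker.CommDefs
import Pool.Agent.Pinsker.Names
import Pool.Agent.Pinsker.ZFrame

set_option autoImplicit false
set_option warn.classDefReducibility false

/-!
# Module Comm: the action of `ℤ^d` given by commuting maps

* `zact`: `g • x = T_1^{g_1} ⋯ T_d^{g_d} x`; `mul_smul` from commutativity
  (`List.prod_ofFn`, the powers commute: `Commute.zpow_zpow`; for pairwise commuting families
  `(List.ofFn fun i => a i * b i).prod = (List.ofFn a).prod * (List.ofFn b).prod`: induction on `d`
  with `List.ofFn_succ`).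
* `zact_mp`: powers and products of measure preserving bijections with measurable inverse.
* `zero_iff`: the box `[0,n]^d ⊂ ℤ^d` corresponds to `piFinset (range (n+1))` in `ℕ^d` (the
  bijection `g ↦ (fun i => (g i : ℤ))`), `zpow_natCast`; by `ent_name_set` the entropies are equal:
  `ent μ (name (· ∈ B) (zbox d n)) = patternEntropy μ T B (n+1)`; `zbox_card`; then shift `n` by
  one (`tendsto_add_atTop_iff_nat 1`).
* `pinsker_eq`: by `zero_iff`.
-/

open MeasureTheory Filter Topology Finset

namespace Pool.Pinsker

variable {X : Type*} {m0 : MeasurableSpace X} {μ : Measure X} [IsProbabilityMeasure μ] {d : ℕ}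

theorem comm_prod_commute {M : Type*} [Monoid M] {d : ℕ} (b : M) (a : Fin d → M)
    (h : ∀ i, Commute b (a i)) : Commute b (List.ofFn a).prod := by
  apply Commute.list_prod_right
  intro x hx
  obtain ⟨i, rfl⟩ := (List.mem_ofFn' a x).1 hx
  exact h i

theorem comm_prod_mul {M : Type*} [Monoid M] {d : ℕ} (a b : Fin d → M)
    (h : ∀ i j, Commute (b i) (a j)) :
    (List.ofFn fun i => a i * b i).prod = (List.ofFn a).prod * (List.ofFn b).prod := by
  induction d with
  | zero => simp
  | succ d ih =>
    rw [List.ofFn_succ, List.ofFn_succ, List.ofFn_succ, List.prod_cons, List.prod_cons,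
      List.prod_cons, ih (fun i => a i.succ) (fun i => b i.succ) (fun i j => h _ _)]
    have h1 : Commute (b 0) (List.ofFn fun i : Fin d => a i.succ).prod :=
      comm_prod_commute _ _ fun i => h _ _
    have h2 := h1.eq
    calc a 0 * b 0 * ((List.ofFn fun i : Fin d => a i.succ).prod *
          (List.ofFn fun i : Fin d => b i.succ).prod)
        = a 0 * (b 0 * (List.ofFn fun i : Fin d => a i.succ).prod) *
          (List.ofFn fun i : Fin d => b i.succ).prod := by simp only [mul_assoc]
      _ = a 0 * ((List.ofFn fun i : Fin d => a i.succ).prod * b 0) *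
          (List.ofFn fun i : Fin d => b i.succ).prod := by rw [h2]
      _ = _ := by simp only [mul_assoc]

/-- the action of `ℤ^d` by commuting maps -/
@[reducible] def zact (T : Fin d → Equiv.Perm X) (hc : ∀ i j, Commute (T i) (T j)) :
    MulAction (Multiplicative (Fin d → ℤ)) X where
  smul g x := (List.ofFn fun i => T i ^ (Multiplicative.toAdd g i)).prod x
  one_smul := by
    intro x
    change (List.ofFn fun i : Fin d =>
      T i ^ (Multiplicative.toAdd (1 : Multiplicative (Fin d → ℤ)) i)).prod x = x
    have : (List.ofFn fun i : Fin d =>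
        T i ^ (Multiplicative.toAdd (1 : Multiplicative (Fin d → ℤ)) i)).prod = 1 := by
      apply List.prod_eq_one
      intro y hy
      obtain ⟨i, rfl⟩ := (List.mem_ofFn' _ y).1 hy
      simp
    rw [this]
    rfl
  mul_smul := by
    intro g h x
    change (List.ofFn fun i : Fin d => T i ^ (Multiplicative.toAdd (g * h) i)).prod x =
      (List.ofFn fun i : Fin d => T i ^ (Multiplicative.toAdd g i)).prod
        ((List.ofFn fun i : Fin d => T i ^ (Multiplicative.toAdd h i)).prod x)
    have : (List.ofFn fun i : Fin d => T i ^ (Multiplicative.toAdd (g * h) i)).prod =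
        (List.ofFn fun i : Fin d => T i ^ (Multiplicative.toAdd g i)).prod *
        (List.ofFn fun i : Fin d => T i ^ (Multiplicative.toAdd h i)).prod := by
      rw [← comm_prod_mul]
      · congr 2
        funext i
        rw [toAdd_mul, Pi.add_apply, zpow_add]
      · intro i j
        exact (hc i j).zpow_zpow _ _
    rw [this]
    rfl

omit [IsProbabilityMeasure μ] in
theorem zact_mp (T : Fin d → Equiv.Perm X) (hc : ∀ i j, Commute (T i) (T j))
    (hT' : ∀ i, Measurable ⇑(T i).symm) (hT : ∀ i, MeasurePreserving (⇑(T i)) μ μ)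
    (g : Multiplicative (Fin d → ℤ)) :
    MeasurePreserving (fun x : X => (List.ofFn fun i => T i ^ (Multiplicative.toAdd g i)).prod x)
      μ μ := by
  have hsymm : ∀ i, MeasurePreserving (⇑(T i).symm) μ μ := by
    intro i
    let e : X ≃ᵐ X := ⟨T i, (hT i).measurable, hT' i⟩
    exact MeasurePreserving.symm e (hT i)
  have hpow : ∀ i (z : ℤ), MeasurePreserving (⇑(T i ^ z)) μ μ := by
    intro i z
    cases z with
    | ofNat n =>
      have : (⇑(T i ^ (Int.ofNat n)) : X → X) = (⇑(T i))^[n] := by
        rw [Int.ofNat_eq_natCast, zpow_natCast, Equiv.Perm.iterate_eq_pow]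
      rw [this]
      exact (hT i).iterate n
    | negSucc n =>
      have : (⇑(T i ^ (Int.negSucc n)) : X → X) = (⇑(T i).symm)^[n + 1] := by
        rw [zpow_negSucc, ← inv_pow]
        exact (Equiv.Perm.iterate_eq_pow (T i)⁻¹ (n + 1)).symm
      rw [this]
      exact (hsymm i).iterate (n + 1)
  have hgen : ∀ l : List (Equiv.Perm X), (∀ e ∈ l, MeasurePreserving (⇑e) μ μ) →
      MeasurePreserving (⇑l.prod) μ μ := by
    intro l
    induction l with
    | nil => intro _; exact MeasurePreserving.id μ
    | cons a l ih =>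
      intro h
      rw [List.prod_cons]
      exact (h a (by simp)).comp (ih fun e he => h e (by simp [he]))
  apply hgen
  intro e he
  obtain ⟨i, rfl⟩ := (List.mem_ofFn' _ e).1 he
  exact hpow i _

/-- the embedding of `ℕ^d` into `ℤ^d` -/
def natEmb (d : ℕ) : (Fin d → ℕ) ↪ Multiplicative (Fin d → ℤ) where
  toFun h := Multiplicative.ofAdd fun i => (h i : ℤ)
  inj' := by
    intro h h' hh
    funext i
    have := congrFun (Multiplicative.ofAdd.injective hh) i
    exact_mod_cast this

theorem zbox_eq_map (d n : ℕ) : zbox d n =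
    (Fintype.piFinset fun _ : Fin d => Finset.range (n + 1)).map (natEmb d) := by
  ext g
  simp only [zbox, Finset.mem_map, Fintype.mem_piFinset, mem_Icc, mem_range]
  constructor
  · rintro ⟨f, hf, rfl⟩
    refine ⟨fun i => (f i).toNat, fun i => ?_, ?_⟩
    · have := hf i
      change (f i).toNat < n + 1
      omega
    · simp only [natEmb, Function.Embedding.coeFn_mk, Equiv.coe_toEmbedding]
      congr 1
      funext i
      exact Int.toNat_of_nonneg (hf i).1
  · rintro ⟨h, hh, rfl⟩
    refine ⟨fun i => (h i : ℤ), fun i => ?_, rfl⟩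
    have := hh i
    change 0 ≤ (h i : ℤ) ∧ (h i : ℤ) ≤ n
    omega

omit [IsProbabilityMeasure μ] in
theorem ent_zbox (T : Fin d → Equiv.Perm X) (hc : ∀ i j, Commute (T i) (T j)) (B : Set X)
    (n : ℕ) :
    letI := zact T hc
    ent μ (name (fun x => x ∈ B) (zbox d n)) = patternEntropy μ T B (n + 1) := by
  letI := zact T hc
  change ent μ (name (fun x => x ∈ B) (zbox d n)) = patternEntropy μ T B (n + 1)
  rw [ent_name_set, patternEntropy, zbox_eq_map]
  symm
  refine Finset.sum_nbij (fun S => S.map (natEmb d)) ?_ ?_ ?_ ?_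
  · intro S hS
    exact mem_powerset.2 (map_subset_map.2 (mem_powerset.1 hS))
  · intro S _ S' _ h
    exact map_injective _ h
  · intro S hS
    obtain ⟨u, hu, rfl⟩ := subset_map_iff.1 (mem_powerset.1 hS)
    exact ⟨u, mem_coe.2 (mem_powerset.2 hu), rfl⟩
  · intro S hS
    congr 2
    ext x
    simp only [Set.mem_ofPred_eq]
    constructor
    · intro h g hg
      obtain ⟨k, hk, rfl⟩ := mem_map.1 hg
      have := h k hk
      rw [mem_map' (natEmb d)]
      rw [← this]
      rfl
    · intro h k hk
      have := h (natEmb d k) (mem_map_of_mem _ hk)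
      rw [mem_map' (natEmb d)] at this
      rw [← this]
      rfl

omit [IsProbabilityMeasure μ] in
theorem zero_iff (T : Fin d → Equiv.Perm X) (hc : ∀ i j, Commute (T i) (T j)) (w : Fin d → ℝ)
    (hw : Function.Injective (fun g : Fin d → ℤ => ∑ i, (g i : ℝ) * w i)) (B : Set X) :
    letI := zact T hc
    Zero μ (zframe d w hw) (fun x => x ∈ B) ↔ ZeroEntropy μ T B := by
  letI := zact T hc
  change Tendsto (fun n : ℕ => ent μ (name (fun x => x ∈ B) (zbox d n)) / ((zbox d n).card : ℝ))
    atTop (𝓝 0) ↔ Tendsto (fun n : ℕ => patternEntropy μ T B n / (n : ℝ) ^ d) atTop (𝓝 0)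
  rw [← tendsto_add_atTop_iff_nat (f := fun n : ℕ => patternEntropy μ T B n / (n : ℝ) ^ d) 1]
  have : (fun n : ℕ => ent μ (name (fun x => x ∈ B) (zbox d n)) / ((zbox d n).card : ℝ)) =
      fun n : ℕ => patternEntropy μ T B (n + 1) / ((n + 1 : ℕ) : ℝ) ^ d := by
    funext n
    rw [ent_zbox T hc B n, zbox_card]
    push_cast
    rfl
  rw [this]

omit [IsProbabilityMeasure μ] in
theorem pinsker_eq (T : Fin d → Equiv.Perm X) (hc : ∀ i j, Commute (T i) (T j)) (w : Fin d → ℝ)
    (hw : Function.Injective (fun g : Fin d → ℤ => ∑ i, (g i : ℝ) * w i)) :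
    letI := zact T hc
    pinsker μ (zframe d w hw) (X := X) = pinskerAlgebra μ T := by
  letI := zact T hc
  unfold pinsker pinskerAlgebra
  congr 1
  ext B
  exact and_congr_right fun _ => zero_iff T hc w hw B

end Pool.Pinsker
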