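import Pool.Agent.Pinsker.Comm
import Pool.Agent.Pinsker.Char

set_option autoImplicit false
set_option warn.classDefReducibility false

/-!
# Module CommChar: the Pinsker factor is characteristic for commuting maps
-/

open MeasureTheory Filter Topology Finset
open scoped ENNReal

namespace Pool.Pinsker

variable {X : Type*} {m0 : MeasurableSpace X} {μ : Measure X} [IsProbabilityMeasure μ] {d m : ℕ}

/-- height polynomial -/
noncomputable def hpoly (w : Fin d → ℝ) (P : Fin d → Fin m → Polynomial ℤ) (j : Fin m) :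
    Polynomial ℝ :=
  ∑ i, Polynomial.C (w i) * (P i j).map (Int.castRingHom ℝ)

lemma hpoly_eval (w : Fin d → ℝ) (P : Fin d → Fin m → Polynomial ℤ) (j : Fin m) (n : ℤ) :
    (hpoly w P j).eval (n : ℝ) = ∑ i, (((P i j).eval n : ℤ) : ℝ) * w i := by
  unfold hpoly
  rw [Polynomial.eval_finset_sum]
  apply Finset.sum_congr rfl
  intro i _
  rw [Polynomial.eval_mul, Polynomial.eval_C, mul_comm]
  congr 1
  exact Polynomial.eval_intCast_map _ _ _

lemma exists_eval_ne (p q : Polynomial ℤ) (h : p ≠ q) : ∃ n : ℤ, p.eval n ≠ q.eval n := by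
  by_contra hcon
  push Not at hcon
  exact h (Polynomial.funext hcon)

lemma hpoly_nonconst (w : Fin d → ℝ)
    (hw : Function.Injective (fun g : Fin d → ℤ => ∑ i, (g i : ℝ) * w i))
    (P : Fin d → Fin m → Polynomial ℤ) (hP0 : ∀ i j, (P i j).eval 0 = 0) (j : Fin m)
    (hne : ∃ i, P i j ≠ 0) : ∃ a b : ℝ, (hpoly w P j).eval a ≠ (hpoly w P j).eval b := by
  obtain ⟨i, hi⟩ := hne
  obtain ⟨n, hn⟩ := exists_eval_ne _ _ hi
  refine ⟨(n : ℝ), ((0 : ℤ) : ℝ), fun h => hn ?_⟩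
  rw [hpoly_eval, hpoly_eval] at h
  have h2 := congrFun (hw (a₁ := fun i => (P i j).eval n) (a₂ := fun i => (P i j).eval 0) h) i
  have h4 : (P i j).eval n = (P i j).eval 0 := h2
  rw [h4, hP0, Polynomial.eval_zero]

lemma hpoly_distinct (w : Fin d → ℝ)
    (hw : Function.Injective (fun g : Fin d → ℤ => ∑ i, (g i : ℝ) * w i))
    (P : Fin d → Fin m → Polynomial ℤ) (hP0 : ∀ i j, (P i j).eval 0 = 0) (j k : Fin m)
    (hne : ∃ i, P i j ≠ P i k) :
    ∃ a b : ℝ, (hpoly w P k - hpoly w P j).eval a ≠ (hpoly w P k - hpoly w P j).eval b := by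
  obtain ⟨i, hi⟩ := hne
  obtain ⟨n, hn⟩ := exists_eval_ne _ _ hi
  refine ⟨(n : ℝ), ((0 : ℤ) : ℝ), fun h => hn ?_⟩
  rw [Polynomial.eval_sub, Polynomial.eval_sub, hpoly_eval, hpoly_eval, hpoly_eval, hpoly_eval] at h
  simp only [hP0, Int.cast_zero, zero_mul, Finset.sum_const_zero, sub_self] at h
  have h3 : ∑ i, (((P i k).eval n : ℤ) : ℝ) * w i = ∑ i, (((P i j).eval n : ℤ) : ℝ) * w i := by
    linarith
  exact (congrFun (hw (a₁ := fun i => (P i k).eval n) (a₂ := fun i => (P i j).eval n) h3) i).symm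

theorem comm_char (T : Fin d → Equiv.Perm X) (hT' : ∀ i, Measurable ⇑(T i).symm)
    (hT : ∀ i, MeasurePreserving (⇑(T i)) μ μ) (hc : ∀ i j, Commute (T i) (T j))
    (P : Fin d → Fin m → Polynomial ℤ) (hP0 : ∀ i j, (P i j).eval 0 = 0)
    (hne : ∀ j, ∃ i, P i j ≠ 0) (hdist : ∀ j k, j ≠ k → ∃ i, P i j ≠ P i k)
    (hmax : ∀ j, MaxProp μ (fun n x => (List.ofFn fun i => T i ^ (P i j).eval n).prod x))
    (f : Fin m → X → ℂ) (hf : ∀ j, MemLp (f j) ∞ μ) :
    ∀ᵐ x ∂μ, Tendsto (fun N : ℕ => (2 * (N : ℂ) + 1)⁻¹ * ∑ n ∈ Finset.Icc (-(N : ℤ)) N,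
      (∏ j, f j ((List.ofFn fun i => T i ^ (P i j).eval n).prod x) -
        ∏ j, (μ[f j|pinskerAlgebra μ T]) ((List.ofFn fun i => T i ^ (P i j).eval n).prod x)))
      atTop (𝓝 0) := by
  obtain ⟨w, hw⟩ := exists_height d
  letI := zact T hc
  have h := char_memLp (μ := μ) (G := Multiplicative (Fin d → ℤ))
    (fun g => zact_mp T hc hT' hT g) (zframe d w hw)
    (fun j n => Multiplicative.ofAdd (fun i => (P i j).eval n)) (hpoly w P)
    (fun j n => (hpoly_eval w P j n).symm) (fun j => hpoly_nonconst w hw P hP0 j (hne j))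
    (fun i j hij => hpoly_distinct w hw P hP0 i j (hdist i j hij)) hmax f hf
  rw [pinsker_eq T hc w hw] at h
  exact h

theorem comm_trivial (T : Fin d → Equiv.Perm X) (hT' : ∀ i, Measurable ⇑(T i).symm)
    (hT : ∀ i, MeasurePreserving (⇑(T i)) μ μ) (hc : ∀ i j, Commute (T i) (T j))
    (P : Fin d → Fin m → Polynomial ℤ) (hP0 : ∀ i j, (P i j).eval 0 = 0)
    (hne : ∀ j, ∃ i, P i j ≠ 0) (hdist : ∀ j k, j ≠ k → ∃ i, P i j ≠ P i k)
    (hmax : ∀ j, MaxProp μ (fun n x => (List.ofFn fun i => T i ^ (P i j).eval n).prod x))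
    (htriv : ∀ B : Set X, MeasurableSet B → ZeroEntropy μ T B → μ B = 0 ∨ μ B = 1)
    (f : Fin m → X → ℂ) (hf : ∀ j, MemLp (f j) ∞ μ) :
    ∀ᵐ x ∂μ, Tendsto (fun N : ℕ => (2 * (N : ℂ) + 1)⁻¹ * ∑ n ∈ Finset.Icc (-(N : ℤ)) N,
      ∏ j, f j ((List.ofFn fun i => T i ^ (P i j).eval n).prod x))
      atTop (𝓝 (∏ j, ∫ x, f j x ∂μ)) := by
  obtain ⟨w, hw⟩ := exists_height d
  letI := zact T hc
  exact char_trivial (μ := μ) (G := Multiplicative (Fin d → ℤ))
    (fun g => zact_mp T hc hT' hT g) (zframe d w hw)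
    (fun j n => Multiplicative.ofAdd (fun i => (P i j).eval n)) (hpoly w P)
    (fun j n => (hpoly_eval w P j n).symm) (fun j => hpoly_nonconst w hw P hP0 j (hne j))
    (fun i j hij => hpoly_distinct w hw P hP0 i j (hdist i j hij)) hmax f hf
    (fun B hB hz => htriv B hB ((zero_iff T hc w hw B).1 hz))

theorem comm_sets (T : Fin d → Equiv.Perm X) (hT' : ∀ i, Measurable ⇑(T i).symm)
    (hT : ∀ i, MeasurePreserving (⇑(T i)) μ μ) (hc : ∀ i j, Commute (T i) (T j)) (B : Set X) :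
    MeasurableSet[pinskerAlgebra μ T] B ↔ (MeasurableSet B ∧ ZeroEntropy μ T B) := by
  obtain ⟨w, hw⟩ := exists_height d
  letI := zact T hc
  have h := measurableSet_pinsker_iff (μ := μ) (zframe d w hw)
    (fun g => zact_mp T hc hT' hT g) B
  rw [pinsker_eq T hc w hw, zero_iff T hc w hw B] at h
  exact h

theorem comm_comap (T : Fin d → Equiv.Perm X) (hT' : ∀ i, Measurable ⇑(T i).symm)
    (hT : ∀ i, MeasurePreserving (⇑(T i)) μ μ) (hc : ∀ i j, Commute (T i) (T j))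
    (g : Fin d → ℤ) :
    (pinskerAlgebra μ T).comap (fun x => (List.ofFn fun i => T i ^ (g i)).prod x) ≤
      pinskerAlgebra μ T := by
  obtain ⟨w, hw⟩ := exists_height d
  letI := zact T hc
  have h := pinsker_comap (μ := μ) (zframe d w hw)
    (fun g => zact_mp T hc hT' hT g) (Multiplicative.ofAdd g)
  rw [pinsker_eq T hc w hw] at h
  exact h

end Pool.Pinsker
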