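import Mathlib

set_option autoImplicit false
set_option warn.classDefReducibility false

/-!
# Commuting maps: explicit definitions of zero entropy and of the Pinsker σ-algebra
-/

open MeasureTheory Filter Topology Finset

namespace Pool.Pinsker

/-- `H_n(B)`: the Shannon entropy of the partition of `X` according to the pattern
`{g ∈ [0,n)^d : T_1^{g_1} ⋯ T_d^{g_d} x ∈ B}`. -/
noncomputable def patternEntropy {X : Type*} [MeasurableSpace X] (μ : Measure X) {d : ℕ}
    (T : Fin d → Equiv.Perm X) (B : Set X) (n : ℕ) : ℝ :=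
  ∑ S ∈ (Fintype.piFinset fun _ : Fin d => Finset.range n).powerset,
    Real.negMulLog (μ.real {x | ∀ g ∈ Fintype.piFinset fun _ : Fin d => Finset.range n,
      ((List.ofFn fun i : Fin d => T i ^ g i).prod x ∈ B ↔ g ∈ S)})

/-- `B` has zero entropy for the `ℤ^d`-action: `H_n(B) / n^d → 0`. -/
def ZeroEntropy {X : Type*} [MeasurableSpace X] (μ : Measure X) {d : ℕ}
    (T : Fin d → Equiv.Perm X) (B : Set X) : Prop :=
  Tendsto (fun n : ℕ => patternEntropy μ T B n / (n : ℝ) ^ d) atTop (𝓝 0)

/-- the σ-algebra generated by the measurable sets of zero entropy -/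
def pinskerAlgebra {X : Type*} [MeasurableSpace X] (μ : Measure X) {d : ℕ}
    (T : Fin d → Equiv.Perm X) : MeasurableSpace X :=
  MeasurableSpace.generateFrom {B | MeasurableSet B ∧ ZeroEntropy μ T B}

end Pool.Pinsker
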