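import Pool.Agent.Pinsker.FinEnt

set_option autoImplicit false
set_option warn.classDefReducibility false

/-!
# Module CondEnt: conditional entropy of finite partitions

All statements follow from module FinEnt (`ent_nonneg`, `ent_comp_inj`, `ent_comp_mp`,
`cent_nonneg`, `cent_mono_cond`, `cent_le_log`), which may be used although it still has sorries.
* `FM.pair`, `FM.pi`, `FM.comp`, `FM.mono`, `fm_comp`: every subset of a finite type is a finite
  union of points.
* `cent_comp_inj_left/right`: `ent_comp_inj` for the injections `(a, b) ↦ (e a, b)` etc.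
* `cent_chain`: unfold; `((f, f'), g)` is a relabelling of `(f, (f', g))`; the terms telescope.
* `cent_cond_factor`: if `g = e ∘ g'` then `x ↦ g' x` is a relabelling (by an injective map
  `b ↦ (b, e b)`) of `x ↦ (g' x, g x)`; so `H(f|g') = H(f|g',g) ≤ H(f|g)` by `cent_mono_cond`.
* `cent_factor`: `H(e∘f|g) ≤ H(f|g)`: `H((e∘f, f)|g) = H(f|g)` (relabelling) and
  `= H(e∘f|g) + H(f|e∘f,g) ≥ H(e∘f|g)`  (`cent_chain` after swapping, `cent_nonneg`).
* `cent_self`: if `f = e ∘ g` then `H(f|g) = 0`: `(f, g)` is a relabelling of `g`.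
* `cent_pair_le`: `cent_chain` and `H(f|f',g) ≤ H(f|g)`.
* `cent_triangle`: `H(f|g) ≤ H((f,h)|g) = H(h|g) + H(f|h,g) ≤ H(h|g) + H(f|h)`.
* `cent_pi_le`: by induction on the finite type `J` (e.g. for a `Finset s ⊆ J`, the map
  `x ↦ (fun j : s => f j x)`, with `Finset.induction_on`), `cent_pair_le` and `cent_factor`;
  or prove first the version for `Fin n` and transport along an equivalence.
* `ent_eq_cent`: with `g` constant, `(f, c)` is a relabelling of `f` and `ent (const) = h(1) = 0`.
* `cent_mp`: `ent_comp_mp` twice.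
-/

open MeasureTheory Filter Topology Finset

namespace Pool.Pinsker

variable {X : Type*} {m0 : MeasurableSpace X} {μ : Measure X} [IsProbabilityMeasure μ]
variable {ι κ l r : Type*} [Fintype ι] [Fintype κ] [Fintype l] [Fintype r]

omit [Fintype κ] in
theorem fm_comp {m' : MeasurableSpace X} {f : X → ι} (hf : FM m' f) (e : ι → κ) :
    FM m' (fun x => e (f x)) := fun s => hf (e ⁻¹' s)

theorem fm_pair {m' : MeasurableSpace X} {f : X → ι} {g : X → κ} (hf : FM m' f) (hg : FM m' g) :
    FM m' (fun x => (f x, g x)) := by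
  intro s
  have h : (fun x => (f x, g x)) ⁻¹' s = ⋃ p ∈ s, (f ⁻¹' {p.1} ∩ g ⁻¹' {p.2}) := by
    ext x
    simp only [Set.mem_preimage, Set.mem_iUnion, Set.mem_inter_iff, Set.mem_singleton_iff,
      exists_prop]
    constructor
    · intro hx
      exact ⟨_, hx, rfl, rfl⟩
    · rintro ⟨p, hp, h1, h2⟩
      rw [h1, h2]
      exact hp
  rw [h]
  exact MeasurableSet.biUnion s.toFinite.countable fun p _ => (hf _).inter (hg _)

theorem fm_pi {m' : MeasurableSpace X} {J : Type*} [Finite J] {f : J → X → ι}
    (hf : ∀ j, FM m' (f j)) : FM m' (fun x => fun j => f j x) := by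
  intro s
  have h : (fun x => fun j => f j x) ⁻¹' s = ⋃ v ∈ s, ⋂ j, f j ⁻¹' {v j} := by
    ext x
    simp only [Set.mem_preimage, Set.mem_iUnion, Set.mem_iInter, Set.mem_singleton_iff,
      exists_prop]
    constructor
    · intro hx
      exact ⟨_, hx, fun j => rfl⟩
    · rintro ⟨v, hv, h1⟩
      have : (fun j => f j x) = v := funext h1
      rw [this]
      exact hv
  rw [h]
  exact MeasurableSet.biUnion s.toFinite.countable fun v _ => MeasurableSet.iInter fun j => hf j _

omit [Fintype ι] in
theorem fm_mono {m' m'' : MeasurableSpace X} (h : m' ≤ m'') {f : X → ι} (hf : FM m' f) :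
    FM m'' f := fun s => h _ (hf s)

omit [Fintype ι] in
theorem fm_measurable_comp {m' m'' : MeasurableSpace X} {f : X → ι} (hf : FM m' f) (T : X → X)
    (hT : m'.comap T ≤ m'') : FM m'' (fun x => f (T x)) :=
  fun s => hT _ ⟨f ⁻¹' s, hf s, rfl⟩

theorem ent_eq_cent (f : X → ι) (hf : FM m0 f) : ent μ f = cent μ f (fun _ : X => ()) := by
  unfold cent
  have h1 := ent_comp_inj (μ := μ) f (fun i : ι => (i, ())) (fun i j h => (Prod.mk.inj h).1)
  have h2 : ent μ (fun _ : X => ()) = 0 := by
    unfold ent
    rw [Fintype.sum_unique]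
    have h3 : (fun _ : X => ()) ⁻¹' {default} = Set.univ := by
      ext x
      simp
    rw [h3, probReal_univ, Real.negMulLog_one]
  rw [h1, h2, sub_zero]

theorem ent_pair (f : X → ι) (g : X → κ) : ent μ (fun x => (f x, g x)) = ent μ g + cent μ f g := by
  unfold cent; ring

theorem cent_comp_inj_left (f : X → ι) (g : X → κ) (e : ι → l) (he : Function.Injective e) :
    cent μ (fun x => e (f x)) g = cent μ f g := by
  unfold cent
  have h1 := ent_comp_inj (μ := μ) (fun x => (f x, g x)) (fun p : ι × κ => (e p.1, p.2))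
    (by
      rintro ⟨a, b⟩ ⟨c, d⟩ h
      simp only [Prod.mk.injEq] at h ⊢
      exact ⟨he h.1, h.2⟩)
  rw [h1]

theorem cent_comp_inj_right (f : X → ι) (g : X → κ) (e : κ → l) (he : Function.Injective e) :
    cent μ f (fun x => e (g x)) = cent μ f g := by
  unfold cent
  have h1 := ent_comp_inj (μ := μ) (fun x => (f x, g x)) (fun p : ι × κ => (p.1, e p.2))
    (by
      rintro ⟨a, b⟩ ⟨c, d⟩ h
      simp only [Prod.mk.injEq] at h ⊢
      exact ⟨h.1, he h.2⟩)
  have h2 := ent_comp_inj (μ := μ) g e he
  rw [h1, h2]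

theorem cent_chain (f : X → ι) (f' : X → κ) (g : X → l) :
    cent μ (fun x => (f x, f' x)) g = cent μ f' g + cent μ f (fun x => (f' x, g x)) := by
  unfold cent
  have h1 := ent_comp_inj (μ := μ) (fun x => ((f x, f' x), g x))
    (fun p : (ι × κ) × l => (p.1.1, (p.1.2, p.2)))
    (by
      rintro ⟨⟨a, b⟩, c⟩ ⟨⟨a', b'⟩, c'⟩ h
      simp only [Prod.mk.injEq] at h ⊢
      exact ⟨⟨h.1, h.2.1⟩, h.2.2⟩)
  rw [← h1]
  ring

theorem cent_cond_factor (f : X → ι) (g : X → κ) (g' : X → l) (hf : FM m0 f) (hg' : FM m0 g')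
    (e : l → κ) (h : ∀ x, g x = e (g' x)) : cent μ f g' ≤ cent μ f g := by
  have hg : FM m0 g := by
    have : g = fun x => e (g' x) := funext h
    rw [this]
    exact fm_comp hg' e
  have h1 := cent_mono_cond (μ := μ) f g' g hf hg' hg
  have h2 := cent_comp_inj_right (μ := μ) f g' (fun b : l => (b, e b))
    (fun i j h => (Prod.mk.inj h).1)
  have h3 : (fun x => (g' x, g x)) = fun x => (fun b : l => (b, e b)) (g' x) := by
    funext x
    simp only [h x]
  rw [h3, h2] at h1
  exact h1

theorem cent_factor (f : X → ι) (f' : X → κ) (g : X → l) (hf : FM m0 f) (hg : FM m0 g)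
    (e : ι → κ) (h : ∀ x, f' x = e (f x)) : cent μ f' g ≤ cent μ f g := by
  have hf' : FM m0 f' := by
    have : f' = fun x => e (f x) := funext h
    rw [this]
    exact fm_comp hf e
  have h1 := cent_chain (μ := μ) f f' g
  have h2 := cent_comp_inj_left (μ := μ) f g (fun i : ι => (i, e i))
    (fun i j h => (Prod.mk.inj h).1)
  have h3 : (fun x => (f x, f' x)) = fun x => (fun i : ι => (i, e i)) (f x) := by
    funext x
    simp only [h x]
  rw [h3, h2] at h1
  have h4 := cent_nonneg (μ := μ) f (fun x => (f' x, g x)) hf (fm_pair hf' hg)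
  linarith

theorem ent_factor (f : X → ι) (f' : X → κ) (hf : FM m0 f)
    (e : ι → κ) (h : ∀ x, f' x = e (f x)) : ent μ f' ≤ ent μ f := by
  have hf' : FM m0 f' := by
    have : f' = fun x => e (f x) := funext h
    rw [this]
    exact fm_comp hf e
  rw [ent_eq_cent f hf, ent_eq_cent f' hf']
  exact cent_factor f f' _ hf (fun s => MeasurableSet.const _) e h

theorem cent_self (f : X → ι) (g : X → κ) (e : κ → ι) (h : ∀ x, f x = e (g x)) :
    cent μ f g = 0 := by
  unfold cent
  have h2 := ent_comp_inj (μ := μ) g (fun i : κ => (e i, i)) (fun i j h => (Prod.mk.inj h).2)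
  have h3 : (fun x => (f x, g x)) = fun x => (fun i : κ => (e i, i)) (g x) := by
    funext x
    simp only [h x]
  rw [h3, h2, sub_self]

theorem cent_le_ent (f : X → ι) (g : X → κ) (hf : FM m0 f) (hg : FM m0 g) :
    cent μ f g ≤ ent μ f := by
  rw [ent_eq_cent f hf]
  exact cent_cond_factor f (fun _ => ()) g hf hg (fun _ => ()) (fun _ => rfl)

theorem cent_pair_le (f : X → ι) (f' : X → κ) (g : X → l) (hf : FM m0 f) (hf' : FM m0 f')
    (hg : FM m0 g) : cent μ (fun x => (f x, f' x)) g ≤ cent μ f g + cent μ f' g := by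
  rw [cent_chain]
  have := cent_mono_cond (μ := μ) f f' g hf hf' hg
  linarith

theorem cent_triangle (f : X → ι) (g : X → κ) (h : X → l) (hf : FM m0 f) (hg : FM m0 g)
    (hh : FM m0 h) : cent μ f g ≤ cent μ f h + cent μ h g := by
  have h1 := cent_factor (μ := μ) (fun x => (f x, h x)) f g (fm_pair hf hh) hg Prod.fst
    (fun _ => rfl)
  rw [cent_chain] at h1
  have h2 := cent_cond_factor (μ := μ) f h (fun x => (h x, g x)) hf (fm_pair hh hg) Prod.fst
    (fun _ => rfl)
  linarith

theorem cent_pi_le {J : Type*} [Fintype J] [DecidableEq J] (f : J → X → ι) (g : X → κ)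
    (hf : ∀ j, FM m0 (f j)) (hg : FM m0 g) :
    cent μ (fun x => fun j => f j x) g ≤ ∑ j, cent μ (f j) g := by
  classical
  let F : Finset J → X → (J → Option ι) := fun s x j => if j ∈ s then some (f j x) else none
  have hF : ∀ s, FM m0 (F s) := by
    intro s
    apply fm_pi (f := fun j x => if j ∈ s then some (f j x) else none)
    intro j
    by_cases hj : j ∈ s
    · simp only [hj, if_true]
      exact fm_comp (hf j) some
    · simp only [hj, if_false]
      exact fun s => MeasurableSet.const _
  have key : ∀ s : Finset J, cent μ (F s) g ≤ ∑ j ∈ s, cent μ (f j) g := by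
    intro s
    induction s using Finset.induction_on with
    | empty =>
      rw [Finset.sum_empty]
      exact (cent_self (F ∅) g (fun _ => fun _ => none) (fun x => by
        funext j
        simp [F])).le
    | insert a s ha ih =>
      rw [Finset.sum_insert ha]
      have h1 := cent_factor (μ := μ) (fun x => (f a x, F s x)) (F (insert a s)) g
        (fm_pair (hf a) (hF s)) hg (fun p => Function.update p.2 a (some p.1)) (fun x => by
          funext j
          by_cases hj : j = a
          · subst hj
            simp [F]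
          · rw [Function.update_of_ne hj]
            simp [F, hj])
      have h2 := cent_pair_le (μ := μ) (f a) (F s) g (hf a) (hF s) hg
      linarith
  have h1 := key Finset.univ
  have h2 := cent_comp_inj_left (μ := μ) (fun x => fun j => f j x) g
    (fun v : J → ι => fun j => some (v j)) (by
      intro v w h
      funext j
      exact Option.some_injective _ (congrFun h j))
  have h3 : F Finset.univ = fun x => (fun v : J → ι => fun j => some (v j)) (fun j => f j x) := by
    funext x j
    simp [F]
  rw [h3, h2] at h1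
  exact h1

theorem ent_pi_le {J : Type*} [Fintype J] [DecidableEq J] (f : J → X → ι)
    (hf : ∀ j, FM m0 (f j)) :
    ent μ (fun x => fun j => f j x) ≤ ∑ j, ent μ (f j) := by
  rw [ent_eq_cent _ (fm_pi hf), Finset.sum_congr rfl (fun j _ => ent_eq_cent (f j) (hf j))]
  exact cent_pi_le f _ hf (fun s => MeasurableSet.const _)

theorem cent_mp (T : X → X) (hT : MeasurePreserving T μ μ) (f : X → ι) (g : X → κ)
    (hf : FM m0 f) (hg : FM m0 g) :
    cent μ (fun x => f (T x)) (fun x => g (T x)) = cent μ f g := by
  unfold cent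
  rw [ent_comp_mp T hT g hg, ent_comp_mp T hT (fun x => (f x, g x)) (fm_pair hf hg)]

end Pool.Pinsker
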