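import Mathlib

set_option autoImplicit false
set_option warn.classDefReducibility false

/-!
# The Pinsker factor is characteristic: definitions

A group `G` acts on a probability space `(X, μ)` by measure preserving maps.  Finite partitions are
maps `α : X → ι` into a finite type.  `ent μ α` is the Shannon entropy, `cent μ α β = H(α | β)`,
`name α B x = (α (g • x))_{g ∈ B}`.
-/

open MeasureTheory Filter Topology Finset

namespace Pool.Pinsker

/-- `f` is measurable from `(X, m')` to the discrete space `ι`. -/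
def FM {X ι : Type*} (m' : MeasurableSpace X) (f : X → ι) : Prop :=
  ∀ s : Set ι, MeasurableSet[m'] (f ⁻¹' s)

/-- Shannon entropy of a map into a finite type. -/
noncomputable def ent {X : Type*} {m0 : MeasurableSpace X} (μ : Measure X) {ι : Type*} [Fintype ι]
    (f : X → ι) : ℝ :=
  ∑ i, Real.negMulLog (μ.real (f ⁻¹' {i}))

/-- conditional entropy `H(f | g) = H(f, g) - H(g)`. -/
noncomputable def cent {X : Type*} {m0 : MeasurableSpace X} (μ : Measure X) {ι κ : Type*}
    [Fintype ι] [Fintype κ] (f : X → ι) (g : X → κ) : ℝ :=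
  ent μ (fun x => (f x, g x)) - ent μ g

/-- the name of `x` on the finite set `B` -/
def name {X G ι : Type*} [Group G] [MulAction G X] (α : X → ι) (B : Finset G) : X → (B → ι) :=
  fun x g => α ((g : G) • x)

/-- the σ-algebra of `x ↦ α (g • x)` -/
def sg {X G ι : Type*} [Group G] [MulAction G X] (α : X → ι) (g : G) : MeasurableSpace X :=
  MeasurableSpace.comap (fun x => α (g • x)) ⊤

/-- the past of `α` for the order `lt` -/
def past {X G ι : Type*} [Group G] [MulAction G X] (α : X → ι) (lt : G → G → Prop) :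
    MeasurableSpace X :=
  ⨆ g ∈ {g : G | lt g 1}, sg α g

/-- everything at height at most `t` -/
def level {X G ι : Type*} [Group G] [MulAction G X] (α : X → ι) (φ : G → ℝ) (t : ℝ) :
    MeasurableSpace X :=
  ⨆ g ∈ {g : G | φ g ≤ t}, sg α g

/-- the remote past of `α` for the height `φ` -/
def tail {X G ι : Type*} [Group G] [MulAction G X] (α : X → ι) (φ : G → ℝ) : MeasurableSpace X :=
  ⨅ t : ℝ, level α φ t

/-- A right invariant total order on `G`, compatible with the height `φ : G → ℝ` (additive), and a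
sequence of finite sets `Λ n` that are asymptotically left invariant. -/
structure Frame (G : Type*) [Group G] [DecidableEq G] where
  lt : G → G → Prop
  irrefl : ∀ a, ¬ lt a a
  trans : ∀ a b c, lt a b → lt b c → lt a c
  total : ∀ a b, lt a b ∨ a = b ∨ lt b a
  mul_right : ∀ a b c, lt a b → lt (a * c) (b * c)
  φ : G → ℝ
  φ_mul : ∀ a b, φ (a * b) = φ a + φ b
  φ_lt : ∀ a b, φ a < φ b → lt a b
  Λ : ℕ → Finset G
  Λ_card : ∀ n, 0 < (Λ n).card
  folner : ∀ F : Finset G, Tendsto (fun n : ℕ =>
    (((Λ n).filter fun g => ¬ (F.image (fun f => f * g) ⊆ Λ n)).card : ℝ) / (Λ n).card)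
    atTop (𝓝 0)

/-- zero entropy (along `Λ`) of a finite partition -/
def Zero {X G : Type*} {m0 : MeasurableSpace X} (μ : Measure X) [Group G] [MulAction G X]
    [DecidableEq G] (𝔉 : Frame G) {ι : Type*} [Fintype ι] (β : X → ι) : Prop :=
  Tendsto (fun n : ℕ => ent μ (name β (𝔉.Λ n)) / ((𝔉.Λ n).card : ℝ)) atTop (𝓝 0)

/-- The Pinsker σ-algebra: generated by the measurable sets of zero entropy. -/
def pinsker {X G : Type*} {m0 : MeasurableSpace X} (μ : Measure X) [Group G] [MulAction G X]
    [DecidableEq G] (𝔉 : Frame G) : MeasurableSpace X :=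
  MeasurableSpace.generateFrom {B | MeasurableSet[m0] B ∧ Zero μ 𝔉 (fun x => x ∈ B)}

/-- A weak maximal inequality, for bounded functions of small integral, for the averages along the
maps `τ n`. -/
def MaxProp {X : Type*} {m0 : MeasurableSpace X} (μ : Measure X) (τ : ℤ → X → X) : Prop :=
  ∀ C ε : ℝ, 0 < ε → ∃ δ : ℝ, 0 < δ ∧ ∀ v : X → ℝ, Measurable[m0] v → (∀ x, 0 ≤ v x) →
    (∀ x, v x ≤ C) → ∫ x, v x ∂μ ≤ δ → ∃ E : Set X, μ E ≤ ENNReal.ofReal ε ∧
      ∀ x, x ∉ E → ∀ N : ℕ, (2 * (N : ℝ) + 1)⁻¹ * ∑ n ∈ Finset.Icc (-(N : ℤ)) N, v (τ n x) ≤ ε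

end Pool.Pinsker
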