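import Pool.Agent.Pinsker.Defs

set_option autoImplicit false
set_option warn.classDefReducibility false

/-!
# Module FinEnt: Shannon entropy of finite partitions

Paper proofs.  Write `h(t) = negMulLog t = -t log t` and `p_i = μ.real (f⁻¹{i})`; these are in
`[0,1]` with sum `1` (for `FM m0 f`; use `measureReal_biUnion_finset`/`sum` over the disjoint
fibres).
* `ent_nonneg`: every summand is `≥ 0` since `0 ≤ p_i ≤ 1` (`Real.negMulLog_nonneg`).  No
  measurability needed.
* `ent_comp_inj`: `Σ_k h(μ((e∘f)⁻¹{k}))`: for `k = e i` the preimage is `f⁻¹{i}` and for `k` outside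
  the range it is empty, and `h(0) = 0`.
* `ent_comp_mp`: `(f ∘ T)⁻¹{i} = T⁻¹(f⁻¹{i})` and `MeasurePreserving.measureReal_preimage` or
  `measure_preimage` with `FM`.
* `cent_nonneg`: `q_j = μ(g = j) = Σ_i p_{ij}` (`p_{ij} = μ(f = i, g = j)`), and
  `h(Σ_i a_i) ≤ Σ_i h(a_i)` for `a_i ≥ 0` with `Σ a_i ≤ 1` [`-a_i log(Σ a) ≤ -a_i log a_i` because
  `a_i ≤ Σ a`; for `a_i = 0` both are zero].
* `cent_mono_cond` (strong subadditivity) `H(f|g,h) ≤ H(f|h)`: let `p_{ijk} = μ(f=i,g=j,h=k)`,
  `p_{ik}`, `p_{jk}`, `p_k` the marginals.  Then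
  `H(f|g,h) - H(f|h) = Σ_{ijk} p_{ijk} log (p_{jk} p_{ik} / (p_{ijk} p_k))`
  (terms with `p_{ijk} = 0` are zero; if `p_{ijk} > 0` all the marginals are `> 0`), and by
  `log t ≤ t - 1` this is at most `Σ_{ijk : p_{ijk} > 0} (p_{jk} p_{ik}/p_k - p_{ijk})
  ≤ Σ_{ijk} p_{jk} p_{ik}/p_k - 1 ≤ Σ_k p_k - 1 = 0`.
  (It may be easiest first to prove the purely numerical inequality for
  `p : ι → κ → λ → ℝ`, `0 ≤ p`.)
* `cent_le_log`: `H(f|g) ≤ H(f) ≤ log |ι|`: the first is `cent_mono_cond` with `h` constant, or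
  directly `H(f,g) ≤ H(f) + H(g)`; the second by concavity of `negMulLog`
  (`Real.concaveOn_negMulLog`, Jensen) or by `log t ≤ t - 1`:
  `H(f) - log |ι| = Σ p_i log (1/(|ι| p_i)) ≤ Σ_{p_i>0} (1/|ι| - p_i) ≤ 0`.
-/

open MeasureTheory Filter Topology Finset

namespace Pool.Pinsker

variable {X : Type*} {m0 : MeasurableSpace X} {μ : Measure X} [IsProbabilityMeasure μ]
variable {ι κ l : Type*} [Fintype ι] [Fintype κ] [Fintype l]

/-! ### Numerical inequalities -/

theorem fe_num_joint {ι : Type*} [Fintype ι] (a : ι → ℝ) (ha : ∀ i, 0 ≤ a i) :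
    Real.negMulLog (∑ i, a i) ≤ ∑ i, Real.negMulLog (a i) := by
  have h1 : Real.negMulLog (∑ i, a i) = ∑ i, -(a i * Real.log (∑ i, a i)) := by
    rw [Real.negMulLog, Finset.sum_neg_distrib, ← Finset.sum_mul]
    ring
  rw [h1]
  refine Finset.sum_le_sum fun i _ => ?_
  rw [Real.negMulLog]
  rcases (ha i).eq_or_lt with h | h
  · rw [← h]; simp
  · have h2 : a i ≤ ∑ i, a i := Finset.single_le_sum (fun j _ => ha j) (Finset.mem_univ i)
    have h3 : Real.log (a i) ≤ Real.log (∑ i, a i) := Real.log_le_log h h2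
    nlinarith

theorem fe_num_term {a r c A : ℝ} (ha : 0 ≤ a) (hr : a ≤ r) (hc : a ≤ c) (hA : 0 < A) :
    Real.negMulLog a + a * Real.log r + a * Real.log c - a * Real.log A ≤ r * c / A - a := by
  rcases ha.eq_or_lt with h | h
  · subst h
    have : 0 ≤ r * c / A := by positivity
    simpa using this
  · have hr0 : 0 < r := h.trans_le hr
    have hc0 : 0 < c := h.trans_le hc
    have h1 : Real.negMulLog a + a * Real.log r + a * Real.log c - a * Real.log A =
        a * Real.log (r * c / (a * A)) := by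
      rw [Real.log_div (mul_pos hr0 hc0).ne' (mul_pos h hA).ne', Real.log_mul hr0.ne' hc0.ne',
        Real.log_mul h.ne' hA.ne', Real.negMulLog]
      ring
    have h2 := Real.log_le_sub_one_of_pos (div_pos (mul_pos hr0 hc0) (mul_pos h hA))
    have h3 : a * (r * c / (a * A) - 1) = r * c / A - a := by
      field_simp
    rw [h1, ← h3]
    gcongr

theorem fe_num_matrix {ι κ : Type*} [Fintype ι] [Fintype κ] (a : ι → κ → ℝ)
    (ha : ∀ i j, 0 ≤ a i j) :
    ∑ i, ∑ j, Real.negMulLog (a i j) + Real.negMulLog (∑ i, ∑ j, a i j) ≤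
      ∑ i, Real.negMulLog (∑ j, a i j) + ∑ j, Real.negMulLog (∑ i, a i j) := by
  set r : ι → ℝ := fun i => ∑ j, a i j with hr
  set c : κ → ℝ := fun j => ∑ i, a i j with hc
  set A : ℝ := ∑ i, ∑ j, a i j with hA
  have hr0 : ∀ i, 0 ≤ r i := fun i => Finset.sum_nonneg fun j _ => ha i j
  have hA0 : 0 ≤ A := Finset.sum_nonneg fun i _ => hr0 i
  have hAr : ∑ i, r i = A := rfl
  have hAc : ∑ j, c j = A := by rw [hA, Finset.sum_comm]
  rcases hA0.eq_or_lt with h | h
  · have h1 : ∀ i, r i = 0 := by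
      intro i
      have := (Finset.sum_eq_zero_iff_of_nonneg (fun i _ => hr0 i)).mp (hAr.trans h.symm)
      exact this i (Finset.mem_univ i)
    have h2 : ∀ i j, a i j = 0 := by
      intro i j
      have := (Finset.sum_eq_zero_iff_of_nonneg (fun j _ => ha i j)).mp (h1 i)
      exact this j (Finset.mem_univ j)
    rw [← h]
    simp [hr, hc, h2]
  · have key : ∀ i j, Real.negMulLog (a i j) + a i j * Real.log (r i) + a i j * Real.log (c j) -
        a i j * Real.log A ≤ r i * c j / A - a i j := fun i j =>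
      fe_num_term (ha i j) (Finset.single_le_sum (f := fun j => a i j) (fun j _ => ha i j)
        (Finset.mem_univ j)) (Finset.single_le_sum (f := fun i => a i j) (fun i _ => ha i j)
        (Finset.mem_univ i)) h
    have hsum := Finset.sum_le_sum fun i (_ : i ∈ Finset.univ) =>
      Finset.sum_le_sum fun j (_ : j ∈ Finset.univ) => key i j
    simp only [Finset.sum_sub_distrib, Finset.sum_add_distrib] at hsum
    have e1 : ∑ i, ∑ j, a i j * Real.log (r i) = -∑ i, Real.negMulLog (r i) := by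
      rw [← Finset.sum_neg_distrib]
      refine Finset.sum_congr rfl fun i _ => ?_
      rw [← Finset.sum_mul, Real.negMulLog]
      ring
    have e2 : ∑ i, ∑ j, a i j * Real.log (c j) = -∑ j, Real.negMulLog (c j) := by
      rw [Finset.sum_comm, ← Finset.sum_neg_distrib]
      refine Finset.sum_congr rfl fun j _ => ?_
      rw [← Finset.sum_mul, Real.negMulLog]
      ring
    have e3 : ∑ i, ∑ j, a i j * Real.log A = -Real.negMulLog A := by
      rw [Real.negMulLog]
      simp only [← Finset.sum_mul]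
      rw [← hA]
      ring
    have e4 : ∑ i, ∑ j, r i * c j / A = A := by
      have : ∀ i, ∑ j, r i * c j / A = r i := by
        intro i
        rw [← Finset.sum_div, ← Finset.mul_sum, hAc]
        field_simp
      simp only [this, hAr]
    rw [e1, e2, e3, e4] at hsum
    have e5 : ∑ i, ∑ j, a i j = A := rfl
    rw [e5] at hsum
    linarith

theorem fe_num_log {ι : Type*} [Fintype ι] (a : ι → ℝ) (ha : ∀ i, 0 ≤ a i) :
    ∑ i, Real.negMulLog (a i) - Real.negMulLog (∑ i, a i) ≤
      (∑ i, a i) * Real.log (Fintype.card ι) := by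
  rcases isEmpty_or_nonempty ι with hι | hι
  · simp
  set S := ∑ i, a i with hS
  have hS0 : 0 ≤ S := Finset.sum_nonneg fun i _ => ha i
  have hn : (0 : ℝ) < Fintype.card ι := by exact_mod_cast Fintype.card_pos
  have key : ∀ i, Real.negMulLog (a i) + a i * Real.log S - a i * Real.log (Fintype.card ι) ≤
      S / Fintype.card ι - a i := by
    intro i
    rcases (ha i).eq_or_lt with h | h
    · rw [← h]
      have : 0 ≤ S / Fintype.card ι := by positivity
      simpa using this
    · have hSi : a i ≤ S := Finset.single_le_sum (fun j _ => ha j) (Finset.mem_univ i)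
      have hSp : 0 < S := h.trans_le hSi
      have h1 : Real.negMulLog (a i) + a i * Real.log S - a i * Real.log (Fintype.card ι) =
          a i * Real.log (S / (a i * Fintype.card ι)) := by
        rw [Real.log_div hSp.ne' (mul_pos h hn).ne', Real.log_mul h.ne' hn.ne', Real.negMulLog]
        ring
      have h2 := Real.log_le_sub_one_of_pos (div_pos hSp (mul_pos h hn))
      have h3 : a i * (S / (a i * Fintype.card ι) - 1) = S / Fintype.card ι - a i := by
        field_simp
      rw [h1, ← h3]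
      gcongr
  have hsum := Finset.sum_le_sum fun i (_ : i ∈ Finset.univ) => key i
  simp only [Finset.sum_sub_distrib, Finset.sum_add_distrib, ← Finset.sum_mul] at hsum
  rw [← hS, Finset.sum_const, Finset.card_univ, nsmul_eq_mul] at hsum
  have e4 : (Fintype.card ι : ℝ) * (S / Fintype.card ι) = S := by field_simp
  rw [e4] at hsum
  rw [Real.negMulLog]
  linarith

/-! ### Marginals -/

omit [IsProbabilityMeasure μ] [Fintype ι] [Fintype κ] in
theorem FM.fe_singleton {f : X → ι} (hf : FM m0 f) (i : ι) : MeasurableSet (f ⁻¹' {i}) := hf {i}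

theorem FM.fe_pair {f : X → ι} {g : X → κ} (hf : FM m0 f) (hg : FM m0 g) :
    FM m0 (fun x => (f x, g x)) := by
  intro s
  have h1 : (fun x => (f x, g x)) ⁻¹' s = ⋃ p ∈ s, (f ⁻¹' {p.1} ∩ g ⁻¹' {p.2}) := by
    ext x
    simp only [Set.mem_preimage, Set.mem_iUnion, Set.mem_inter_iff, Set.mem_singleton_iff,
      exists_prop, Prod.exists]
    constructor
    · intro h
      exact ⟨f x, g x, h, rfl, rfl⟩
    · rintro ⟨i, j, h, hi, hj⟩
      rw [hi, hj]
      exact h
  rw [h1]
  exact MeasurableSet.biUnion s.to_countable fun p _ => (hf _).inter (hg _)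

theorem fe_marg (f : X → ι) (hf : FM m0 f) {s : Set X} (hs : MeasurableSet s) :
    μ.real s = ∑ i, μ.real (f ⁻¹' {i} ∩ s) := by
  have h1 : s = ⋃ i ∈ (Finset.univ : Finset ι), (f ⁻¹' {i} ∩ s) := by
    ext x
    simp
  conv_lhs => rw [h1]
  rw [measureReal_biUnion_finset]
  · intro i _ j _ hij
    refine Set.disjoint_left.mpr fun x hx hx' => hij ?_
    exact hx.1.symm.trans hx'.1
  · intro i _
    exact (hf _).inter hs

theorem fe_ent_pair (f : X → ι) (g : X → κ) :
    ent μ (fun x => (f x, g x)) = ∑ i, ∑ j, Real.negMulLog (μ.real (f ⁻¹' {i} ∩ g ⁻¹' {j})) := by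
  rw [ent, Fintype.sum_prod_type]
  refine Finset.sum_congr rfl fun i _ => Finset.sum_congr rfl fun j _ => ?_
  congr 2
  ext x
  simp [Prod.ext_iff]

theorem ent_nonneg (f : X → ι) : 0 ≤ ent μ f := by
  exact Finset.sum_nonneg fun i _ => Real.negMulLog_nonneg measureReal_nonneg measureReal_le_one

theorem ent_comp_inj (f : X → ι) (e : ι → κ) (he : Function.Injective e) :
    ent μ (fun x => e (f x)) = ent μ f := by
  unfold ent
  symm
  refine Fintype.sum_of_injective e he _ _ (fun k hk => ?_) (fun i => ?_)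
  · have h1 : (fun x => e (f x)) ⁻¹' {k} = ∅ := by
      ext x
      simp only [Set.mem_preimage, Set.mem_singleton_iff, Set.mem_empty_iff_false, iff_false]
      exact fun h => hk ⟨f x, h⟩
    rw [h1, measureReal_empty, Real.negMulLog_zero]
  · have h1 : (fun x => e (f x)) ⁻¹' {e i} = f ⁻¹' {i} := by
      ext x
      simp only [Set.mem_preimage, Set.mem_singleton_iff]
      exact he.eq_iff
    rw [h1]

theorem ent_comp_mp (T : X → X) (hT : MeasurePreserving T μ μ) (f : X → ι) (hf : FM m0 f) :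
    ent μ (fun x => f (T x)) = ent μ f := by
  unfold ent
  refine Finset.sum_congr rfl fun i _ => ?_
  congr 1
  exact hT.measureReal_preimage (hf {i}).nullMeasurableSet

theorem cent_nonneg (f : X → ι) (g : X → κ) (hf : FM m0 f) (hg : FM m0 g) :
    0 ≤ cent μ f g := by
  rw [cent, fe_ent_pair, sub_nonneg, ent, Finset.sum_comm]
  refine Finset.sum_le_sum fun j _ => ?_
  rw [fe_marg f hf (hg {j})]
  exact fe_num_joint _ fun i => measureReal_nonneg

/-- strong subadditivity -/
theorem cent_mono_cond (f : X → ι) (g : X → κ) (h : X → l) (hf : FM m0 f) (hg : FM m0 g)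
    (hh : FM m0 h) : cent μ f (fun x => (g x, h x)) ≤ cent μ f h := by
  have hgh := FM.fe_pair hg hh
  have h1 : ent μ (fun x => (f x, (g x, h x))) =
      ∑ k, ∑ i, ∑ j, Real.negMulLog (μ.real (f ⁻¹' {i} ∩ (g ⁻¹' {j} ∩ h ⁻¹' {k}))) := by
    rw [fe_ent_pair f (fun x => (g x, h x))]
    have : ∀ i, ∑ p : κ × l, Real.negMulLog (μ.real (f ⁻¹' {i} ∩ (fun x => (g x, h x)) ⁻¹' {p})) =
        ∑ k, ∑ j, Real.negMulLog (μ.real (f ⁻¹' {i} ∩ (g ⁻¹' {j} ∩ h ⁻¹' {k}))) := by
      intro i
      rw [Fintype.sum_prod_type, Finset.sum_comm]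
      refine Finset.sum_congr rfl fun k _ => Finset.sum_congr rfl fun j _ => ?_
      congr 2
      ext x
      simp [Prod.ext_iff]
    simp only [this]
    rw [Finset.sum_comm]
  have h2 : ent μ (fun x => (g x, h x)) =
      ∑ k, ∑ j, Real.negMulLog (∑ i, μ.real (f ⁻¹' {i} ∩ (g ⁻¹' {j} ∩ h ⁻¹' {k}))) := by
    rw [fe_ent_pair, Finset.sum_comm]
    refine Finset.sum_congr rfl fun k _ => Finset.sum_congr rfl fun j _ => ?_
    rw [fe_marg f hf ((hg {j}).inter (hh {k}))]
  have h3 : ent μ (fun x => (f x, h x)) =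
      ∑ k, ∑ i, Real.negMulLog (∑ j, μ.real (f ⁻¹' {i} ∩ (g ⁻¹' {j} ∩ h ⁻¹' {k}))) := by
    rw [fe_ent_pair, Finset.sum_comm]
    refine Finset.sum_congr rfl fun k _ => Finset.sum_congr rfl fun i _ => ?_
    rw [fe_marg g hg ((hf {i}).inter (hh {k}))]
    congr 1
    refine Finset.sum_congr rfl fun j _ => ?_
    congr 1
    ext x
    simp only [Set.mem_inter_iff]
    tauto
  have h4 : ent μ h =
      ∑ k, Real.negMulLog (∑ i, ∑ j, μ.real (f ⁻¹' {i} ∩ (g ⁻¹' {j} ∩ h ⁻¹' {k}))) := by
    unfold ent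
    refine Finset.sum_congr rfl fun k _ => ?_
    rw [fe_marg f hf (hh {k})]
    congr 1
    refine Finset.sum_congr rfl fun i _ => ?_
    rw [fe_marg g hg ((hf {i}).inter (hh {k}))]
    refine Finset.sum_congr rfl fun j _ => ?_
    congr 1
    ext x
    simp only [Set.mem_inter_iff]
    tauto
  rw [cent, cent, h1, h2, h3, h4]
  have h5 := Finset.sum_le_sum fun k (_ : k ∈ Finset.univ) =>
    fe_num_matrix (fun i j => μ.real (f ⁻¹' {i} ∩ (g ⁻¹' {j} ∩ h ⁻¹' {k})))
      fun i j => measureReal_nonneg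
  simp only [Finset.sum_add_distrib] at h5
  linarith

theorem cent_le_log (f : X → ι) (g : X → κ) (hf : FM m0 f) (hg : FM m0 g) :
    cent μ f g ≤ Real.log (Fintype.card ι) := by
  have h1 : ∑ j, μ.real (g ⁻¹' {j}) = 1 := by
    have := fe_marg (μ := μ) g hg MeasurableSet.univ
    simp only [Set.inter_univ] at this
    rw [← this]
    simp
  have h2 := Finset.sum_le_sum fun j (_ : j ∈ Finset.univ) =>
    fe_num_log (fun i => μ.real (f ⁻¹' {i} ∩ g ⁻¹' {j})) fun i => measureReal_nonneg
  rw [Finset.sum_sub_distrib, ← Finset.sum_mul] at h2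
  have h3 : ∀ j, ∑ i, μ.real (f ⁻¹' {i} ∩ g ⁻¹' {j}) = μ.real (g ⁻¹' {j}) :=
    fun j => (fe_marg f hf (hg {j})).symm
  simp only [h3] at h2
  rw [h1, one_mul] at h2
  rw [cent, fe_ent_pair, Finset.sum_comm, ent]
  exact h2

end Pool.Pinsker
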