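import Pool.Agent.Pinsker.CommChar

set_option autoImplicit false
set_option warn.classDefReducibility false

/-!
# Module Reduce: for commuting maps the problem reduces to zero entropy

Paper proof of `merge`.  Let `R` be the set of `j` with `P_j ≠ 0` (some `P i j ≠ 0`) such that no
`k < j` has `P_k = P_j`; `m' = |R|`, `s` an enumeration of `R` (`Finset.orderEmbOfFin` or
`R.equivFin.symm`), `A j = {k | ∀ i, P i k = P i (s j)}`, `Z = {k | ∀ i, P i k = 0}`.  The sets
`Z`, `A j` form a partition of `Fin m` (every `k` with `P_k ≠ 0` lies in exactly one `A j`, namely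
for the least `k' ` with `P_{k'} = P_k`), hence the product formula
(`Finset.prod_fiberwise`, or `Finset.prod_biUnion` for the disjoint union).

Paper proof of `reduce`.  Let `X, μ, T, f` be given, `Π = pinskerAlgebra μ T ≤ m0` (`comm_sets`
gives that `Π`-measurable sets are measurable).  Let `s, A, Z` be as in `merge`,
`f'_j = ∏_{k ∈ A j} f_k` (in `L^∞`: `MemLp` of finite products of bounded functions, or first
replace `f_k` by bounded functions), `P' i j = P i (s j)`.  For all `x`, `n`
`∏_k f_k (g_k(n) x) = (∏_{k∈Z} f_k x) ∏_j f'_j (g_{s j}(n) x)`, because `g_k(n) = 1` for `k ∈ Z`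
and `g_k(n) = g_{s j}(n)` for `k ∈ A j`.  So it suffices that
`A'_N(x) = (2N+1)^{-1} Σ_n ∏_j f'_j(g_{s j}(n) x)` converges a.e.  By `comm_char` for `P'`, `f'`
the difference of `A'_N` and `(2N+1)^{-1} Σ_n ∏_j E(f'_j|Π)(g_{s j}(n) x)` tends to `0` a.e.
Let `e_j` be bounded `Π`-measurable versions of `E(f'_j|Π)` (`Pool.Lib.RM.exists_version` for
bounded measurable `f'_j`, or truncate `μ[f'_j|Π]`).
Apply the hypothesis (zero entropy case) to the probability space `(X, Π, ν)`,
`ν = μ.trim (hΠ : Π ≤ m0)`, the same maps `T`, and the functions `F_k = e_j` if `k = s j`,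
`F_k = 1` otherwise.  Checks:
* `T i`, `(T i).symm` are measurable `Π → Π`: `comm_comap` with `g = Pi.single i (± 1)` (the
  product is `T i ^ (±1)`), or directly `comm_comap` and a computation of the product
  (`List.prod_ofFn`; all factors but one are `1`; lemma `prod_single`);
* measure preserving for `ν`: for `B` in `Π`, `ν(T⁻¹B) = μ(T⁻¹ B) = μ B = ν B`
  (`trim_measurableSet_eq`);
* zero entropy: for `B` in `Π` all the sets in `patternEntropy` are in `Π`, so
  `patternEntropy ν T B n = patternEntropy μ T B n`, and `ZeroEntropy μ T B` by `comm_sets`;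
* a property that holds `ν`-a.e. holds `μ`-a.e. (`ae_of_ae_trim`).
-/

open MeasureTheory Filter Topology Finset
open scoped ENNReal

namespace Pool.Pinsker

/-- Q1 for all systems of `d` commuting maps and the given polynomials. -/
def Conv (d m : ℕ) (P : Fin d → Fin m → Polynomial ℤ) : Prop :=
  ∀ (X : Type) [MeasurableSpace X] (μ : Measure X) [IsProbabilityMeasure μ]
    (T : Fin d → Equiv.Perm X), (∀ i, Measurable ⇑(T i).symm) →
    (∀ i, MeasurePreserving (⇑(T i)) μ μ) → (∀ i j, Commute (T i) (T j)) →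
    ∀ f : Fin m → X → ℂ, (∀ j, MemLp (f j) ∞ μ) →
    ∀ᵐ x ∂μ, ∃ L : ℂ, Tendsto (fun N : ℕ => (2 * (N : ℂ) + 1)⁻¹ *
      ∑ n ∈ Finset.Icc (-(N : ℤ)) N,
        ∏ j, f j ((List.ofFn fun i => T i ^ (P i j).eval n).prod x)) atTop (𝓝 L)

/-- Q1 for all zero entropy systems of `d` commuting maps and the given polynomials. -/
def ConvZero (d m : ℕ) (P : Fin d → Fin m → Polynomial ℤ) : Prop :=
  ∀ (X : Type) [MeasurableSpace X] (μ : Measure X) [IsProbabilityMeasure μ]
    (T : Fin d → Equiv.Perm X), (∀ i, Measurable ⇑(T i).symm) →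
    (∀ i, MeasurePreserving (⇑(T i)) μ μ) → (∀ i j, Commute (T i) (T j)) →
    (∀ B : Set X, MeasurableSet B → ZeroEntropy μ T B) →
    ∀ f : Fin m → X → ℂ, (∀ j, MemLp (f j) ∞ μ) →
    ∀ᵐ x ∂μ, ∃ L : ℂ, Tendsto (fun N : ℕ => (2 * (N : ℂ) + 1)⁻¹ *
      ∑ n ∈ Finset.Icc (-(N : ℤ)) N,
        ∏ j, f j ((List.ofFn fun i => T i ^ (P i j).eval n).prod x)) atTop (𝓝 L)

theorem merge {d m : ℕ} (P : Fin d → Fin m → Polynomial ℤ) :
    ∃ (m' : ℕ) (s : Fin m' → Fin m) (A : Fin m' → Finset (Fin m)) (Z : Finset (Fin m)),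
      Function.Injective s ∧ (∀ j, ∃ i, P i (s j) ≠ 0) ∧
      (∀ j k, j ≠ k → ∃ i, P i (s j) ≠ P i (s k)) ∧ (∀ j, ∀ k ∈ A j, ∀ i, P i k = P i (s j)) ∧
      (∀ k ∈ Z, ∀ i, P i k = 0) ∧
      ∀ a : Fin m → ℂ, ∏ k, a k = (∏ k ∈ Z, a k) * ∏ j, ∏ k ∈ A j, a k := by
  classical
  set q : Fin m → (Fin d → Polynomial ℤ) := fun k i => P i k with hq
  set V : Finset (Fin d → Polynomial ℤ) := (Finset.univ.image q).erase 0 with hV
  set e := V.equivFin.symm with he
  have hVm : ∀ v ∈ V, v ≠ 0 ∧ ∃ k : Fin m, q k = v := by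
    intro v hv
    rw [hV, Finset.mem_erase, Finset.mem_image] at hv
    obtain ⟨h0, k, -, hk⟩ := hv
    exact ⟨h0, k, hk⟩
  have hex : ∀ j : Fin V.card, ∃ k : Fin m, q k = (e j : Fin d → Polynomial ℤ) :=
    fun j => (hVm _ (e j).2).2
  choose s hs using hex
  refine ⟨V.card, s, fun j => Finset.univ.filter fun k => q k = (e j : Fin d → Polynomial ℤ),
    Finset.univ.filter fun k => q k = 0, ?_, ?_, ?_, ?_, ?_, ?_⟩
  · intro j k hjk
    have h1 := hs j
    rw [hjk, hs k] at h1
    exact (e.injective (Subtype.ext h1)).symm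
  · intro j
    have h1 : (e j : Fin d → Polynomial ℤ) ≠ 0 := (hVm _ (e j).2).1
    rw [← hs j] at h1
    by_contra hcon
    push Not at hcon
    exact h1 (funext hcon)
  · intro j k hjk
    by_contra hcon
    push Not at hcon
    have h1 : q (s j) = q (s k) := funext hcon
    rw [hs, hs] at h1
    exact hjk (e.injective (Subtype.ext h1))
  · intro j k hk i
    rw [Finset.mem_filter] at hk
    have h1 : q k = q (s j) := hk.2.trans (hs j).symm
    exact congrFun h1 i
  · intro k hk i
    rw [Finset.mem_filter] at hk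
    exact congrFun hk.2 i
  · intro a
    have h1 : ∀ k ∈ (Finset.univ : Finset (Fin m)), q k ∈ insert 0 V := by
      intro k _
      rw [hV, Finset.mem_insert, Finset.mem_erase, Finset.mem_image]
      by_cases h : q k = 0
      · exact Or.inl h
      · exact Or.inr ⟨h, k, Finset.mem_univ _, rfl⟩
    have h2 := Finset.prod_fiberwise_of_maps_to h1 a
    rw [← h2, Finset.prod_insert (by rw [hV]; exact Finset.notMem_erase 0 _)]
    congr 1
    rw [← Finset.prod_coe_sort V
      (fun v => ∏ k ∈ Finset.univ.filter (fun k => q k = v), a k), ← e.prod_comp]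

lemma prod_ofFn_single {M : Type*} [Monoid M] : ∀ {d : ℕ} (i : Fin d) (f : Fin d → M),
    (∀ j, j ≠ i → f j = 1) → (List.ofFn f).prod = f i
  | 0, i, _, _ => i.elim0
  | d + 1, i, f, h => by
    rw [List.ofFn_succ, List.prod_cons]
    induction i using Fin.cases with
    | zero =>
      have h1 : (List.ofFn fun j : Fin d => f j.succ).prod = 1 := by
        apply List.prod_eq_one
        intro x hx
        rw [List.mem_ofFn] at hx
        obtain ⟨j, rfl⟩ := hx
        exact h _ (Fin.succ_ne_zero j)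
      rw [h1, mul_one]
    | succ i =>
      rw [h 0 (Fin.succ_ne_zero i).symm, one_mul]
      exact prod_ofFn_single i (fun j => f j.succ) fun j hj =>
        h _ (fun h' => hj (Fin.succ_injective _ h'))

lemma memLp_prod {X : Type*} {m0 : MeasurableSpace X} {μ : Measure X} [IsProbabilityMeasure μ]
    {m : ℕ} (f : Fin m → X → ℂ) (hf : ∀ j, MemLp (f j) ∞ μ) (A : Finset (Fin m)) :
    MemLp (fun x => ∏ k ∈ A, f k x) ∞ μ := by
  classical
  induction A using Finset.induction_on with
  | empty => simpa using (memLp_const (1 : ℂ))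
  | insert a A ha ih =>
    have h1 : (fun x => ∏ k ∈ insert a A, f k x) = fun x => f a x * ∏ k ∈ A, f k x := by
      funext x
      rw [Finset.prod_insert ha]
    rw [h1]
    exact MemLp.mul (p := ∞) (q := ∞) (r := ∞) ih (hf a)

lemma memLp_condExp_top {X : Type*} {m0 : MeasurableSpace X} {μ : Measure X}
    [IsProbabilityMeasure μ] (m' : MeasurableSpace X) (hm : m' ≤ m0) (f : X → ℂ)
    (hf : MemLp f ∞ μ) : MemLp (μ[f|m']) ∞ μ := by
  set C : ℝ := (eLpNorm f ∞ μ).toReal with hC
  have hfC : ∀ᵐ x ∂μ, f x ∈ Metric.closedBall (0 : ℂ) C := by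
    have h2 := ae_le_eLpNormEssSup (f := f) (μ := μ)
    filter_upwards [h2] with x hx
    rw [← eLpNorm_exponent_top] at hx
    have h3 := ENNReal.toReal_mono hf.eLpNorm_ne_top hx
    have h5 : ‖f x‖ ≤ C := by
      rw [hC]
      simpa using h3
    simpa using h5
  have h1 : ∀ᵐ x ∂μ, μ[f|m'] x ∈ Metric.closedBall (0 : ℂ) C :=
    Convex.condExp_mem hm (hf.integrable (by simp)) Metric.isClosed_closedBall
      (convex_closedBall _ _) hfC
  refine memLp_top_of_bound
    (stronglyMeasurable_condExp.mono hm).aestronglyMeasurable C ?_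
  filter_upwards [h1] with x hx
  simpa using hx

/-- the zero entropy factor -/
lemma trim_mp {X : Type*} {m0 : MeasurableSpace X} {μ : Measure X} (m' : MeasurableSpace X)
    (hm : m' ≤ m0) (τ : X → X) (hτ : @MeasurePreserving X X m0 m0 τ μ μ)
    (hτ' : @Measurable X X m' m' τ) :
    @MeasurePreserving X X m' m' τ (μ.trim hm) (μ.trim hm) := by
  refine @MeasurePreserving.mk X X m' m' τ (μ.trim hm) (μ.trim hm) hτ' ?_
  refine @Measure.ext X m' _ _ ?_
  intro B hB
  rw [@Measure.map_apply X X m' m' (μ.trim hm) τ hτ' B hB, trim_measurableSet_eq hm hB,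
    trim_measurableSet_eq hm (hτ' hB)]
  exact @MeasurePreserving.measure_preimage X X m0 m0 μ μ τ hτ B
    (@MeasurableSet.nullMeasurableSet X m0 μ B (hm _ hB))

lemma patternEntropy_trim {X : Type*} {m0 : MeasurableSpace X} {μ : Measure X}
    (m' : MeasurableSpace X) (hm : m' ≤ m0) {d : ℕ} (T : Fin d → Equiv.Perm X)
    (hT : ∀ g : Fin d → ℤ, @Measurable X X m' m' fun x => (List.ofFn fun i => T i ^ (g i)).prod x)
    (B : Set X) (hB : MeasurableSet[m'] B) (n : ℕ) :
    @patternEntropy X m' (μ.trim hm) d T B n = @patternEntropy X m0 μ d T B n := by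
  unfold patternEntropy
  apply Finset.sum_congr rfl
  intro S _
  congr 1
  have hset : MeasurableSet[m'] {x | ∀ g ∈ Fintype.piFinset fun _ : Fin d => Finset.range n,
      ((List.ofFn fun i : Fin d => T i ^ g i).prod x ∈ B ↔ g ∈ S)} := by
    have h1 : {x | ∀ g ∈ Fintype.piFinset fun _ : Fin d => Finset.range n,
        ((List.ofFn fun i : Fin d => T i ^ g i).prod x ∈ B ↔ g ∈ S)} =
        ⋂ g ∈ Fintype.piFinset fun _ : Fin d => Finset.range n,
          {x | ((List.ofFn fun i : Fin d => T i ^ g i).prod x ∈ B ↔ g ∈ S)} := by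
      ext x
      simp only [Set.mem_ofPred_eq, Set.mem_iInter]
    rw [h1]
    refine @Finset.measurableSet_biInter _ _ m' _ _ ?_
    intro g _
    have h2 : @Measurable X X m' m' fun x => (List.ofFn fun i : Fin d => T i ^ g i).prod x := by
      have h3 := hT (fun i => (g i : ℤ))
      simpa only [zpow_natCast] using h3
    have h4 : MeasurableSet[m'] {x | (List.ofFn fun i : Fin d => T i ^ g i).prod x ∈ B} := h2 hB
    by_cases hg : g ∈ S
    · simp only [hg, iff_true]
      exact h4
    · simp only [hg, iff_false]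
      exact @MeasurableSet.compl X _ m' h4
  rw [Measure.real, Measure.real, trim_measurableSet_eq hm hset]

theorem reduce (d m : ℕ) (P : Fin d → Fin m → Polynomial ℤ) (hP0 : ∀ i j, (P i j).eval 0 = 0)
    (hM : ∀ (X : Type) [MeasurableSpace X] (μ : Measure X) [IsProbabilityMeasure μ]
      (T : Fin d → Equiv.Perm X), (∀ i, Measurable ⇑(T i).symm) →
      (∀ i, MeasurePreserving (⇑(T i)) μ μ) → (∀ i j, Commute (T i) (T j)) →
      ∀ p : Fin d → Polynomial ℤ,
        MaxProp μ (fun n x => (List.ofFn fun i => T i ^ (p i).eval n).prod x))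
    (h : ConvZero d m P) : Conv d m P := by
  classical
  intro X m0 μ hμ T hT' hT hc f hf
  obtain ⟨m', s, A, Z, hs, hne, hdist, hA, hZ, hprod⟩ := merge P
  have hPi : pinskerAlgebra μ T ≤ m0 := fun B hB => ((comm_sets T hT' hT hc B).1 hB).1
  set f' : Fin m' → X → ℂ := fun j x => ∏ k ∈ A j, f k x with hf'
  have hf'm : ∀ j, MemLp (f' j) ∞ μ := fun j => memLp_prod f hf (A j)
  have key := comm_char T hT' hT hc (fun i j => P i (s j)) (fun i j => hP0 i (s j)) hne hdist
    (fun j => hM X μ T hT' hT hc (fun i => P i (s j))) f' hf'm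
  set e : Fin m' → X → ℂ := fun j => μ[f' j|pinskerAlgebra μ T] with he
  set F : Fin m → X → ℂ := Function.extend s e (fun _ _ => 1) with hF
  have hFs : ∀ j, F (s j) = e j := fun j => hs.extend_apply _ _ j
  have hFo : ∀ k, k ∉ Set.range s → F k = fun _ => 1 := by
    intro k hk
    rw [hF, Function.extend_apply']
    rintro ⟨a, ha⟩
    exact hk ⟨a, ha⟩
  have hmeas : ∀ g : Fin d → ℤ, @Measurable X X (pinskerAlgebra μ T) (pinskerAlgebra μ T)
      fun x => (List.ofFn fun i => T i ^ (g i)).prod x := by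
    intro g B hB
    exact comm_comap T hT' hT hc g _ ⟨B, hB, rfl⟩
  have hsingle : ∀ (i : Fin d) (a : ℤ), (List.ofFn fun j => T j ^ ((Pi.single i a : Fin d → ℤ) j)).prod
      = T i ^ a := by
    intro i a
    rw [prod_ofFn_single i (fun j => T j ^ ((Pi.single i a : Fin d → ℤ) j))]
    · rw [Pi.single_eq_same]
    · intro j hj
      rw [Pi.single_eq_of_ne hj, zpow_zero]
  have hTm : ∀ i, @Measurable X X (pinskerAlgebra μ T) (pinskerAlgebra μ T) (⇑(T i)) := by
    intro i
    have h1 := hmeas (Pi.single i 1)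
    rw [hsingle i 1, zpow_one] at h1
    exact h1
  have hTm' : ∀ i, @Measurable X X (pinskerAlgebra μ T) (pinskerAlgebra μ T) (⇑(T i).symm) := by
    intro i
    have h1 := hmeas (Pi.single i (-1))
    rw [hsingle i (-1), zpow_neg, zpow_one] at h1
    exact h1
  have hprob : @IsProbabilityMeasure X (pinskerAlgebra μ T) (μ.trim hPi) := by
    refine @IsProbabilityMeasure.mk X (pinskerAlgebra μ T) (μ.trim hPi) ?_
    rw [trim_measurableSet_eq hPi (@MeasurableSet.univ X (pinskerAlgebra μ T))]
    exact hμ.measure_univ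
  have hFL : ∀ k, @MemLp X ℂ (pinskerAlgebra μ T) _ _ (F k) ∞ (μ.trim hPi) := by
    intro k
    by_cases hk : k ∈ Set.range s
    · obtain ⟨j, rfl⟩ := hk
      rw [hFs]
      have h1 := memLp_condExp_top _ hPi (f' j) (hf'm j)
      refine ⟨stronglyMeasurable_condExp.aestronglyMeasurable, ?_⟩
      rw [eLpNorm_trim hPi stronglyMeasurable_condExp]
      exact h1.2
    · rw [hFo k hk]
      exact @memLp_const X ℂ (pinskerAlgebra μ T) ∞ (μ.trim hPi) _ 1
        (isFiniteMeasure_trim hPi)
  have hzero : ∀ B : Set X, MeasurableSet[pinskerAlgebra μ T] B →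
      @ZeroEntropy X (pinskerAlgebra μ T) (μ.trim hPi) d T B := by
    intro B hB
    have h1 := ((comm_sets T hT' hT hc B).1 hB).2
    unfold ZeroEntropy at h1 ⊢
    simp only [patternEntropy_trim _ hPi T hmeas B hB]
    exact h1
  have h2 := @h X (pinskerAlgebra μ T) (μ.trim hPi) hprob T hTm'
    (fun i => trim_mp _ hPi _ (hT i) (hTm i)) hc hzero F hFL
  have h3 := ae_of_ae_trim hPi h2
  filter_upwards [key, h3] with x hx1 hx2
  obtain ⟨L, hL⟩ := hx2
  refine ⟨(∏ k ∈ Z, f k x) * L, ?_⟩
  have hFprod : ∀ y : Fin m → X, ∏ k, F k (y k) = ∏ j, e j (y (s j)) := by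
    intro y
    rw [← Finset.prod_subset (Finset.subset_univ (Finset.univ.image s))
      (f := fun k => F k (y k))]
    · rw [Finset.prod_image (fun a _ b _ hab => hs hab)]
      apply Finset.prod_congr rfl
      intro j _
      rw [hFs]
    · intro k _ hk
      rw [hFo k]
      rintro ⟨j, rfl⟩
      exact hk (Finset.mem_image_of_mem s (Finset.mem_univ j))
  have hL' : Tendsto (fun N : ℕ => (2 * (N : ℂ) + 1)⁻¹ * ∑ n ∈ Finset.Icc (-(N : ℤ)) N,
      ∏ j, e j ((List.ofFn fun i => T i ^ (P i (s j)).eval n).prod x)) atTop (𝓝 L) := by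
    refine hL.congr fun N => ?_
    congr 1
    apply Finset.sum_congr rfl
    intro n _
    exact hFprod (fun k => (List.ofFn fun i => T i ^ (P i k).eval n).prod x)
  have h4 : Tendsto (fun N : ℕ => (2 * (N : ℂ) + 1)⁻¹ * ∑ n ∈ Finset.Icc (-(N : ℤ)) N,
      ∏ j, f' j ((List.ofFn fun i => T i ^ (P i (s j)).eval n).prod x)) atTop (𝓝 L) := by
    have h5 := hx1.add hL'
    rw [zero_add] at h5
    refine h5.congr fun N => ?_
    rw [← mul_add, ← Finset.sum_add_distrib]
    congr 1
    apply Finset.sum_congr rfl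
    intro n _
    simp only [he]
    ring
  have h6 := h4.const_mul (∏ k ∈ Z, f k x)
  refine h6.congr fun N => ?_
  rw [← mul_assoc, mul_comm (∏ k ∈ Z, f k x), mul_assoc, Finset.mul_sum]
  congr 1
  apply Finset.sum_congr rfl
  intro n _
  rw [hprod (fun k => f k ((List.ofFn fun i => T i ^ (P i k).eval n).prod x))]
  congr 1
  · apply Finset.prod_congr rfl
    intro k hk
    congr 1
    have h7 : (List.ofFn fun i => T i ^ (P i k).eval n).prod = 1 := by
      apply List.prod_eq_one
      intro z hz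
      rw [List.mem_ofFn] at hz
      obtain ⟨i, rfl⟩ := hz
      rw [hZ k hk i, Polynomial.eval_zero, zpow_zero]
    rw [h7]
    rfl
  · apply Finset.prod_congr rfl
    intro j _
    simp only [hf']
    apply Finset.prod_congr rfl
    intro k hk
    have h8 : (fun i => T i ^ (P i k).eval n) = fun i => T i ^ (P i (s j)).eval n := by
      funext i
      rw [hA j k hk i]
    rw [h8]

end Pool.Pinsker
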