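import Pool.Agent.Pinsker.Odo
import Pool.Agent.Pinsker.Reduce

set_option autoImplicit false
set_option warn.classDefReducibility false

/-!
# Reduction to free actions of zero entropy
-/

open MeasureTheory Filter Topology Finset
open scoped ENNReal

namespace Pool.Pinsker

/-- `B` has zero entropy for the group `G` of permutations of `X`: for every `ε > 0` there is a
nonempty finite `F ⊆ G` such that the Shannon entropy of the partition of `X` according to the
pattern `{g ∈ F : g x ∈ B}` is at most `ε |F|`. -/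
def ZeroEntropyG {X : Type*} [MeasurableSpace X] (μ : Measure X) (G : Subgroup (Equiv.Perm X))
    (B : Set X) : Prop :=
  ∀ ε : ℝ, 0 < ε → ∃ F : Finset G, 0 < F.card ∧
    ∑ S ∈ F.powerset, Real.negMulLog (μ.real {x | ∀ g ∈ F, ((g : Equiv.Perm X) x ∈ B ↔ g ∈ S)}) ≤
      ε * F.card

/-- Q1 for all free zero entropy systems of `d` commuting maps and the given polynomials. -/
def ConvZeroFree (d m : ℕ) (P : Fin d → Fin m → Polynomial ℤ) : Prop :=
  ∀ (X : Type) [MeasurableSpace X] (μ : Measure X) [IsProbabilityMeasure μ]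
    (T : Fin d → Equiv.Perm X), (∀ i, Measurable ⇑(T i).symm) →
    (∀ i, MeasurePreserving (⇑(T i)) μ μ) → (∀ i j, Commute (T i) (T j)) →
    (∀ v : Fin d → ℤ, v ≠ 0 → ∀ x, (List.ofFn fun i => T i ^ v i).prod x ≠ x) →
    (∀ B : Set X, MeasurableSet B → ZeroEntropyG μ (Subgroup.closure (Set.range T)) B) →
    ∀ f : Fin m → X → ℂ, (∀ j, MemLp (f j) ∞ μ) →
    ∀ᵐ x ∂μ, ∃ L : ℂ, Tendsto (fun N : ℕ => (2 * (N : ℂ) + 1)⁻¹ *
      ∑ n ∈ Finset.Icc (-(N : ℤ)) N,
        ∏ j, f j ((List.ofFn fun i => T i ^ (P i j).eval n).prod x)) atTop (𝓝 L)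

/-- the product of two tuples of maps -/
def prodT {X Y : Type*} {d : ℕ} (T : Fin d → Equiv.Perm X) (S : Fin d → Equiv.Perm Y) (i : Fin d) :
    Equiv.Perm (X × Y) := Equiv.prodCongr (T i) (S i)

theorem prodT_zpow {X Y : Type*} {d : ℕ} (T : Fin d → Equiv.Perm X) (S : Fin d → Equiv.Perm Y)
    (i : Fin d) (n : ℤ) (z : X × Y) : (prodT T S i ^ n) z = ((T i ^ n) z.1, (S i ^ n) z.2) := by
  have hnat : ∀ (n : ℕ) (z : X × Y), (prodT T S i ^ n) z = ((T i ^ n) z.1, (S i ^ n) z.2) := by
    intro n
    induction n with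
    | zero => intro z; simp
    | succ n ih =>
      intro z
      rw [pow_succ, pow_succ, pow_succ, Equiv.Perm.mul_apply, ih]
      rfl
  cases n with
  | ofNat n =>
    simp only [Int.ofNat_eq_natCast, zpow_natCast]
    exact hnat n z
  | negSucc n =>
    simp only [zpow_negSucc]
    rw [Equiv.Perm.inv_eq_iff_eq, hnat]
    simp

theorem prodT_act {X Y : Type*} {d : ℕ} (T : Fin d → Equiv.Perm X) (S : Fin d → Equiv.Perm Y) :
    ∀ {e : ℕ} (s : Fin e → Fin d) (v : Fin e → ℤ) (z : X × Y),
    (List.ofFn fun i => prodT T S (s i) ^ v i).prod z =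
      ((List.ofFn fun i => T (s i) ^ v i).prod z.1, (List.ofFn fun i => S (s i) ^ v i).prod z.2) := by
  intro e
  induction e with
  | zero => intro s v z; simp
  | succ e ih =>
    intro s v z
    rw [List.ofFn_succ, List.ofFn_succ, List.ofFn_succ, List.prod_cons, List.prod_cons,
      List.prod_cons, Equiv.Perm.mul_apply, ih (fun i => s i.succ) (fun i => v i.succ),
      prodT_zpow]
    rfl

theorem prodT_nat {X Y : Type*} {d : ℕ} (T : Fin d → Equiv.Perm X) (S : Fin d → Equiv.Perm Y)
    (v : Fin d → ℕ) (z : X × Y) :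
    (List.ofFn fun i => prodT T S i ^ v i).prod z =
      ((List.ofFn fun i => T i ^ v i).prod z.1, (List.ofFn fun i => S i ^ v i).prod z.2) := by
  have h := prodT_act T S (fun i => i) (fun i => (v i : ℤ)) z
  simpa only [zpow_natCast] using h

/-- zero entropy on boxes gives zero entropy for the group, if the action is faithful -/
theorem zeroG_of_box {X : Type*} {m0 : MeasurableSpace X} {μ : Measure X} {d : ℕ}
    (T : Fin d → Equiv.Perm X)
    (hinj : ∀ v w : Fin d → ℕ, (List.ofFn fun i => T i ^ v i).prod =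
      (List.ofFn fun i => T i ^ w i).prod → v = w) (B : Set X) (h : ZeroEntropy μ T B) :
    ZeroEntropyG μ (Subgroup.closure (Set.range T)) B := by
  classical
  intro ε hε
  have hev := (h.eventually (gt_mem_nhds hε)).and (eventually_ge_atTop 1)
  obtain ⟨n, hn, hn1⟩ := hev.exists
  have hmem : ∀ v : Fin d → ℕ, (List.ofFn fun i => T i ^ v i).prod ∈
      Subgroup.closure (Set.range T) := by
    intro v
    apply Subgroup.list_prod_mem
    intro x hx
    obtain ⟨i, rfl⟩ := (List.mem_ofFn' _ x).1 hx
    exact Subgroup.pow_mem _ (Subgroup.subset_closure (Set.mem_range_self i)) _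
  set emb : (Fin d → ℕ) ↪ Subgroup.closure (Set.range T) :=
    ⟨fun v => ⟨_, hmem v⟩, fun v w hvw => hinj v w (congrArg Subtype.val hvw)⟩ with hemb
  set Λ : Finset (Fin d → ℕ) := Fintype.piFinset fun _ : Fin d => Finset.range n with hΛ
  have hcard : (Λ.card : ℝ) = (n : ℝ) ^ d := by
    rw [hΛ, Fintype.card_piFinset]
    simp
  have hpos : (0 : ℝ) < (n : ℝ) ^ d := by
    have : (0 : ℝ) < n := by exact_mod_cast hn1
    positivity
  refine ⟨Λ.map emb, ?_, ?_⟩
  · rw [Finset.card_map]
    have : (0 : ℝ) < (Λ.card : ℝ) := by rw [hcard]; exact hpos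
    exact_mod_cast this
  · rw [Finset.card_map, hcard]
    have h1 : patternEntropy μ T B n ≤ ε * (n : ℝ) ^ d := by
      have := (div_lt_iff₀ hpos).1 hn
      exact this.le
    refine le_trans (le_of_eq ?_) h1
    rw [patternEntropy]
    symm
    refine Finset.sum_nbij (fun S => S.map emb) ?_ ?_ ?_ ?_
    · intro S hS
      exact mem_powerset.2 (map_subset_map.2 (mem_powerset.1 hS))
    · intro S _ S' _ h
      exact map_injective _ h
    · intro S hS
      obtain ⟨u, hu, rfl⟩ := subset_map_iff.1 (mem_powerset.1 hS)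
      exact ⟨u, mem_coe.2 (mem_powerset.2 hu), rfl⟩
    · intro S hS
      congr 2
      ext x
      simp only [Set.mem_ofPred_eq]
      constructor
      · intro h g hg
        obtain ⟨k, hk, rfl⟩ := mem_map.1 hg
        rw [mem_map' emb]
        exact h k hk
      · intro h k hk
        have := h (emb k) (mem_map_of_mem _ hk)
        rw [mem_map' emb] at this
        exact this

/-- the entropy of a map into a finite type is bounded -/
theorem ent_le_card {X : Type*} {m0 : MeasurableSpace X} {μ : Measure X}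
    [IsProbabilityMeasure μ] {ι : Type*} [Fintype ι] (f : X → ι) :
    ent μ f ≤ (Fintype.card ι : ℝ) := by
  unfold ent
  have h1 : ∀ i ∈ (Finset.univ : Finset ι), Real.negMulLog (μ.real (f ⁻¹' {i})) ≤ 1 := by
    intro i _
    have h2 : 0 ≤ μ.real (f ⁻¹' {i}) := measureReal_nonneg
    have h4 := Real.negMulLog_le_one_sub_self h2
    linarith
  refine (Finset.sum_le_sum h1).trans ?_
  simp

/-- sets that depend only on a finite quotient invariant under the action have zero entropy -/
theorem zero_of_factor {X : Type*} {m0 : MeasurableSpace X} {μ : Measure X}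
    [IsProbabilityMeasure μ] {d : ℕ} (hd : 0 < d) (T : Fin d → Equiv.Perm X)
    (hc : ∀ i j, Commute (T i) (T j)) {Q : Type*} [Fintype Q] (q : X → Q) (C : Set Q)
    (hq : ∀ v : Fin d → ℤ, ∀ x y, q x = q y →
      q ((List.ofFn fun i => T i ^ v i).prod x) = q ((List.ofFn fun i => T i ^ v i).prod y))
    (hm : FM m0 q) :
    ZeroEntropy μ T (q ⁻¹' C) := by
  classical
  have hbound : ∀ n : ℕ, patternEntropy μ T (q ⁻¹' C) (n + 1) ≤ (Fintype.card Q : ℝ) := by
    intro n
    let _ := zact T hc
    rw [← ent_zbox T hc (q ⁻¹' C) n]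
    rcases isEmpty_or_nonempty X with hX | hX
    · have h1 : ∀ i, μ.real (name (G := Multiplicative (Fin d → ℤ)) (fun x : X => x ∈ q ⁻¹' C)
          (zbox d n) ⁻¹' {i}) = 0 := by
        intro i
        rw [Set.eq_empty_of_isEmpty (name (G := Multiplicative (Fin d → ℤ))
          (fun x : X => x ∈ q ⁻¹' C) (zbox d n) ⁻¹' {i})]
        simp
      unfold ent
      simp only [h1, Real.negMulLog_zero, Finset.sum_const_zero]
      positivity
    · obtain ⟨x0⟩ := hX
      -- the name is a function of `q`
      set Φ : Q → ({g // g ∈ zbox d n} → Prop) := fun a =>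
        if h : ∃ x, q x = a then name (fun x : X => x ∈ q ⁻¹' C) (zbox d n) h.choose
        else fun _ => True with hΦ
      have hname : ∀ x, name (G := Multiplicative (Fin d → ℤ)) (fun x : X => x ∈ q ⁻¹' C)
          (zbox d n) x = Φ (q x) := by
        intro x
        have hex : ∃ y, q y = q x := ⟨x, rfl⟩
        rw [hΦ]
        simp only
        rw [dif_pos hex]
        funext g
        have h2 := hq (Multiplicative.toAdd (g : Multiplicative (Fin d → ℤ))) _ _ hex.choose_spec
        show (q _ ∈ C) = (q _ ∈ C)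
        exact congrArg (· ∈ C) h2.symm
      have hnm : FM m0 (name (G := Multiplicative (Fin d → ℤ)) (fun x : X => x ∈ q ⁻¹' C)
          (zbox d n)) := by
        intro s
        have : name (G := Multiplicative (Fin d → ℤ)) (fun x : X => x ∈ q ⁻¹' C)
          (zbox d n) ⁻¹' s = q ⁻¹' (Φ ⁻¹' s) := by
          ext x
          rw [Set.mem_preimage, hname]
          rfl
        rw [this]
        exact hm _
      -- entropy of `(q, name)` equals the entropy of `q`
      have h3 : ent μ (fun x => (q x, name (G := Multiplicative (Fin d → ℤ))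
          (fun x : X => x ∈ q ⁻¹' C) (zbox d n) x)) = ent μ q := by
        have h4 := ent_comp_inj (μ := μ) q (fun a : Q => (a, Φ a))
          (fun a b hab => (Prod.mk.inj hab).1)
        rw [← h4]
        congr 1
        funext x
        rw [hname]
      have h5 := cent_nonneg (μ := μ) q (name (G := Multiplicative (Fin d → ℤ))
          (fun x : X => x ∈ q ⁻¹' C) (zbox d n)) hm hnm
      unfold cent at h5
      rw [h3] at h5
      have h6 := ent_le_card (μ := μ) q
      linarith
  unfold ZeroEntropy
  rw [← tendsto_add_atTop_iff_nat 1]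
  refine squeeze_zero (g := fun n : ℕ => (Fintype.card Q : ℝ) * ((1 : ℝ) / ((n : ℝ) + 1)))
    (fun n => ?_) (fun n => ?_) ?_
  · apply div_nonneg
    · letI := zact T hc
      rw [← ent_zbox T hc (q ⁻¹' C) n]
      exact ent_nonneg _
    · positivity
  · have h1 : (1 : ℝ) ≤ (n : ℝ) + 1 := by
      have : (0 : ℝ) ≤ n := Nat.cast_nonneg n
      linarith
    have h2 : (n : ℝ) + 1 ≤ ((n + 1 : ℕ) : ℝ) ^ d := by
      push_cast
      calc (n : ℝ) + 1 = ((n : ℝ) + 1) ^ 1 := (pow_one _).symm
        _ ≤ ((n : ℝ) + 1) ^ d := pow_le_pow_right₀ h1 hd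
    calc patternEntropy μ T (q ⁻¹' C) (n + 1) / ((n + 1 : ℕ) : ℝ) ^ d
        ≤ (Fintype.card Q : ℝ) / ((n + 1 : ℕ) : ℝ) ^ d :=
          div_le_div_of_nonneg_right (hbound n) (by positivity)
      _ ≤ (Fintype.card Q : ℝ) / ((n : ℝ) + 1) :=
          div_le_div_of_nonneg_left (by positivity) (by linarith) h2
      _ = _ := by rw [mul_one_div]
  · have h := tendsto_one_div_add_atTop_nhds_zero_nat (𝕜 := ℝ)
    have h2 := h.const_mul (Fintype.card Q : ℝ)
    rw [mul_zero] at h2
    exact h2

theorem patternEntropy_fst {X Y : Type*} {m0 : MeasurableSpace X} {m1 : MeasurableSpace Y}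
    {μ : Measure X} {ν : Measure Y} [IsProbabilityMeasure μ] [IsProbabilityMeasure ν] {d : ℕ}
    (T : Fin d → Equiv.Perm X) (S : Fin d → Equiv.Perm Y) (A : Set X) (n : ℕ) :
    patternEntropy (μ.prod ν) (prodT T S) (Prod.fst ⁻¹' A) n = patternEntropy μ T A n := by
  unfold patternEntropy
  apply Finset.sum_congr rfl
  intro K _
  congr 1
  have h1 : {z : X × Y | ∀ g ∈ Fintype.piFinset fun _ : Fin d => Finset.range n,
      ((List.ofFn fun i : Fin d => prodT T S i ^ g i).prod z ∈ Prod.fst ⁻¹' A ↔ g ∈ K)} =
      {x | ∀ g ∈ Fintype.piFinset fun _ : Fin d => Finset.range n,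
      ((List.ofFn fun i : Fin d => T i ^ g i).prod x ∈ A ↔ g ∈ K)} ×ˢ Set.univ := by
    ext z
    simp only [Set.mem_ofPred_eq, Set.mem_preimage, Set.mem_prod, Set.mem_univ, and_true,
      prodT_nat]
  rw [h1, Measure.real, Measure.prod_prod, measure_univ, mul_one]
  rfl

theorem convZero_of_free (d m : ℕ) (P : Fin d → Fin m → Polynomial ℤ)
    (h : ConvZeroFree d m P) : ConvZero d m P := by
  intro X m0 μ hμ T hT' hT hc hz f hf
  rcases Nat.eq_zero_or_pos d with hd | hd
  · subst hd
    refine Eventually.of_forall fun x => ⟨∏ j, f j x, ?_⟩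
    refine tendsto_const_nhds.congr fun N => ?_
    have h1 : ∀ n ∈ Finset.Icc (-(N : ℤ)) N,
        ∏ j, f j ((List.ofFn fun i => T i ^ (P i j).eval n).prod x) = ∏ j, f j x := by
      intro n _
      simp
    rw [Finset.sum_congr rfl h1, Finset.sum_const, Int.card_Icc, nsmul_eq_mul]
    have h2 : (((N : ℤ) + 1 - -(N : ℤ)).toNat : ℂ) = 2 * (N : ℂ) + 1 := by
      have : ((N : ℤ) + 1 - -(N : ℤ)).toNat = 2 * N + 1 := by omega
      rw [this]
      push_cast
      ring
    rw [h2, ← mul_assoc, inv_mul_cancel₀, one_mul]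
    have : ((2 * N + 1 : ℕ) : ℂ) ≠ 0 := Nat.cast_ne_zero.2 (Nat.succ_ne_zero _)
    push_cast at this
    exact this
  · have hne : Nonempty X := by
      by_contra hcon
      rw [not_nonempty_iff] at hcon
      have h1 := hμ.measure_univ
      rw [Set.univ_eq_empty_iff.2 hcon, measure_empty] at h1
      exact zero_ne_one h1
    obtain ⟨x0⟩ := hne
    have hsymm : ∀ i, Measurable ⇑(prodT T (odoT d) i).symm := by
      intro i
      have e : (⇑(prodT T (odoT d) i).symm : X × Odo d → X × Odo d) =
          fun z => ((T i).symm z.1, (odoT d i).symm z.2) := by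
        funext z
        rfl
      rw [e]
      exact ((hT' i).comp measurable_fst).prodMk ((odoT_symm d i).comp measurable_snd)
    have hmp : ∀ i, MeasurePreserving (⇑(prodT T (odoT d) i)) (μ.prod (odoMeas d))
        (μ.prod (odoMeas d)) := fun i => (hT i).prod (odoT_mp d i)
    have hcomm : ∀ i j, Commute (prodT T (odoT d) i) (prodT T (odoT d) j) := by
      intro i j
      ext z : 1
      show ((T i * T j) z.1, (odoT d i * odoT d j) z.2) =
        ((T j * T i) z.1, (odoT d j * odoT d i) z.2)
      rw [(hc i j).eq, (odo_comm i j).eq]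
    have hact : ∀ (v : Fin d → ℤ) (z : X × Odo d),
        (List.ofFn fun i => prodT T (odoT d) i ^ v i).prod z =
          ((List.ofFn fun i => T i ^ v i).prod z.1, z.2 + odoPt d v) := by
      intro v z
      have h1 := prodT_act T (odoT d) (fun i => i) v z
      rw [h1, odo_act]
    have hfree : ∀ v : Fin d → ℤ, v ≠ 0 → ∀ z,
        (List.ofFn fun i => prodT T (odoT d) i ^ v i).prod z ≠ z := by
      intro v hv z hvz
      rw [hact] at hvz
      exact hv (odo_free v z.2 (congrArg Prod.snd hvz))
    have hinj : ∀ v w : Fin d → ℕ, (List.ofFn fun i => prodT T (odoT d) i ^ v i).prod =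
        (List.ofFn fun i => prodT T (odoT d) i ^ w i).prod → v = w := by
      intro v w hvw
      have h1 := DFunLike.congr_fun hvw ((x0, 0) : X × Odo d)
      rw [prodT_nat, prodT_nat] at h1
      have h2 : (List.ofFn fun i => odoT d i ^ v i).prod (0 : Odo d) =
          (List.ofFn fun i => odoT d i ^ w i).prod (0 : Odo d) := congrArg Prod.snd h1
      have h3 := odo_act (fun i => (v i : ℤ)) (0 : Odo d)
      have h4 := odo_act (fun i => (w i : ℤ)) (0 : Odo d)
      simp only [zpow_natCast] at h3 h4
      rw [h3, h4, zero_add, zero_add] at h2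
      have h5 : odoPt d ((fun i => (v i : ℤ)) - fun i => (w i : ℤ)) = 0 := by
        have h6 := odoPt_add d ((fun i => (v i : ℤ)) - fun i => (w i : ℤ)) (fun i => (w i : ℤ))
        rw [sub_add_cancel, h2] at h6
        exact (right_eq_add.1 h6)
      have h7 := odo_free ((fun i => (v i : ℤ)) - fun i => (w i : ℤ)) (0 : Odo d)
        (by rw [h5, add_zero])
      funext i
      have h8 := congrFun h7 i
      simp only [Pi.sub_apply, Pi.zero_apply] at h8
      omega
    have hle : (inferInstance : MeasurableSpace (X × Odo d)) ≤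
        pinskerAlgebra (μ.prod (odoMeas d)) (prodT T (odoT d)) := by
      refine sup_le ?_ ?_
      · rintro B ⟨A, hA, rfl⟩
        refine MeasurableSpace.measurableSet_generateFrom ⟨measurable_fst hA, ?_⟩
        unfold ZeroEntropy
        simp only [patternEntropy_fst]
        exact hz A hA
      · have e : MeasurableSpace.comap (Prod.snd : X × Odo d → Odo d) MeasurableSpace.pi =
            ⨆ k, MeasurableSpace.comap ((fun y : Odo d => y k) ∘ Prod.snd) ⊤ := by
          show MeasurableSpace.comap (Prod.snd : X × Odo d → Odo d)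
            (⨆ k, MeasurableSpace.comap (fun y : Odo d => y k) ⊤) = _
          rw [MeasurableSpace.comap_iSup]
          congr 1
          funext k
          rw [MeasurableSpace.comap_comp]
        refine e.le.trans ?_
        refine iSup_le fun k => ?_
        rintro B ⟨C, -, rfl⟩
        have hmeas : ∀ C : Set (Qd d k), MeasurableSet
            (((fun y : Odo d => y k) ∘ (Prod.snd : X × Odo d → Odo d)) ⁻¹' C) := by
          intro C
          exact ((measurable_pi_apply k).comp measurable_snd) trivial
        refine MeasurableSpace.measurableSet_generateFrom ⟨hmeas C, ?_⟩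
        refine zero_of_factor hd (prodT T (odoT d)) hcomm
          ((fun y : Odo d => y k) ∘ (Prod.snd : X × Odo d → Odo d)) C ?_ hmeas
        intro v x y hxy
        rw [hact, hact]
        have hxy' : x.2 k = y.2 k := hxy
        show (x.2 + odoPt d v) k = (y.2 + odoPt d v) k
        rw [Pi.add_apply, Pi.add_apply, hxy']
    have hzero : ∀ B : Set (X × Odo d), MeasurableSet B →
        ZeroEntropyG (μ.prod (odoMeas d)) (Subgroup.closure (Set.range (prodT T (odoT d)))) B := by
      intro B hB
      exact zeroG_of_box _ hinj B ((comm_sets _ hsymm hmp hcomm B).1 (hle B hB)).2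
    have h1 := h (X × Odo d) (μ.prod (odoMeas d)) (prodT T (odoT d)) hsymm hmp hcomm hfree hzero
      (fun j z => f j z.1) (fun j => (hf j).comp_measurePreserving measurePreserving_fst)
    have h2 := Measure.ae_ae_of_ae_prod h1
    filter_upwards [h2] with x hx
    obtain ⟨y, L, hL⟩ := hx.exists
    refine ⟨L, hL.congr fun N => ?_⟩
    congr 1
    apply Finset.sum_congr rfl
    intro n _
    apply Finset.prod_congr rfl
    intro j _
    rw [hact]

end Pool.Pinsker
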