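import Pool.Agent.Pinsker.Defs

set_option autoImplicit false
set_option warn.classDefReducibility false

/-!
# Module FromMax: the weak maximal inequality from the `L²` maximal inequality

Paper proof.  Given `C₀` (bound of `v`; if `C₀ < 0` then `X` is empty or there is no `v`; replace
`C₀` by `max C₀ 0`) and `ε > 0` put `δ = ε³ / (C C₀ + 1)`.  Let `0 ≤ v ≤ C₀`, `∫ v ≤ δ`, let
`w x = ENNReal.ofReal (v x)`, `M x = ⨆ N, (2N+1)⁻¹ Σ_{|n|≤N} w (τ n x)` and `E = {x | ofReal ε ≤ M x}`.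
`ENNReal.ofReal ((2N+1)⁻¹ Σ v (τ n x)) = (2N+1)⁻¹ Σ w (τ n x) ≤ M x`, so for `x ∉ E` the real
average is `≤ ε` (it is `< ε`).  Chebyshev (`mul_meas_ge_le_lintegral` for the measurable function
`M²`): `(ofReal ε)² μ E ≤ ∫⁻ M² ≤ C ∫⁻ w² ≤ C C₀ ∫⁻ w = C C₀ ofReal (∫ v) ≤ C C₀ ofReal δ`, so
`μ E ≤ ofReal (C C₀ δ / ε²) ≤ ofReal ε`.
-/

open MeasureTheory Filter Topology Finset
open scoped ENNReal NNReal

namespace Pool.Pinsker

theorem maxProp_of_maximal {X : Type*} {m0 : MeasurableSpace X} {μ : Measure X}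
    [IsProbabilityMeasure μ] (τ : ℤ → X → X) (hτ : ∀ n, Measurable (τ n)) (C : ℝ≥0)
    (h : ∀ v : X → ℝ≥0∞, Measurable v →
      ∫⁻ x, (⨆ N : ℕ, (2 * (N : ℝ≥0∞) + 1)⁻¹ *
        ∑ n ∈ Finset.Icc (-(N : ℤ)) N, v (τ n x)) ^ 2 ∂μ ≤ C * ∫⁻ x, v x ^ 2 ∂μ) :
    MaxProp μ τ := by
  intro C₀ ε hε
  set C₁ : ℝ := max C₀ 0 with hC₁
  have hC₁0 : 0 ≤ C₁ := le_max_right _ _
  have hC0 : (0 : ℝ) ≤ (C : ℝ) := C.2
  have hCC : 0 ≤ (C : ℝ) * C₁ := mul_nonneg hC0 hC₁0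
  refine ⟨ε ^ 3 / (C * C₁ + 1), by positivity, ?_⟩
  intro v hvm hv0 hvC hvint
  have hwm : Measurable (fun x => ENNReal.ofReal (v x)) := hvm.ennreal_ofReal
  set M : X → ℝ≥0∞ := fun x => ⨆ N : ℕ, (2 * (N : ℝ≥0∞) + 1)⁻¹ *
    ∑ n ∈ Finset.Icc (-(N : ℤ)) N, ENNReal.ofReal (v (τ n x)) with hM
  have hMm : Measurable M := by
    apply Measurable.iSup
    intro N
    apply Measurable.const_mul
    apply Finset.measurable_fun_sum
    intro n _
    exact hwm.comp (hτ n)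
  have hmax := h (fun x => ENNReal.ofReal (v x)) hwm
  refine ⟨{x | ENNReal.ofReal ε ≤ M x}, ?_, ?_⟩
  · have hcheb := mul_meas_ge_le_lintegral (μ := μ) (hMm.pow_const 2) (ENNReal.ofReal ε ^ 2)
    have hsub : {x | ENNReal.ofReal ε ≤ M x} ⊆ {x | ENNReal.ofReal ε ^ 2 ≤ M x ^ 2} := by
      intro x hx
      have hx' : ENNReal.ofReal ε ≤ M x := hx
      show ENNReal.ofReal ε ^ 2 ≤ M x ^ 2
      gcongr
    have hint : ∫⁻ x, ENNReal.ofReal (v x) ∂μ = ENNReal.ofReal (∫ x, v x ∂μ) := by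
      rw [ofReal_integral_eq_lintegral_ofReal _ (Filter.Eventually.of_forall hv0)]
      apply Integrable.of_bound hvm.aestronglyMeasurable C₀
      apply Filter.Eventually.of_forall
      intro x
      rw [Real.norm_eq_abs, abs_of_nonneg (hv0 x)]
      exact hvC x
    have hw2 : ∫⁻ x, ENNReal.ofReal (v x) ^ 2 ∂μ ≤
        ENNReal.ofReal C₁ * ENNReal.ofReal (ε ^ 3 / (C * C₁ + 1)) := by
      calc ∫⁻ x, ENNReal.ofReal (v x) ^ 2 ∂μ ≤
          ∫⁻ x, ENNReal.ofReal C₁ * ENNReal.ofReal (v x) ∂μ := by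
            apply lintegral_mono
            intro x
            show ENNReal.ofReal (v x) ^ 2 ≤ ENNReal.ofReal C₁ * ENNReal.ofReal (v x)
            rw [sq]
            gcongr
            exact (hvC x).trans (le_max_left _ _)
        _ = ENNReal.ofReal C₁ * ENNReal.ofReal (∫ x, v x ∂μ) := by
            rw [lintegral_const_mul _ hwm, hint]
        _ ≤ _ := by gcongr
    have hC : (C : ℝ≥0∞) = ENNReal.ofReal (C : ℝ) := by
      rw [ENNReal.ofReal_coe_nnreal]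
    have htot : ENNReal.ofReal ε ^ 2 * μ {x | ENNReal.ofReal ε ≤ M x} ≤
        ENNReal.ofReal ε ^ 2 * ENNReal.ofReal ε := by
      calc ENNReal.ofReal ε ^ 2 * μ {x | ENNReal.ofReal ε ≤ M x}
          ≤ ENNReal.ofReal ε ^ 2 * μ {x | ENNReal.ofReal ε ^ 2 ≤ M x ^ 2} := by
            gcongr
        _ ≤ ∫⁻ x, M x ^ 2 ∂μ := hcheb
        _ ≤ C * ∫⁻ x, ENNReal.ofReal (v x) ^ 2 ∂μ := hmax
        _ ≤ C * (ENNReal.ofReal C₁ * ENNReal.ofReal (ε ^ 3 / (C * C₁ + 1))) := by gcongr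
        _ = ENNReal.ofReal (C * (C₁ * (ε ^ 3 / (C * C₁ + 1)))) := by
            rw [hC, ← ENNReal.ofReal_mul hC₁0, ← ENNReal.ofReal_mul hC0]
        _ ≤ ENNReal.ofReal (ε ^ 2 * ε) := by
            apply ENNReal.ofReal_le_ofReal
            have h1 : (C : ℝ) * (C₁ * (ε ^ 3 / (C * C₁ + 1))) =
                ε ^ 3 * ((C * C₁) / (C * C₁ + 1)) := by ring
            rw [h1]
            have h2 : ((C : ℝ) * C₁) / (C * C₁ + 1) ≤ 1 := by
              rw [div_le_one (by positivity)]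
              linarith
            have h3 : 0 ≤ ε ^ 3 := by positivity
            nlinarith
        _ = ENNReal.ofReal ε ^ 2 * ENNReal.ofReal ε := by
            rw [ENNReal.ofReal_mul (by positivity), ENNReal.ofReal_pow hε.le]
    have hne : ENNReal.ofReal ε ^ 2 ≠ 0 := by
      apply pow_ne_zero
      rw [Ne, ENNReal.ofReal_eq_zero, not_le]
      exact hε
    have hnt : ENNReal.ofReal ε ^ 2 ≠ ⊤ := ENNReal.pow_ne_top ENNReal.ofReal_ne_top
    exact (ENNReal.mul_le_mul_iff_right hne hnt).1 htot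
  · intro x hx N
    have hlt : M x < ENNReal.ofReal ε := not_le.1 hx
    have hle : (2 * (N : ℝ≥0∞) + 1)⁻¹ *
        ∑ n ∈ Finset.Icc (-(N : ℤ)) N, ENNReal.ofReal (v (τ n x)) ≤ M x :=
      le_iSup (fun N : ℕ => (2 * (N : ℝ≥0∞) + 1)⁻¹ *
        ∑ n ∈ Finset.Icc (-(N : ℤ)) N, ENNReal.ofReal (v (τ n x))) N
    have hN : (0 : ℝ) < 2 * (N : ℝ) + 1 := by positivity
    have hcast : ENNReal.ofReal ((2 * (N : ℝ) + 1)⁻¹) = (2 * (N : ℝ≥0∞) + 1)⁻¹ := by
      rw [ENNReal.ofReal_inv_of_pos hN]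
      congr 1
      have : 2 * (N : ℝ) + 1 = ((2 * N + 1 : ℕ) : ℝ) := by push_cast; ring
      rw [this, ENNReal.ofReal_natCast]
      push_cast
      ring
    have heq : ENNReal.ofReal ((2 * (N : ℝ) + 1)⁻¹ *
        ∑ n ∈ Finset.Icc (-(N : ℤ)) N, v (τ n x)) = (2 * (N : ℝ≥0∞) + 1)⁻¹ *
        ∑ n ∈ Finset.Icc (-(N : ℤ)) N, ENNReal.ofReal (v (τ n x)) := by
      rw [ENNReal.ofReal_mul (by positivity), hcast,
        ENNReal.ofReal_sum_of_nonneg (fun n _ => hv0 _)]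
    have := (heq ▸ hle).trans_lt hlt
    exact ((ENNReal.ofReal_lt_ofReal_iff hε).1 this).le

end Pool.Pinsker
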