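import Pool.Agent.Lib.RemotePast3

set_option autoImplicit false

/-!
# Module Heights: polynomials as heights (copied from the hand-in RemotePast of helper21)
-/

open MeasureTheory Filter Topology Finset
open scoped ENNReal NNReal

namespace Pool.Pinsker

open Pool.Lib.Erg Pool.Lib.RM Pool.Lib.RP

lemma ev_pos (q : Polynomial ℝ) (hq : 0 < q.leadingCoeff) :
    ∃ c : ℝ, 0 < c ∧ ∃ x0 : ℝ, ∀ x ≥ x0, c ≤ q.eval x := by
  by_cases h : q.natDegree = 0
  · refine ⟨q.leadingCoeff, hq, 0, fun x _ => ?_⟩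
    have h1 := Polynomial.eq_C_of_natDegree_eq_zero h
    rw [h1]
    simp
  · have hdeg : 0 < q.degree := Polynomial.natDegree_pos_iff_degree_pos.1 (Nat.pos_of_ne_zero h)
    have h1 := q.tendsto_atTop_of_leadingCoeff_nonneg hdeg hq.le
    obtain ⟨x0, hx0⟩ := eventually_atTop.1 (h1.eventually_ge_atTop 1)
    exact ⟨1, one_pos, x0, hx0⟩

/-- eventually increasing at least linearly -/
def Inc (p : Polynomial ℝ) : Prop :=
  ∃ c : ℝ, 0 < c ∧ ∃ x0 : ℝ, ∀ x ≥ x0, ∀ y ≥ x, c * (y - x) ≤ p.eval y - p.eval x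

lemma inc_of_pos (p : Polynomial ℝ) (hp : 0 < p.derivative.leadingCoeff) : Inc p := by
  obtain ⟨c, hc, x0, hx0⟩ := ev_pos _ hp
  refine ⟨c, hc, x0, fun x hx y hy => ?_⟩
  have := (convex_Ici x0).mul_sub_le_image_sub_of_le_deriv (f := fun x => p.eval x)
    p.continuous.continuousOn p.differentiable.differentiableOn (C := c) (by
      intro z hz
      rw [Polynomial.deriv]
      exact hx0 z (interior_subset hz)) x hx y (hx.le.trans hy) hy
  exact this

lemma dichotomy (p : Polynomial ℝ) (hp : ∃ a b : ℝ, p.eval a ≠ p.eval b) : Inc p ∨ Inc (-p) := by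
  have hd : p.derivative ≠ 0 := by
    intro h
    have h1 := Polynomial.natDegree_eq_zero_of_derivative_eq_zero h
    obtain ⟨a, b, hab⟩ := hp
    apply hab
    rw [Polynomial.eq_C_of_natDegree_eq_zero h1]
    simp
  rcases lt_or_gt_of_ne (Polynomial.leadingCoeff_ne_zero.2 hd) with h | h
  · right
    apply inc_of_pos
    rw [Polynomial.derivative_neg, Polynomial.leadingCoeff_neg]
    linarith
  · left
    exact inc_of_pos p h

lemma inc_gap (p : Polynomial ℝ) (hp : Inc p) (K : ℝ) :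
    ∃ C : ℕ, ∀ n : ℕ, n ≥ C → ∀ n' : ℕ, n' ≥ n + C → p.eval (n : ℝ) + K ≤ p.eval (n' : ℝ) := by
  obtain ⟨c, hc, x0, h⟩ := hp
  obtain ⟨C1, hC1⟩ := exists_nat_ge x0
  obtain ⟨C2, hC2⟩ := exists_nat_ge (K / c)
  refine ⟨max C1 C2, fun n hn n' hn' => ?_⟩
  have h1 : (C1 : ℝ) ≤ n := by exact_mod_cast (le_max_left _ _).trans hn
  have h2 : (n : ℝ) + C2 ≤ n' := by
    have : n + C2 ≤ n' := by
      have := le_max_right C1 C2
      omega
    exact_mod_cast this
  have h3 : (0 : ℝ) ≤ C2 := Nat.cast_nonneg _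
  have h4 := h n (by linarith) n' (by linarith)
  have h5 : K ≤ c * ((n' : ℝ) - n) := by
    rw [div_le_iff₀ hc] at hC2
    calc K ≤ C2 * c := hC2
      _ ≤ ((n' : ℝ) - n) * c := mul_le_mul_of_nonneg_right (by linarith) hc.le
      _ = _ := mul_comm _ _
  linarith

lemma inc_below (p q : Polynomial ℝ) (h : Inc (q - p)) :
    Below (fun n => p.eval (n : ℝ)) (fun n => q.eval (n : ℝ)) := by
  intro K
  obtain ⟨c, hc, x0, h⟩ := h
  obtain ⟨C1, hC1⟩ := exists_nat_ge (x0 + |(K - (q - p).eval x0)| / c)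
  refine ⟨C1, fun n hn => ?_⟩
  have h1 : (C1 : ℝ) ≤ n := by exact_mod_cast hn
  have h0 : 0 ≤ |(K - (q - p).eval x0)| / c := by positivity
  have h2 := h x0 le_rfl n (by linarith)
  have h3 : |(K - (q - p).eval x0)| ≤ c * ((n : ℝ) - x0) := by
    have : |(K - (q - p).eval x0)| / c ≤ (n : ℝ) - x0 := by linarith
    rw [div_le_iff₀ hc] at this
    linarith
  have h4 := le_abs_self (K - (q - p).eval x0)
  rw [Polynomial.eval_sub] at h2
  simp only
  linarith

end Pool.Pinsker
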