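import Pool.Agent.Pinsker.Upper

set_option autoImplicit false
set_option warn.classDefReducibility false

/-!
# Module Lower: lower bound of the entropy of names given the remote past

* `level_mono`, `level_le`, `past_le`, `tail_le`: definitions (`iSup`, `iInf`, measurability of
  `x ↦ α (g • x)`).
* `sg_comap`: `(sg α g).comap (k • ·) = sg α (g * k)` (`MeasurableSpace.comap_comp`, `mul_smul`).
* `level_comap`: `(level α φ t).comap (k • ·) ≤ level α φ (t + φ k)`: `comap` commutes with `⨆`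
  (`MeasurableSpace.comap_iSup`), `φ (g k) = φ g + φ k`.
* `tail_comap`: `(tail).comap (k • ·) ≤ tail`: for each `t`,
  `tail.comap ≤ (level (t - φ k)).comap ≤ level t`.
* `tail_le_past`: `tail ≤ level (-1) ≤ past` as `φ g ≤ -1 < 0 = φ 1` gives `g < 1` (`φ_lt`).
* `lower`.  Hypothesis: `c ≤ H(α | η)` for every past-measurable finite `η`.  Claim:
  `c |B| ≤ H(name α B | ζ)` for every tail-measurable finite `ζ` and finite `B ⊆ G`.
  Induction on `B` (`frame_induction`): `B = insert g B'`, all `h ∈ B'` satisfy `h < g`.  By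
  `cent_name_insert`, `H(name α B | ζ) = H(name α B' | ζ) + H(α∘g | (name α B', ζ))`.  Apply
  `cent_mp` with `x ↦ g⁻¹ • x` to the second term: it equals
  `H(α | (name α B')∘g⁻¹, ζ∘g⁻¹)`, where `(name α B')(g⁻¹ • x) = (α ((h g⁻¹) • x))_{h∈B'}` with
  `h g⁻¹ < g g⁻¹ = 1` (`mul_right`), so it is `FM (past α lt)` (`fm_name_shift`), and `ζ∘g⁻¹` is
  `FM tail ≤ past` (`tail_comap`, `tail_le_past`).  So it is `≥ c` by the hypothesis, applied to
  `η` = the pair followed by an equivalence of the finite type with `Fin k`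
  (`Fintype.equivFin`, `cent_comp_inj_right`).
-/

open MeasureTheory Filter Topology Finset

namespace Pool.Pinsker

variable {X : Type*} {m0 : MeasurableSpace X} {μ : Measure X} [IsProbabilityMeasure μ]
variable {G : Type*} [Group G] [MulAction G X] [DecidableEq G]
variable {ι κ : Type*} [Fintype ι] [Fintype κ]

omit [DecidableEq G] [Fintype ι] in
theorem level_mono (α : X → ι) (φ : G → ℝ) : Monotone (level α φ) := by
  intro s t hst
  unfold level
  refine iSup₂_le fun g hg => ?_
  exact le_iSup₂_of_le g (le_trans hg hst) le_rfl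

omit [DecidableEq G] [Fintype ι] in
theorem sg_le (hG : ∀ g : G, MeasurePreserving (fun x : X => g • x) μ μ) (α : X → ι)
    (hα : FM m0 α) (g : G) : sg α g ≤ m0 := by
  rintro s ⟨t, -, rfl⟩
  exact (hG g).measurable (hα t)

omit [DecidableEq G] [Fintype ι] in
theorem level_le (hG : ∀ g : G, MeasurePreserving (fun x : X => g • x) μ μ) (α : X → ι)
    (hα : FM m0 α) (φ : G → ℝ) (t : ℝ) : level α φ t ≤ m0 :=
  iSup₂_le fun g _ => sg_le hG α hα g

omit [DecidableEq G] [Fintype ι] in
theorem past_le (hG : ∀ g : G, MeasurePreserving (fun x : X => g • x) μ μ) (α : X → ι)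
    (hα : FM m0 α) (lt : G → G → Prop) : past α lt ≤ m0 :=
  iSup₂_le fun g _ => sg_le hG α hα g

omit [DecidableEq G] [Fintype ι] in
theorem tail_le (hG : ∀ g : G, MeasurePreserving (fun x : X => g • x) μ μ) (α : X → ι)
    (hα : FM m0 α) (φ : G → ℝ) : tail α φ ≤ m0 :=
  (iInf_le _ 0).trans (level_le hG α hα φ 0)

omit [DecidableEq G] [Fintype ι] in
theorem sg_comap (α : X → ι) (g k : G) :
    (sg α g).comap (fun x : X => k • x) = sg α (g * k) := by
  unfold sg
  rw [MeasurableSpace.comap_comp]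
  congr 1
  funext x
  simp [mul_smul]

omit [DecidableEq G] [Fintype ι] in
theorem level_comap (α : X → ι) (φ : G → ℝ) (hφ : ∀ a b, φ (a * b) = φ a + φ b) (k : G) (t : ℝ) :
    (level α φ t).comap (fun x : X => k • x) ≤ level α φ (t + φ k) := by
  unfold level
  rw [MeasurableSpace.comap_iSup]
  refine iSup_le fun g => ?_
  rw [MeasurableSpace.comap_iSup]
  refine iSup_le fun hg => ?_
  rw [sg_comap]
  refine le_iSup₂_of_le (g * k) ?_ le_rfl
  have hg' : φ g ≤ t := hg
  show φ (g * k) ≤ t + φ k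
  rw [hφ]
  linarith

omit [DecidableEq G] [Fintype ι] in
theorem tail_comap (α : X → ι) (φ : G → ℝ) (hφ : ∀ a b, φ (a * b) = φ a + φ b) (k : G) :
    (tail α φ).comap (fun x : X => k • x) ≤ tail α φ := by
  refine le_iInf fun t => ?_
  have h1 : tail α φ ≤ level α φ (t - φ k) := iInf_le _ _
  refine (MeasurableSpace.comap_mono h1).trans ?_
  refine (level_comap α φ hφ k (t - φ k)).trans ?_
  rw [sub_add_cancel]

omit [Fintype ι] in
theorem tail_le_past (𝔉 : Frame G) (α : X → ι) : tail α 𝔉.φ ≤ past α 𝔉.lt := by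
  have h1 : tail α 𝔉.φ ≤ level α 𝔉.φ (-1) := iInf_le _ _
  refine h1.trans ?_
  unfold level past
  refine iSup₂_le fun g hg => ?_
  refine le_iSup₂_of_le g ?_ le_rfl
  have hg' : 𝔉.φ g ≤ -1 := hg
  have h0 : 𝔉.φ 1 = 0 := by
    have := 𝔉.φ_mul 1 1
    rw [mul_one] at this
    linarith
  exact 𝔉.φ_lt g 1 (by rw [h0]; linarith)

omit [DecidableEq G] [Fintype ι] in
theorem fm_level_zero (α : X → ι) (φ : G → ℝ) (hφ : ∀ a b, φ (a * b) = φ a + φ b) :
    FM (level α φ 0) α := by
  intro s
  have h0 : φ 1 = 0 := by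
    have := hφ 1 1
    rw [mul_one] at this
    linarith
  have h1 : sg α (1 : G) ≤ level α φ 0 := by
    unfold level
    exact le_iSup₂_of_le 1 h0.le le_rfl
  refine h1 _ ⟨s, trivial, ?_⟩
  ext x
  simp

theorem lower (𝔉 : Frame G) (hG : ∀ g : G, MeasurePreserving (fun x : X => g • x) μ μ)
    (α : X → ι) (hα : FM m0 α) (c : ℝ)
    (hc : ∀ (k : ℕ) (η : X → Fin k), FM (past α 𝔉.lt) η → c ≤ cent μ α η)
    (ζ : X → κ) (hζ : FM (tail α 𝔉.φ) ζ) (B : Finset G) :
    c * (B.card : ℝ) ≤ cent μ (name α B) ζ := by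
  have hζ0 : FM m0 ζ := fm_mono (tail_le hG α hα 𝔉.φ) hζ
  have hact : ∀ g : G, FM m0 (fun x => α (g • x)) := fun g => fm_act hG α hα g
  have hc' : ∀ {ρ : Type _} [Fintype ρ] (η : X → ρ), FM (past α 𝔉.lt) η → c ≤ cent μ α η := by
    intro ρ _ η hη
    classical
    have h1 := hc (Fintype.card ρ) (fun x => Fintype.equivFin ρ (η x)) (fm_comp hη _)
    rwa [cent_comp_inj_right α η (Fintype.equivFin ρ) (Fintype.equivFin ρ).injective] at h1
  refine frame_induction 𝔉 (fun B => c * (B.card : ℝ) ≤ cent μ (name α B) ζ) ?_ ?_ B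
  · have hN : FM m0 (name α (∅ : Finset G)) := fm_name α ∅ fun g hg => hact g
    simpa using cent_nonneg (name α (∅ : Finset G)) ζ hN hζ0
  · intro g B hg hlt ih
    rw [cent_name_insert α g B hg ζ, Finset.card_insert_of_notMem hg]
    have hN : FM m0 (name α B) := fm_name α B fun g hg => hact g
    have h2 : c ≤ cent μ (fun x => α (g • x)) (fun x => (name α B x, ζ x)) := by
      have hmp := cent_mp (μ := μ) (fun x : X => g⁻¹ • x) (hG g⁻¹) (fun x => α (g • x))
        (fun x => (name α B x, ζ x)) (hact g) (fm_pair hN hζ0)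
      rw [← hmp]
      simp only [smul_inv_smul]
      refine hc' _ (fm_pair ?_ ?_)
      · refine fm_name_shift α B g⁻¹ fun h hh => ?_
        have hlt1 : 𝔉.lt (h * g⁻¹) 1 := by
          have := 𝔉.mul_right h g g⁻¹ (hlt h hh)
          rwa [mul_inv_cancel] at this
        have hle : sg α (h * g⁻¹) ≤ past α 𝔉.lt := by
          unfold past
          exact le_iSup₂_of_le (h * g⁻¹) hlt1 le_rfl
        intro s
        exact hle _ ⟨s, trivial, rfl⟩
      · refine fm_mono (tail_le_past 𝔉 α) ?_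
        exact fm_measurable_comp hζ _ (tail_comap α 𝔉.φ 𝔉.φ_mul g⁻¹)
    push_cast
    linarith

end Pool.Pinsker
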