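import Pool.Agent.Pinsker.Defs
import Pool.Agent.Lib.RemotePast3

set_option autoImplicit false
set_option warn.classDefReducibility false

/-!
# Module MaxSmall: the remainder is small by the weak maximal inequality

`small_of_max`: as `Pool.Lib.RP.small_single` (same file structure; see its proof in
`Pool/Agent/Lib/RemotePast2.lean`), with `MaxProp` in place of the convergence of single averages.

Paper proof.  Let `ε > 0`.  Take `C = 2D` and let `δ` be as in `MaxProp` for `C` and `ε/3`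
(and `E` of measure `≤ ε/3 ≤ ε`).  By `exists_level` there is `t` with
`∫ |E(f|𝒜 t) - E(f|⨅𝒜)| ≤ δ`; let `c`, `e` be bounded measurable versions (`exists_version`) and
`v = |c - e|`, `0 ≤ v ≤ 2D`, `∫ v ≤ δ`.  Outside `E`, for all `N`,
`(2N+1)^{-1} Σ_{|n|≤N} v(g n x) ≤ ε/3`; so `N^{-1} Σ_{n<N} v(γ n x) ≤ N^{-1} (2N+1) ε/3 ≤ ε` for
`N ≥ 1` (the terms `n < N` are among the terms `|n| ≤ N`, `v ≥ 0`).  Almost everywhere
`v (γ n x) = |E(f|𝒜 t) - E(f|⨅𝒜)|(γ n x)` for all `n`.
-/

open MeasureTheory Filter Topology Finset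

namespace Pool.Pinsker

open Pool.Lib.Erg Pool.Lib.RM Pool.Lib.RP

theorem small_of_max {X : Type*} {m0 : MeasurableSpace X} {μ : Measure X}
    [IsProbabilityMeasure μ] {G : Type*} [Group G] [MulAction G X]
    (hG : ∀ g : G, MeasurePreserving (fun x : X => g • x) μ μ)
    (𝒜 : ℝ → MeasurableSpace X) (hmono : Monotone 𝒜) (hle : ∀ t, 𝒜 t ≤ m0)
    (f : X → ℂ) (hf : Measurable[m0] f) (D : ℝ) (hfD : ∀ x, ‖f x‖ ≤ D) (g : ℤ → G)
    (hmax : MaxProp μ (fun n x => g n • x))
    (γ : ℕ → G) (hγ : (∀ n : ℕ, γ n = g n) ∨ (∀ n : ℕ, γ n = g (-(n : ℤ)))) :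
    Small μ (fun n x => γ n • x) (fun t x => μ[f|𝒜 t] x - μ[f|⨅ t, 𝒜 t] x) := by
  intro ε hε
  obtain ⟨δ, hδ, hmaxv⟩ := hmax (D + D) (ε / 3) (by positivity)
  obtain ⟨t, ht⟩ := exists_level (μ := μ) 𝒜 hmono hle f hf D hfD δ hδ
  have hT : (⨅ t, 𝒜 t) ≤ m0 := (iInf_le _ 0).trans (hle 0)
  obtain ⟨c, hcm, hcD, hce⟩ := exists_version (μ := μ) (𝒜 t) (hle t) f hf D hfD
  obtain ⟨e, hem, heD, hee⟩ := exists_version (μ := μ) (⨅ t, 𝒜 t) hT f hf D hfD
  have hcm0 : Measurable[m0] c := fun u hu => hle t _ (hcm hu)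
  have hem0 : Measurable[m0] e := fun u hu => hT _ (hem hu)
  set v : X → ℝ := fun x => ‖c x - e x‖ with hvdef
  have hvm : Measurable[m0] v := (hcm0.sub hem0).norm
  have hvb : ∀ x, v x ≤ D + D := by
    intro x
    exact (norm_sub_le _ _).trans (add_le_add (hcD x) (heD x))
  have hvint : ∫ x, v x ∂μ ≤ δ := by
    refine le_of_eq_of_le ?_ ht
    apply integral_congr_ae
    filter_upwards [hce, hee] with x h1 h2
    simp only [hvdef, h1, h2]
  obtain ⟨E, hE, hEx⟩ := hmaxv v hvm (fun x => norm_nonneg _) hvb hvint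
  refine ⟨t, E, hE.trans (ENNReal.ofReal_le_ofReal (by linarith)), ?_⟩
  have h1 : ∀ᵐ x ∂μ, ∀ n, ‖μ[f|𝒜 t] (γ n • x) - μ[f|⨅ t, 𝒜 t] (γ n • x)‖ = v (γ n • x) := by
    rw [ae_all_iff]
    intro n
    have : ∀ᵐ x ∂μ, ‖μ[f|𝒜 t] x - μ[f|⨅ t, 𝒜 t] x‖ = v x := by
      filter_upwards [hce, hee] with x h1 h2
      simp only [hvdef, h1, h2]
    exact (hG (γ n)).quasiMeasurePreserving.ae this
  filter_upwards [h1] with x hx1 hxE
  filter_upwards [eventually_ge_atTop 1] with N hN1
  have hN := hEx x hxE N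
  have hNpos : (0 : ℝ) < N := by exact_mod_cast hN1
  have h2 : ∑ n ∈ range N, ‖μ[f|𝒜 t] (γ n • x) - μ[f|⨅ t, 𝒜 t] (γ n • x)‖ ≤
      ∑ n ∈ Finset.Icc (-(N : ℤ)) N, v (g n • x) := by
    simp_rw [hx1]
    rcases hγ with hγ | hγ
    · simp_rw [hγ]
      calc ∑ n ∈ range N, v (g (n : ℤ) • x) =
          ∑ z ∈ (range N).image (fun n : ℕ => (n : ℤ)), v (g z • x) := by
            rw [Finset.sum_image]
            intro p _ q _ h
            simpa using h
        _ ≤ _ := by
            apply Finset.sum_le_sum_of_subset_of_nonneg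
            · intro z hz
              rw [Finset.mem_image] at hz
              obtain ⟨n, hn, rfl⟩ := hz
              rw [mem_range] at hn
              rw [Finset.mem_Icc]
              constructor <;> omega
            · intro z _ _; exact norm_nonneg _
    · simp_rw [hγ]
      calc ∑ n ∈ range N, v (g (-(n : ℤ)) • x) =
          ∑ z ∈ (range N).image (fun n : ℕ => -(n : ℤ)), v (g z • x) := by
            rw [Finset.sum_image]
            intro p _ q _ h
            simp only [neg_inj] at h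
            exact_mod_cast h
        _ ≤ _ := by
            apply Finset.sum_le_sum_of_subset_of_nonneg
            · intro z hz
              rw [Finset.mem_image] at hz
              obtain ⟨n, hn, rfl⟩ := hz
              rw [mem_range] at hn
              rw [Finset.mem_Icc]
              constructor <;> omega
            · intro z _ _; exact norm_nonneg _
  rw [inv_mul_le_iff₀ (by positivity)] at hN
  rw [inv_mul_le_iff₀ hNpos]
  have hN1' : (1 : ℝ) ≤ N := by exact_mod_cast hN1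
  calc _ ≤ _ := h2
    _ ≤ (2 * (N : ℝ) + 1) * (ε / 3) := hN
    _ ≤ N * ε := by nlinarith

end Pool.Pinsker
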