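import Pool.Agent.Pinsker.CommChar

set_option autoImplicit false
set_option warn.classDefReducibility false

/-!
# The odometer of `ℤ^d`: a free action without entropy
-/

open MeasureTheory Filter Topology Finset
open scoped ENNReal

namespace Pool.Pinsker

/-- the finite quotients of `ℤ^d` -/
def Qd (d k : ℕ) : Type := Fin d → ZMod (k + 1)

instance (d k : ℕ) : AddCommGroup (Qd d k) := inferInstanceAs (AddCommGroup (Fin d → ZMod (k + 1)))
instance (d k : ℕ) : Fintype (Qd d k) := inferInstanceAs (Fintype (Fin d → ZMod (k + 1)))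
instance (d k : ℕ) : TopologicalSpace (Qd d k) := ⊥
instance (d k : ℕ) : DiscreteTopology (Qd d k) := ⟨rfl⟩
instance (d k : ℕ) : MeasurableSpace (Qd d k) := ⊤
instance (d k : ℕ) : MeasurableSingletonClass (Qd d k) := ⟨fun _ => trivial⟩
instance (d k : ℕ) : IsTopologicalAddGroup (Qd d k) where
  continuous_add := continuous_of_discreteTopology
  continuous_neg := continuous_of_discreteTopology
instance (d k : ℕ) : BorelSpace (Qd d k) := ⟨by
  rw [borel_eq_top_of_discrete]; rfl⟩

/-- the odometer -/
abbrev Odo (d : ℕ) : Type := (k : ℕ) → Qd d k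

/-- the invariant probability of the odometer -/
noncomputable def odoMeas (d : ℕ) : Measure (Odo d) :=
  Measure.addHaarMeasure (⊤ : TopologicalSpace.PositiveCompacts (Odo d))

instance (d : ℕ) : IsProbabilityMeasure (odoMeas d) := ⟨by
  have := Measure.addHaarMeasure_self (K₀ := (⊤ : TopologicalSpace.PositiveCompacts (Odo d)))
  simpa [odoMeas] using this⟩

/-- the point `v` of the odometer -/
def odoPt (d : ℕ) (v : Fin d → ℤ) : Odo d := fun k => (fun i => ((v i : ℤ) : ZMod (k + 1)))

/-- the maps of the odometer -/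
def odoT (d : ℕ) (i : Fin d) : Equiv.Perm (Odo d) := Equiv.addRight (odoPt d (Pi.single i 1))

theorem odoT_mp (d : ℕ) (i : Fin d) : MeasurePreserving (⇑(odoT d i)) (odoMeas d) (odoMeas d) := by
  unfold odoMeas odoT
  exact measurePreserving_add_right _ _

theorem odoT_symm (d : ℕ) (i : Fin d) : Measurable ⇑(odoT d i).symm := by
  have : (⇑(odoT d i).symm : Odo d → Odo d) = fun y => y + (-odoPt d (Pi.single i 1)) := by
    funext y
    rfl
  rw [this]
  exact measurable_add_const _

theorem odoPt_add (d : ℕ) (v w : Fin d → ℤ) : odoPt d (v + w) = odoPt d v + odoPt d w := by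
  funext k
  show (fun i => (((v + w) i : ℤ) : ZMod (k + 1))) = fun i => _
  funext i
  push_cast [Pi.add_apply]
  rfl

theorem odoPt_zero (d : ℕ) : odoPt d 0 = 0 := by
  have h := odoPt_add d 0 0
  rw [add_zero] at h
  exact (add_eq_left (a := odoPt d 0)).1 h.symm

theorem odoT_pow (d : ℕ) (i : Fin d) (n : ℤ) (y : Odo d) :
    (odoT d i ^ n) y = y + odoPt d (Pi.single i n) := by
  have hnat : ∀ (n : ℕ) (y : Odo d), (odoT d i ^ n) y = y + odoPt d (Pi.single i (n : ℤ)) := by
    intro n
    induction n with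
    | zero =>
      intro y
      simp [odoPt_zero]
    | succ n ih =>
      intro y
      rw [pow_succ, Equiv.Perm.mul_apply, ih]
      show y + odoPt d (Pi.single i 1) + _ = _
      rw [add_assoc, ← odoPt_add, ← Pi.single_add]
      congr 3
      push_cast
      ring
  cases n with
  | ofNat n =>
    rw [Int.ofNat_eq_natCast, zpow_natCast]
    exact hnat n y
  | negSucc n =>
    rw [zpow_negSucc, Equiv.Perm.inv_eq_iff_eq, hnat, add_assoc, ← odoPt_add, ← Pi.single_add]
    have : Int.negSucc n + ((n + 1 : ℕ) : ℤ) = 0 := by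
      rw [Int.negSucc_eq]
      push_cast
      ring
    rw [this, Pi.single_zero, odoPt_zero, add_zero]

theorem odoT_prod {d : ℕ} : ∀ {e : ℕ} (s : Fin e → Fin d) (v : Fin e → ℤ) (y : Odo d),
    (List.ofFn fun i => odoT d (s i) ^ (v i)).prod y =
      y + odoPt d (∑ i, Pi.single (s i) (v i)) := by
  intro e
  induction e with
  | zero =>
    intro s v y
    simp [odoPt_zero]
  | succ e ih =>
    intro s v y
    rw [List.ofFn_succ, List.prod_cons, Equiv.Perm.mul_apply, ih (fun i => s i.succ)
      (fun i => v i.succ), odoT_pow, Fin.sum_univ_succ, add_assoc, ← odoPt_add]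
    congr 2
    exact add_comm _ _

theorem odo_act {d : ℕ} (v : Fin d → ℤ) (y : Odo d) :
    (List.ofFn fun i => odoT d i ^ (v i)).prod y = y + odoPt d v := by
  have h := odoT_prod (d := d) (fun i => i) v y
  rw [h]
  congr 2
  exact Finset.univ_sum_single v

theorem odo_free {d : ℕ} (v : Fin d → ℤ) (y : Odo d) (h : y + odoPt d v = y) : v = 0 := by
  have h0 : odoPt d v = 0 := add_eq_left.1 h
  funext i
  have h1 := congrFun (congrFun h0 (v i).natAbs) i
  have h2 : (((v i : ℤ)) : ZMod ((v i).natAbs + 1)) = 0 := h1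
  rw [ZMod.intCast_zmod_eq_zero_iff_dvd] at h2
  have h3 := Int.natAbs_dvd_natAbs.2 h2
  rw [Int.natAbs_natCast] at h3
  by_contra hne
  have h4 := Nat.le_of_dvd (Int.natAbs_pos.2 hne) h3
  omega

theorem odo_comm {d : ℕ} (i j : Fin d) : Commute (odoT d i) (odoT d j) := by
  ext y : 1
  show (y + _) + _ = (y + _) + _
  rw [add_assoc, add_assoc]
  congr 1
  exact add_comm _ _

end Pool.Pinsker
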