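import Pool.Agent.Pinsker.Names
import Pool.Agent.Pinsker.Approx

set_option autoImplicit false
set_option warn.classDefReducibility false

/-!
# Module Sigma: the sets of zero entropy are exactly the sets of the Pinsker σ-algebra

* `pinsker_le`: generators are measurable.
* `zero_shift`: `Zero β → Zero (β ∘ g)`.  `H(name (β∘g) B) ≤ ...`: we need
  `name (β∘k) B x = (β (k • h • x))_{h∈B} = (β ((k h) • x))_{h ∈ B}`, i.e. the names on the set
  `k B`, not on `B k`.  With `F = {k}` the Følner property (`𝔉.folner {k}`) says that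
  `#{h ∈ Λ n : k h ∉ Λ n} = o(|Λ n|)`, so `name (β∘k) (Λ n)` is a function of
  `(name β (Λ n), (β((k h)•·))_{h ∈ Λ n, k h ∉ Λ n})` and by `cent_pair_le`-type subadditivity and
  `cent_le_log` (or `ent ≤ log |κ|` for each of the extra coordinates)
  `H(name (β∘k) (Λ n)) ≤ H(name β (Λ n)) + #{h ∈ Λ n : k h ∉ Λ n} log |κ|`.
* `zero_of_pinsker`: if `β : X → κ` is `FM (pinsker μ 𝔉)` then `Zero β`.  Let `J` be the type of
  all `B` with `MeasurableSet B ∧ Zero (· ∈ B)`; then `pinsker = ⨆_{B ∈ J} comap (· ∈ B) ⊤`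
  (`generateFrom` of the sets; `comap (· ∈ B) ⊤` is generated by `{B}`), so by `approx` for every
  `ε > 0` there are `B_1, .., B_k ∈ J` with `H(β | (1_{B_1}, .., 1_{B_k})) ≤ ε`.  Put
  `ξ = (1_{B_i})_i`.  For finite `Λ ⊆ G`,
  `H(name β Λ) ≤ H(name β Λ, name ξ Λ) = H(name ξ Λ) + H(name β Λ | name ξ Λ)`,
  `H(name ξ Λ) ≤ Σ_i H(name 1_{B_i} Λ)` (relabelling and `ent_pi_le`) `= o(|Λ n|)`, and
  `H(name β Λ | name ξ Λ) ≤ Σ_{g∈Λ} H(β∘g | name ξ Λ) ≤ Σ_{g∈Λ} H(β∘g | ξ∘g) = |Λ| H(β|ξ)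
  ≤ |Λ| ε` (`cent_name_le`, `cent_cond_factor`, `cent_mp`).
* `pinsker_comap`: `(pinsker).comap (k • ·) ≤ pinsker`: `comap` of `generateFrom`
  (`MeasurableSpace.comap_generateFrom`), preimages of measurable zero-entropy sets are measurable
  of zero entropy (`zero_shift`).
* `fm_pinsker_iff`: for a finite `β` that is `FM m0`: `FM pinsker β ↔ Zero β`.  `→` is
  `zero_of_pinsker`.  `←`: for a set `s`, the indicator of `β⁻¹ s` is a function of `β`, so its
  names are functions of the names of `β`; `ent_factor` gives `Zero`, so `β⁻¹ s` is a generator.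
-/

open MeasureTheory Filter Topology Finset

namespace Pool.Pinsker

variable {X : Type*} {m0 : MeasurableSpace X} {μ : Measure X} [IsProbabilityMeasure μ]
variable {G : Type*} [Group G] [MulAction G X] [DecidableEq G]
variable {κ : Type*} [Fintype κ]

omit [IsProbabilityMeasure μ] in
theorem pinsker_le (𝔉 : Frame G) : pinsker μ 𝔉 (X := X) ≤ m0 :=
  MeasurableSpace.generateFrom_le fun _ hB => hB.1

theorem fm_set {Y : Type*} {m' : MeasurableSpace Y} {B : Set Y} (hB : MeasurableSet[m'] B) :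
    FM m' (fun x => x ∈ B) := by
  intro s
  have h1 : Measurable[m'] (fun x => x ∈ B) := measurableSet_setOfPred.1 hB
  exact h1 trivial

/-- the name of a shifted partition is controlled by the name and a few extra coordinates -/
theorem ent_name_comp_le (hG : ∀ g : G, MeasurePreserving (fun x : X => g • x) μ μ)
    (β : X → κ) (hβ : FM m0 β) (k : G) (Λ : Finset G) :
    ent μ (name (fun x => β (k • x)) Λ) ≤ ent μ (name β Λ) +
      ((Λ.filter fun g => ¬ (({k} : Finset G).image (fun f => f * g) ⊆ Λ)).card : ℝ) *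
        Real.log (Fintype.card κ) := by
  set bad := Λ.filter fun g => ¬ (({k} : Finset G).image (fun f => f * g) ⊆ Λ) with hbad
  have hname : FM m0 (name β Λ) := fm_name β Λ fun g _ => fm_act hG β hβ g
  have hbm : ∀ j : bad, FM m0 (fun x : X => β ((k * (j : G)) • x)) :=
    fun j => fm_act hG β hβ (k * (j : G))
  have hbm' : FM m0 (fun x : X => fun j : bad => β ((k * (j : G)) • x)) := fm_pi hbm
  have h1 : ent μ (name (fun x => β (k • x)) Λ) ≤
      ent μ (fun x => ((fun j : bad => β ((k * (j : G)) • x)), name β Λ x)) := by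
    have hmem : ∀ g : Λ, k * (g : G) ∉ Λ → (g : G) ∈ bad := by
      intro g h
      rw [hbad, Finset.mem_filter]
      refine ⟨g.2, fun hsub => h (hsub ?_)⟩
      simp
    let e : ((bad → κ) × (Λ → κ)) → (Λ → κ) := fun p g =>
      if h : k * (g : G) ∈ Λ then p.2 ⟨k * (g : G), h⟩ else p.1 ⟨(g : G), hmem g h⟩
    apply ent_factor _ _ (fm_pair hbm' hname) e
    intro x
    funext g
    by_cases h : k * (g : G) ∈ Λ
    · simp only [e, dif_pos h, name, mul_smul]
    · simp only [e, dif_neg h, name, mul_smul]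
  have h2 := ent_pair (μ := μ) (fun x : X => fun j : bad => β ((k * (j : G)) • x)) (name β Λ)
  have h3 : cent μ (fun x : X => fun j : bad => β ((k * (j : G)) • x)) (name β Λ) ≤
      (bad.card : ℝ) * Real.log (Fintype.card κ) := by
    refine (cent_pi_le (fun (j : bad) (x : X) => β ((k * (j : G)) • x)) (name β Λ)
      hbm hname).trans ?_
    refine (Finset.sum_le_sum fun j _ => cent_le_log _ (name β Λ) (hbm j) hname).trans ?_
    rw [Finset.sum_const, nsmul_eq_mul, Finset.card_univ, Fintype.card_coe]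
  linarith

theorem zero_shift (𝔉 : Frame G) (hG : ∀ g : G, MeasurePreserving (fun x : X => g • x) μ μ)
    (β : X → κ) (hβ : FM m0 β) (h : Zero μ 𝔉 β) (k : G) : Zero μ 𝔉 (fun x => β (k • x)) := by
  have h1 : Tendsto (fun n : ℕ => ent μ (name β (𝔉.Λ n)) / ((𝔉.Λ n).card : ℝ) +
      ((((𝔉.Λ n).filter fun g => ¬ (({k} : Finset G).image (fun f => f * g) ⊆ 𝔉.Λ n)).card : ℝ) /
        (𝔉.Λ n).card) * Real.log (Fintype.card κ)) atTop (𝓝 0) := by
    have h2 := h.add ((𝔉.folner {k}).mul_const (Real.log (Fintype.card κ)))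
    rw [zero_mul, add_zero] at h2
    exact h2
  refine squeeze_zero (fun n => ?_) (fun n => ?_) h1
  · exact div_nonneg (ent_nonneg _) (Nat.cast_nonneg _)
  · have hpos : (0 : ℝ) < ((𝔉.Λ n).card : ℝ) := by exact_mod_cast 𝔉.Λ_card n
    rw [div_mul_eq_mul_div, ← add_div]
    exact div_le_div_of_nonneg_right (ent_name_comp_le hG β hβ k (𝔉.Λ n)) hpos.le

theorem ent_name_le_of_approx (hG : ∀ g : G, MeasurePreserving (fun x : X => g • x) μ μ)
    (β : X → κ) (hβ : FM m0 β) {J : Type*} [DecidableEq J] (α : J → X → Prop)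
    (hα : ∀ j, FM m0 (α j)) (F : Finset J) (ε : ℝ)
    (hF : cent μ β (fun x => fun j : F => α j x) ≤ ε) (Λ : Finset G) :
    ent μ (name β Λ) ≤ (∑ j ∈ F, ent μ (name (α j) Λ)) + (Λ.card : ℝ) * ε := by
  set ξ : X → (F → Prop) := fun x => fun j : F => α j x with hξdef
  have hξ : FM m0 ξ := fm_pi fun j : F => hα j
  have hnβ : FM m0 (name β Λ) := fm_name β Λ fun g _ => fm_act hG β hβ g
  have hnξ : FM m0 (name ξ Λ) := fm_name ξ Λ fun g _ => fm_act hG ξ hξ g
  have h1 : ent μ (name β Λ) ≤ ent μ (fun x => (name β Λ x, name ξ Λ x)) :=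
    ent_factor _ _ (fm_pair hnβ hnξ) Prod.fst fun _ => rfl
  have h2 := ent_pair (μ := μ) (name β Λ) (name ξ Λ)
  have h3 : cent μ (name β Λ) (name ξ Λ) ≤ (Λ.card : ℝ) * ε := by
    refine (cent_name_le hG β hβ Λ (name ξ Λ) hnξ).trans ?_
    rw [← nsmul_eq_mul, ← Finset.sum_const]
    apply Finset.sum_le_sum
    intro b hb
    have h4 : cent μ (fun x => β (b • x)) (name ξ Λ) ≤
        cent μ (fun x => β (b • x)) (fun x => ξ (b • x)) :=
      cent_cond_factor _ _ _ (fm_act hG β hβ b) hnξ (fun n => n ⟨b, hb⟩) fun _ => rfl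
    have h5 := cent_mp (fun x : X => b • x) (hG b) β ξ hβ hξ
    exact (h4.trans h5.le).trans hF
  have h6 : ent μ (name ξ Λ) ≤ ∑ j ∈ F, ent μ (name (α j) Λ) := by
    have h7 : ent μ (name ξ Λ) = ent μ (fun x => fun j : F => name (α j) Λ x) := by
      rw [← ent_comp_inj (μ := μ) (fun x => fun j : F => name (α j) Λ x)
        (fun (n : F → (Λ → Prop)) => fun (g : Λ) (j : F) => n j g) ?_]
      · rfl
      · intro n n' hnn'
        funext j g
        exact congrFun (congrFun hnn' g) j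
    rw [h7]
    refine (ent_pi_le (fun (j : F) (x : X) => name (α j) Λ x) fun j =>
      fm_name (α j) Λ fun g _ => fm_act hG (α j) (hα j) g).trans ?_
    rw [← Finset.sum_coe_sort F fun j => ent μ (name (α j) Λ)]
  linarith

theorem zero_of_pinsker (𝔉 : Frame G) (hG : ∀ g : G, MeasurePreserving (fun x : X => g • x) μ μ)
    (β : X → κ) (hβ : FM (pinsker μ 𝔉 (X := X)) β) : Zero μ 𝔉 β := by
  classical
  have hβ0 : FM m0 β := fm_mono (pinsker_le 𝔉) hβ
  let J := {B : Set X // MeasurableSet[m0] B ∧ Zero μ 𝔉 (fun x => x ∈ B)}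
  let α : J → X → Prop := fun B x => x ∈ B.1
  have hα : ∀ j, FM m0 (α j) := fun j => fm_set j.2.1
  have hle : pinsker μ 𝔉 (X := X) ≤ ⨆ j ∈ (Set.univ : Set J), MeasurableSpace.comap (α j) ⊤ := by
    apply MeasurableSpace.generateFrom_le
    intro B hB
    have h1 : MeasurableSpace.comap (α ⟨B, hB⟩) ⊤ ≤
        ⨆ j ∈ (Set.univ : Set J), MeasurableSpace.comap (α j) ⊤ :=
      le_iSup₂_of_le (⟨B, hB⟩ : J) (Set.mem_univ _) le_rfl
    apply h1
    refine ⟨{True}, trivial, ?_⟩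
    ext x
    simp [α]
  have hβ' : FM (⨆ j ∈ (Set.univ : Set J), MeasurableSpace.comap (α j) ⊤) β := fm_mono hle hβ
  rw [Zero, Metric.tendsto_atTop]
  intro ε hε
  obtain ⟨F, -, hF⟩ := approx (μ := μ) α hα Set.univ β hβ' (ε / 2) (by positivity)
  have hsum : Tendsto (fun n : ℕ => ∑ j ∈ F, ent μ (name (α j) (𝔉.Λ n)) / ((𝔉.Λ n).card : ℝ))
      atTop (𝓝 0) := by
    have h1 := tendsto_finsetSum F (f := fun (j : J) (n : ℕ) =>
      ent μ (name (α j) (𝔉.Λ n)) / ((𝔉.Λ n).card : ℝ)) (a := fun _ => (0 : ℝ))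
      (x := atTop) fun j _ => j.2.2
    rw [Finset.sum_const_zero] at h1
    exact h1
  rw [Metric.tendsto_atTop] at hsum
  obtain ⟨N, hN⟩ := hsum (ε / 2) (by positivity)
  refine ⟨N, fun n hn => ?_⟩
  have h1 := hN n hn
  have hpos : (0 : ℝ) < ((𝔉.Λ n).card : ℝ) := by exact_mod_cast 𝔉.Λ_card n
  have h2 := ent_name_le_of_approx hG β hβ0 α hα F (ε / 2) hF (𝔉.Λ n)
  have h3 : 0 ≤ ent μ (name β (𝔉.Λ n)) / ((𝔉.Λ n).card : ℝ) :=
    div_nonneg (ent_nonneg _) hpos.le
  rw [Real.dist_eq, sub_zero] at h1 ⊢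
  rw [abs_of_nonneg h3]
  rw [← Finset.sum_div] at h1
  have h4 := (abs_lt.1 h1).2
  rw [div_lt_iff₀ hpos] at h4 ⊢
  linarith

theorem fm_pinsker_iff (𝔉 : Frame G) (hG : ∀ g : G, MeasurePreserving (fun x : X => g • x) μ μ)
    (β : X → κ) (hβ : FM m0 β) : FM (pinsker μ 𝔉 (X := X)) β ↔ Zero μ 𝔉 β := by
  refine ⟨zero_of_pinsker 𝔉 hG β, fun h s => ?_⟩
  apply MeasurableSpace.measurableSet_generateFrom
  refine ⟨hβ s, ?_⟩
  refine squeeze_zero (fun n => ?_) (fun n => ?_) h
  · exact div_nonneg (ent_nonneg _) (Nat.cast_nonneg _)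
  · apply div_le_div_of_nonneg_right _ (Nat.cast_nonneg _)
    exact ent_factor _ _ (fm_name β _ fun g _ => fm_act hG β hβ g)
      (fun n g => n g ∈ s) fun _ => rfl

theorem pinsker_comap (𝔉 : Frame G) (hG : ∀ g : G, MeasurePreserving (fun x : X => g • x) μ μ)
    (k : G) : (pinsker μ 𝔉 (X := X)).comap (fun x : X => k • x) ≤ pinsker μ 𝔉 (X := X) := by
  rw [pinsker, MeasurableSpace.comap_generateFrom]
  apply MeasurableSpace.generateFrom_le
  rintro _ ⟨B, hB, rfl⟩
  apply MeasurableSpace.measurableSet_generateFrom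
  refine ⟨(hG k).measurable hB.1, ?_⟩
  exact zero_shift 𝔉 hG (fun x => x ∈ B) (fm_set hB.1) hB.2 k

theorem measurableSet_pinsker_iff (𝔉 : Frame G)
    (hG : ∀ g : G, MeasurePreserving (fun x : X => g • x) μ μ) (B : Set X) :
    MeasurableSet[pinsker μ 𝔉 (X := X)] B ↔
      (MeasurableSet[m0] B ∧ Zero μ 𝔉 (fun x => x ∈ B)) := by
  constructor
  · intro h
    exact ⟨pinsker_le 𝔉 _ h, zero_of_pinsker 𝔉 hG _ (fm_set h)⟩
  · intro h
    exact MeasurableSpace.measurableSet_generateFrom h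

end Pool.Pinsker
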