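import Pool.Agent.Pinsker.CondEnt

set_option autoImplicit false
set_option warn.classDefReducibility false

/-!
# Module Simple: bounded functions are uniform limits of functions of a finite partition

`exists_simple`: for measurable `F_1, .., F_m : X → ℂ` with `|F_j| ≤ D` and `δ > 0` there are
`k ≥ 0`, a measurable `α : X → (Fin m → Fin k)` and functions `h_j` on `Fin m → Fin k` with
`|h_j| ≤ D` and `|F_j(x) - h_j(α x)| ≤ δ` for all `x`.

Paper proof.  The closed ball of radius `D` in `ℂ` is compact, so there are `c_0, .., c_{k-1}` in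
it such that every `z` with `|z| ≤ D` has `|z - c_i| ≤ δ` for some `i`
(`(isCompact_closedBall 0 D).finite_cover_balls` or `IsCompact.elim_nhds_subcover`, then enumerate
the finite set).  `α x j` is the least `i` with `|F_j x - c_i| ≤ δ` (e.g. `Fin.find`/`Nat.find` or
`Finset.min'`; measurable because `{x | α x j = i} = {|F_j x - c_i| ≤ δ} \ ⋃_{i' < i} {..}`), and
`h_j v = c_{v j}`.  `FM m0 α` by `fm_pi`.  (If `X` is empty everything is trivial with `k = 1`...;
if `D < 0` then `X` is empty; the case `X` empty may be treated separately: `k = 0` when `m > 0`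
needs `h_j` on an empty type; it is simplest to take `k = 1`, `h_j = 0` only if `0 ≤ D`, so in the
statement we assume `0 ≤ D`.)
-/

open MeasureTheory Filter Topology Finset

namespace Pool.Pinsker

theorem exists_simple {X : Type*} {m0 : MeasurableSpace X} {m : ℕ} (F : Fin m → X → ℂ)
    (hF : ∀ j, Measurable (F j)) (D : ℝ) (hD : 0 ≤ D) (hFD : ∀ j x, ‖F j x‖ ≤ D) (δ : ℝ)
    (hδ : 0 < δ) : ∃ (k : ℕ) (α : X → (Fin m → Fin k)) (h : Fin m → (Fin m → Fin k) → ℂ),
      FM m0 α ∧ (∀ j v, ‖h j v‖ ≤ D) ∧ ∀ j x, ‖F j x - h j (α x)‖ ≤ δ := by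
  classical
  obtain ⟨t, htD, htf, htc⟩ := (isCompact_closedBall (0 : ℂ) D).finite_cover_balls hδ
  set T := htf.toFinset with hT
  set k := T.card with hk
  let c : Fin k → ℂ := fun i => (T.equivFin.symm i : ℂ)
  have hc : ∀ i, ‖c i‖ ≤ D := by
    intro i
    have h1 : c i ∈ T := (T.equivFin.symm i).2
    have h2 : c i ∈ t := by rwa [hT, Set.Finite.mem_toFinset] at h1
    simpa using htD h2
  have hex : ∀ j x, ∃ n : ℕ, ∃ h : n < k, ‖F j x - c ⟨n, h⟩‖ ≤ δ := by
    intro j x
    have h1 : F j x ∈ Metric.closedBall (0 : ℂ) D := by simpa using hFD j x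
    have h2 := htc h1
    simp only [Set.mem_iUnion, exists_prop] at h2
    obtain ⟨z, hz, hzb⟩ := h2
    have hzT : z ∈ T := by rw [hT, Set.Finite.mem_toFinset]; exact hz
    refine ⟨T.equivFin ⟨z, hzT⟩, (T.equivFin ⟨z, hzT⟩).2, ?_⟩
    have h3 : c ⟨T.equivFin ⟨z, hzT⟩, (T.equivFin ⟨z, hzT⟩).2⟩ = z := by
      show ((T.equivFin.symm (T.equivFin ⟨z, hzT⟩) : T) : ℂ) = z
      rw [Equiv.symm_apply_apply]
    rw [h3, ← dist_eq_norm]
    exact (Metric.mem_ball.mp hzb).le
  have hfind : ∀ j, Measurable fun x => Nat.find (hex j x) := by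
    intro j
    refine measurable_find (hex j) fun n => ?_
    by_cases hn : n < k
    · have h1 : {x | ∃ h : n < k, ‖F j x - c ⟨n, h⟩‖ ≤ δ} = {x | ‖F j x - c ⟨n, hn⟩‖ ≤ δ} := by
        ext x
        simp [hn]
      rw [h1]
      exact measurableSet_le ((hF j).sub_const _).norm measurable_const
    · have h1 : {x | ∃ h : n < k, ‖F j x - c ⟨n, h⟩‖ ≤ δ} = ∅ := by
        ext x
        simp [hn]
      rw [h1]
      exact MeasurableSet.empty
  refine ⟨k, fun x j => ⟨Nat.find (hex j x), (Nat.find_spec (hex j x)).1⟩,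
    fun j v => c (v j), ?_, fun j v => hc _, fun j x => (Nat.find_spec (hex j x)).2⟩
  refine fm_pi (f := fun j x => (⟨Nat.find (hex j x), (Nat.find_spec (hex j x)).1⟩ : Fin k))
    fun j s => ?_
  have h1 : (fun x => (⟨Nat.find (hex j x), (Nat.find_spec (hex j x)).1⟩ : Fin k)) ⁻¹' s =
      (fun x => Nat.find (hex j x)) ⁻¹' {n | ∃ h : n < k, (⟨n, h⟩ : Fin k) ∈ s} := by
    ext x
    simp only [Set.mem_preimage, Set.mem_setOf_eq]
    constructor
    · intro h
      exact ⟨_, h⟩
    · rintro ⟨_, h⟩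
      exact h
  rw [h1]
  exact hfind j (MeasurableSet.of_discrete)

end Pool.Pinsker
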