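import Pool.Agent.Pinsker.Lower
import Pool.Agent.Pinsker.Approx

set_option autoImplicit false
set_option warn.classDefReducibility false

/-!
# Module ZeroTail: partitions measurable for the remote past have zero entropy

`zero_tail`: if `β : X → κ` is `FM (tail α φ)` then `ent μ (name β (Λ n)) / |Λ n| → 0`.

Paper proof.  Let `c` be the infimum of `H(α | η)` over all `k` and all `η : X → Fin k` that are
`FM (past α lt)` (a nonempty set of reals `≥ 0`: `cent_nonneg`; take `η` constant in `Fin 1`).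
Let `ε > 0`.  There is such an `η` with `H(α|η) ≤ c + ε`.  `β` is `FM (past)` (`tail_le_past`).
By `approx` (index type `J = G`, `α g = (x ↦ α (g • x))`, `S = {g | g < 1}`) there are finite
`F₁, F₂ ⊆ {g < 1}` with `H(β | name α F₁) ≤ ε`, `H(η | name α F₂) ≤ ε`; put `F = F₁ ∪ F₂` (the
function `fun x => fun j : F => α (j • x)` in `approx` is `name α F` by definition); with
`cent_cond_factor` and `name_factor` both bounds hold for `F`.  Then
`H(α | name α F) ≤ H(α|η) + H(η | name α F) ≤ c + 2ε` (`cent_triangle`).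
Let `γ = (α, β)`.  `name α F` is a function of `name γ F`, so
`H(γ | name γ F) ≤ H(γ | name α F) ≤ H(α | name α F) + H(β | name α F) ≤ c + 3ε`
(`cent_cond_factor`, `cent_pair_le`).
By `upper_lim` for `γ`: `ent (name γ (Λ n)) ≤ |Λ n| (c + 4ε)` for large `n`.
On the other hand (`ent_name_pair`, `ent_pair`)
`ent (name γ Λ) = ent (name α Λ, name β Λ) = ent (name β Λ) + H(name α Λ | name β Λ)` and
`name β Λ` is `FM (tail α φ)` (`fm_name`, `tail_comap`, `fm_measurable_comp`), so by `lower` the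
last term is `≥ c |Λ n|`.  Hence `0 ≤ ent (name β (Λ n)) ≤ 4 ε |Λ n|` for large `n`.
-/

open MeasureTheory Filter Topology Finset

namespace Pool.Pinsker

variable {X : Type*} {m0 : MeasurableSpace X} {μ : Measure X} [IsProbabilityMeasure μ]
variable {G : Type*} [Group G] [MulAction G X] [DecidableEq G]
variable {ι κ : Type*} [Fintype ι] [Fintype κ]

/-- the bound for a fixed `ε` -/
theorem zero_tail_aux (𝔉 : Frame G) (hG : ∀ g : G, MeasurePreserving (fun x : X => g • x) μ μ)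
    (α : X → ι) (hα : FM m0 α) (β : X → κ) (hβ : FM (tail α 𝔉.φ) β) (ε : ℝ) (hε : 0 < ε) :
    ∀ᶠ n : ℕ in atTop, ent μ (name β (𝔉.Λ n)) ≤ 4 * ε * ((𝔉.Λ n).card : ℝ) := by
  classical
  have hple : past α 𝔉.lt ≤ m0 := past_le hG α hα 𝔉.lt
  have htle : tail α 𝔉.φ ≤ m0 := tail_le hG α hα 𝔉.φ
  set S : Set ℝ := {r | ∃ (k : ℕ) (η : X → Fin k), FM (past α 𝔉.lt) η ∧ r = cent μ α η} with hS
  have hSb : BddBelow S := by
    refine ⟨0, ?_⟩
    rintro r ⟨k, η, hη, rfl⟩
    exact cent_nonneg α η hα (fm_mono hple hη)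
  have hSn : S.Nonempty := by
    refine ⟨cent μ α (fun _ : X => (0 : Fin 1)), 1, fun _ => 0, ?_, rfl⟩
    intro s
    by_cases h : (0 : Fin 1) ∈ s
    · have : (fun _ : X => (0 : Fin 1)) ⁻¹' s = Set.univ := by
        ext x; simp [h]
      rw [this]; exact @MeasurableSet.univ X (past α 𝔉.lt)
    · have : (fun _ : X => (0 : Fin 1)) ⁻¹' s = ∅ := by
        ext x; simp [h]
      rw [this]; exact @MeasurableSet.empty X (past α 𝔉.lt)
  set c : ℝ := sInf S with hc
  have hcle : ∀ (k : ℕ) (η : X → Fin k), FM (past α 𝔉.lt) η → c ≤ cent μ α η :=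
    fun k η hη => csInf_le hSb ⟨k, η, hη, rfl⟩
  obtain ⟨r, ⟨k, η, hη, rfl⟩, hr⟩ := exists_lt_of_csInf_lt hSn (show sInf S < c + ε by linarith)
  have hη0 : FM m0 η := fm_mono hple hη
  have hβ0 : FM m0 β := fm_mono htle hβ
  have hβp : FM (past α 𝔉.lt) β := fm_mono (tail_le_past 𝔉 α) hβ
  have hact : ∀ g : G, FM m0 (fun x => α (g • x)) := fun g => fm_act hG α hα g
  obtain ⟨F₁, hF₁, h₁⟩ := approx (μ := μ) (fun (g : G) (x : X) => α (g • x)) hact
    {g : G | 𝔉.lt g 1} β hβp ε hε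
  obtain ⟨F₂, hF₂, h₂⟩ := approx (μ := μ) (fun (g : G) (x : X) => α (g • x)) hact
    {g : G | 𝔉.lt g 1} η hη ε hε
  change cent μ β (name α F₁) ≤ ε at h₁
  change cent μ η (name α F₂) ≤ ε at h₂
  set F : Finset G := F₁ ∪ F₂ with hF
  have hFlt : ∀ f ∈ F, 𝔉.lt f 1 := by
    intro f hf
    rcases Finset.mem_union.1 hf with h | h
    · exact hF₁ h
    · exact hF₂ h
  have hnF : FM m0 (name α F) := fm_name α F (fun g _ => hact g)
  have hnF₁ : FM m0 (name α F₁) := fm_name α F₁ (fun g _ => hact g)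
  have hnF₂ : FM m0 (name α F₂) := fm_name α F₂ (fun g _ => hact g)
  have k₁ : cent μ β (name α F) ≤ ε := by
    obtain ⟨e, he⟩ := name_factor (X := X) α F F₁ Finset.subset_union_left
    exact le_trans (cent_cond_factor β (name α F₁) (name α F) hβ0 hnF e he) h₁
  have k₂ : cent μ η (name α F) ≤ ε := by
    obtain ⟨e, he⟩ := name_factor (X := X) α F F₂ Finset.subset_union_right
    exact le_trans (cent_cond_factor η (name α F₂) (name α F) hη0 hnF e he) h₂
  have k₃ : cent μ α (name α F) ≤ c + 2 * ε := by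
    have := cent_triangle (μ := μ) α (name α F) η hα hnF hη0
    linarith
  -- the pair
  have hγ : FM m0 (fun x => (α x, β x)) := fm_pair hα hβ0
  have hnγ : FM m0 (name (fun x => (α x, β x)) F) :=
    fm_name _ F (fun g _ => fm_act hG _ hγ g)
  have k₄ : cent μ (fun x => (α x, β x)) (name (fun x => (α x, β x)) F) ≤ c + 3 * ε := by
    have e1 : cent μ (fun x => (α x, β x)) (name (fun x => (α x, β x)) F) ≤
        cent μ (fun x => (α x, β x)) (name α F) :=
      cent_cond_factor (fun x => (α x, β x)) (name α F) (name (fun x => (α x, β x)) F) hγ hnγ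
        (fun n g => (n g).1) (fun x => rfl)
    have e2 := cent_pair_le (μ := μ) α β (name α F) hα hβ0 hnF
    linarith
  have k₅ := upper_lim (μ := μ) 𝔉 hG (fun x => (α x, β x)) hγ F hFlt ε hε
  filter_upwards [k₅] with n hn
  have hnβ : FM (tail α 𝔉.φ) (name β (𝔉.Λ n)) := fm_name β (𝔉.Λ n) (fun g _ =>
    fm_measurable_comp hβ (fun x => g • x) (tail_comap α 𝔉.φ 𝔉.φ_mul g))
  have k₆ := lower (μ := μ) 𝔉 hG α hα c hcle (name β (𝔉.Λ n)) hnβ (𝔉.Λ n)
  rw [ent_name_pair, ent_pair] at hn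
  have hcard : (0 : ℝ) ≤ ((𝔉.Λ n).card : ℝ) := Nat.cast_nonneg _
  nlinarith

theorem zero_tail (𝔉 : Frame G) (hG : ∀ g : G, MeasurePreserving (fun x : X => g • x) μ μ)
    (α : X → ι) (hα : FM m0 α) (β : X → κ) (hβ : FM (tail α 𝔉.φ) β) : Zero μ 𝔉 β := by
  unfold Zero
  rw [Metric.tendsto_atTop]
  intro ε hε
  obtain ⟨N, hN⟩ := eventually_atTop.1
    (zero_tail_aux (μ := μ) 𝔉 hG α hα β hβ (ε / 8) (by positivity))
  refine ⟨N, fun n hn => ?_⟩
  have h := hN n hn
  have hpos : (0 : ℝ) < ((𝔉.Λ n).card : ℝ) := by exact_mod_cast 𝔉.Λ_card n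
  have h0 : 0 ≤ ent μ (name β (𝔉.Λ n)) / ((𝔉.Λ n).card : ℝ) :=
    div_nonneg (ent_nonneg _) hpos.le
  rw [Real.dist_eq, sub_zero, abs_of_nonneg h0, div_lt_iff₀ hpos]
  nlinarith

theorem tail_le_pinsker (𝔉 : Frame G) (hG : ∀ g : G, MeasurePreserving (fun x : X => g • x) μ μ)
    (α : X → ι) (hα : FM m0 α) : tail α 𝔉.φ ≤ pinsker μ 𝔉 (X := X) := by
  classical
  intro B hB
  refine MeasurableSpace.measurableSet_generateFrom ⟨tail_le hG α hα 𝔉.φ B hB, ?_⟩
  refine zero_tail 𝔉 hG α hα (fun x => x ∈ B) ?_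
  intro s
  have : (fun x : X => x ∈ B) ⁻¹' s = (if True ∈ s then B else ∅) ∪ (if False ∈ s then Bᶜ else ∅) := by
    ext x
    by_cases hx : x ∈ B <;> by_cases h1 : True ∈ s <;> by_cases h2 : False ∈ s <;>
      simp [hx, h1, h2]
  rw [this]
  refine @MeasurableSet.union X (tail α 𝔉.φ) _ _ ?_ ?_
  · split_ifs
    · exact hB
    · exact @MeasurableSet.empty X (tail α 𝔉.φ)
  · split_ifs
    · exact @MeasurableSet.compl X _ (tail α 𝔉.φ) hB
    · exact @MeasurableSet.empty X (tail α 𝔉.φ)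

end Pool.Pinsker
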