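import Pool.Agent.Pinsker.TailThm
import Pool.Agent.Pinsker.ZeroTail
import Pool.Agent.Pinsker.Sigma
import Pool.Agent.Pinsker.Simple

set_option autoImplicit false
set_option warn.classDefReducibility false

/-!
# Module OneZero: if one function is orthogonal to the Pinsker factor the averages tend to zero

Paper proof of `one_zero`.  Let `D ≥ 1` bound all the `|F_j|`, let `δ ∈ (0, 1)` and let `α`, `h_j`
be as in `exists_simple` (so `|F_j - h_j∘α| ≤ δ`, `|h_j| ≤ D`).  Let `e_j = E(h_j∘α | tail α φ)`,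
`|e_j| ≤ D` a.e.
(1) Everywhere `|∏ F_j(g_j(n)x) - ∏ h_j(α(g_j(n) x))| ≤ m D^m δ` (`Pool.Lib.RP.norm_prod_sub`).
(2) By `tail_thm` the averages of `∏ h_j(α(g_j(n)x)) - ∏ e_j(g_j(n) x)` tend to `0` a.e.
(3) `|e_a| ≤ δ` a.e.: `tail α φ ≤ Π := pinsker μ 𝔉 ≤ m0` (`tail_le_pinsker`, `pinsker_le`), so
`e_a = E(E(h_a∘α|Π) | tail)` (`condExp_condExp_of_le`), and
`E(h_a∘α|Π) = E(h_a∘α - F_a|Π)` a.e. (as `E(F_a|Π) = 0`) has absolute value `≤ δ` a.e.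
(`Convex.condExp_mem` for the closed ball, see its use in
`Pool/Agent/Results/MP_4d8f14_an/RemotePast.lean`), and again for `E(·|tail)`.
So a.e. `|∏ e_j(g_j(n)x)| ≤ δ D^m` for all `n` (`(hG _).quasiMeasurePreserving.ae`).
Hence a.e. `limsup_N |A_N| ≤ (m+1) D^m δ`.  Take `δ = 1/(i+1)`, `i = 0, 1, ..` and intersect the
countably many sets of full measure.
-/

open MeasureTheory Filter Topology Finset

namespace Pool.Pinsker

open Pool.Lib.Erg Pool.Lib.RM Pool.Lib.RP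

namespace OneZero

lemma avg_two_le (c : ℤ → ℂ) (K : ℝ) (hc : ∀ n, ‖c n‖ ≤ K) (N : ℕ) :
    ‖(2 * (N : ℂ) + 1)⁻¹ * ∑ n ∈ Finset.Icc (-(N : ℤ)) N, c n‖ ≤ K := by
  have h0 : (0 : ℝ) < 2 * (N : ℝ) + 1 := by positivity
  have h1 : ‖(2 * (N : ℂ) + 1)⁻¹‖ = (2 * (N : ℝ) + 1)⁻¹ := by
    rw [norm_inv]
    congr 1
    have : (2 * (N : ℂ) + 1) = ((2 * (N : ℝ) + 1 : ℝ) : ℂ) := by push_cast; rfl
    rw [this, Complex.norm_real, Real.norm_eq_abs, abs_of_pos h0]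
  rw [norm_mul, h1, inv_mul_le_iff₀ h0]
  refine (norm_sum_le _ _).trans ((Finset.sum_le_sum fun n _ => hc n).trans ?_)
  rw [Finset.sum_const, Int.card_Icc, nsmul_eq_mul]
  have hcard : (((N : ℤ) + 1 - -(N : ℤ)).toNat : ℝ) = 2 * (N : ℝ) + 1 := by
    have : ((N : ℤ) + 1 - -(N : ℤ)).toNat = 2 * N + 1 := by omega
    rw [this]; push_cast; ring
  rw [hcard]

/-- conditional expectations of bounded functions are bounded -/
lemma condExp_bdd {X : Type*} {m0 : MeasurableSpace X} {μ : Measure X} [IsProbabilityMeasure μ]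
    (m' : MeasurableSpace X) (f : X → ℂ) (D : ℝ) (_hD : 0 ≤ D) (hfD : ∀ᵐ x ∂μ, ‖f x‖ ≤ D) :
    ∀ᵐ x ∂μ, ‖(μ[f|m']) x‖ ≤ D :=
  ae_bdd_norm_condExp_of_ae_bdd_norm (m := m') (R := D) (f := f) (μ := μ) hfD

lemma prod_le {m : ℕ} (a : Fin m) (e : Fin m → ℂ) (D δ : ℝ) (hD : 1 ≤ D) (_hδ : 0 ≤ δ)
    (he : ∀ j, ‖e j‖ ≤ D) (ha : ‖e a‖ ≤ δ) : ‖∏ j, e j‖ ≤ D ^ m * δ := by
  have hD0 : (0 : ℝ) ≤ D := by linarith
  rw [norm_prod, ← Finset.mul_prod_erase univ _ (Finset.mem_univ a), mul_comm]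
  refine mul_le_mul ?_ ha (norm_nonneg _) (by positivity)
  calc ∏ j ∈ univ.erase a, ‖e j‖ ≤ ∏ _j ∈ univ.erase a, D :=
        Finset.prod_le_prod (fun j _ => norm_nonneg _) (fun j _ => he j)
    _ = D ^ (univ.erase a).card := by rw [Finset.prod_const]
    _ ≤ D ^ m := by
        refine pow_le_pow_right₀ hD ?_
        refine (Finset.card_le_card (Finset.erase_subset _ _)).trans ?_
        simp

/-- the estimate for one approximating partition -/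
lemma eventually_le {X : Type*} {m0 : MeasurableSpace X} {μ : Measure X} [IsProbabilityMeasure μ]
    {G : Type*} [Group G] [MulAction G X] [DecidableEq G]
    (hG : ∀ g : G, MeasurePreserving (fun x : X => g • x) μ μ) (𝔉 : Frame G)
    {m : ℕ} (g : Fin m → ℤ → G)
    (p : Fin m → Polynomial ℝ) (hp : ∀ j (n : ℤ), 𝔉.φ (g j n) = (p j).eval (n : ℝ))
    (h1 : ∀ j, ∃ a b : ℝ, (p j).eval a ≠ (p j).eval b)
    (h2 : ∀ i j, i ≠ j → ∃ a b : ℝ, (p j - p i).eval a ≠ (p j - p i).eval b)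
    (hmax : ∀ j, MaxProp μ (fun n x => g j n • x))
    (F : Fin m → X → ℂ) (hF : ∀ j, Measurable[m0] (F j)) (D : ℝ) (hD : 1 ≤ D)
    (hFD : ∀ j x, ‖F j x‖ ≤ D)
    (a : Fin m) (ha : μ[F a|pinsker μ 𝔉 (X := X)] =ᵐ[μ] 0) (δ : ℝ) (hδ : 0 < δ) :
    ∀ᵐ x ∂μ, ∀ᶠ N : ℕ in atTop, ‖(2 * (N : ℂ) + 1)⁻¹ * ∑ n ∈ Finset.Icc (-(N : ℤ)) N,
      ∏ j, F j (g j n • x)‖ ≤ (D ^ m * (m + 1) + 1) * δ := by
  have hD0 : (0 : ℝ) ≤ D := by linarith
  obtain ⟨k, α, h, hα, hhD, hFh⟩ := exists_simple F hF D hD0 hFD δ hδ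
  have htail := tail_thm hG 𝔉.φ 𝔉.φ_mul α hα g p hp h1 h2 hmax h
  set e : Fin m → X → ℂ := fun j => μ[fun x => h j (α x)|tail α 𝔉.φ] with he
  have hle : tail α 𝔉.φ ≤ pinsker μ 𝔉 (X := X) := tail_le_pinsker 𝔉 hG α hα
  have hpl : pinsker μ 𝔉 (X := X) ≤ m0 := pinsker_le 𝔉
  have hmeas : ∀ j, Measurable[m0] (fun x => h j (α x)) := by
    intro j s hs
    exact hα ((h j) ⁻¹' s)
  have hint : ∀ j, Integrable (fun x => h j (α x)) μ := fun j =>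
    Integrable.of_bound (hmeas j).aestronglyMeasurable D (Eventually.of_forall fun x => hhD j _)
  have hintF : ∀ j, Integrable (F j) μ := fun j =>
    Integrable.of_bound (hF j).aestronglyMeasurable D (Eventually.of_forall fun x => hFD j x)
  have heD : ∀ᵐ x ∂μ, ∀ j, ‖e j x‖ ≤ D := by
    rw [ae_all_iff]
    intro j
    exact condExp_bdd _ _ D hD0 (Eventually.of_forall fun x => hhD j _)
  have hea : ∀ᵐ x ∂μ, ‖e a x‖ ≤ δ := by
    have hP : ∀ᵐ x ∂μ, ‖(μ[fun x => h a (α x)|pinsker μ 𝔉 (X := X)]) x‖ ≤ δ := by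
      have e1 : μ[(fun x => h a (α x)) - F a|pinsker μ 𝔉 (X := X)] =ᵐ[μ]
          μ[fun x => h a (α x)|pinsker μ 𝔉 (X := X)] - μ[F a|pinsker μ 𝔉 (X := X)] :=
        condExp_sub (hint a) (hintF a) _
      have e2 : ∀ᵐ x ∂μ, ‖(μ[(fun x => h a (α x)) - F a|pinsker μ 𝔉 (X := X)]) x‖ ≤ δ := by
        refine condExp_bdd _ _ δ hδ.le (Eventually.of_forall fun x => ?_)
        rw [Pi.sub_apply, norm_sub_rev]
        exact hFh a x
      filter_upwards [e1, e2, ha] with x h1 h2 h3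
      rw [h1, Pi.sub_apply, h3] at h2
      simpa using h2
    have e3 : μ[μ[fun x => h a (α x)|pinsker μ 𝔉 (X := X)]|tail α 𝔉.φ] =ᵐ[μ] e a :=
      condExp_condExp_of_le hle hpl
    have e4 := condExp_bdd (μ := μ) (tail α 𝔉.φ) _ δ hδ.le hP
    filter_upwards [e3, e4] with x h3 h4
    rw [← h3]
    exact h4
  have hall : ∀ᵐ x ∂μ, ∀ (i : Fin m) (n : ℤ), (∀ j, ‖e j (g i n • x)‖ ≤ D) ∧ ‖e a (g i n • x)‖ ≤ δ := by
    rw [ae_all_iff]
    intro i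
    rw [ae_all_iff]
    intro n
    exact (hG (g i n)).quasiMeasurePreserving.ae (heD.and hea)
  filter_upwards [htail, hall] with x hx1 hx2
  have hev := (tendsto_zero_iff_norm_tendsto_zero.1 hx1).eventually (gt_mem_nhds hδ)
  filter_upwards [hev] with N hN
  have hsplit : (2 * (N : ℂ) + 1)⁻¹ * ∑ n ∈ Finset.Icc (-(N : ℤ)) N, ∏ j, F j (g j n • x) =
      (2 * (N : ℂ) + 1)⁻¹ * ∑ n ∈ Finset.Icc (-(N : ℤ)) N,
        (∏ j, F j (g j n • x) - ∏ j, h j (α (g j n • x))) +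
      (2 * (N : ℂ) + 1)⁻¹ * ∑ n ∈ Finset.Icc (-(N : ℤ)) N,
        (∏ j, h j (α (g j n • x)) - ∏ j, e j (g j n • x)) +
      (2 * (N : ℂ) + 1)⁻¹ * ∑ n ∈ Finset.Icc (-(N : ℤ)) N, ∏ j, e j (g j n • x) := by
    rw [← mul_add, ← mul_add, ← Finset.sum_add_distrib, ← Finset.sum_add_distrib]
    congr 1
    refine Finset.sum_congr rfl fun n _ => ?_
    ring
  have b1 : ‖(2 * (N : ℂ) + 1)⁻¹ * ∑ n ∈ Finset.Icc (-(N : ℤ)) N,
        (∏ j, F j (g j n • x) - ∏ j, h j (α (g j n • x)))‖ ≤ D ^ m * (m * δ) := by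
    refine avg_two_le _ _ (fun n => ?_) N
    have h10 := norm_prod_sub (univ : Finset (Fin m)) (fun j => F j (g j n • x))
      (fun j => h j (α (g j n • x))) D hD (fun j => hFD j _) (fun j => hhD j _)
    rw [Finset.card_univ, Fintype.card_fin] at h10
    refine h10.trans (mul_le_mul_of_nonneg_left ?_ (by positivity))
    refine (Finset.sum_le_sum fun j _ => hFh j (g j n • x)).trans ?_
    simp
  have b3 : ‖(2 * (N : ℂ) + 1)⁻¹ * ∑ n ∈ Finset.Icc (-(N : ℤ)) N, ∏ j, e j (g j n • x)‖ ≤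
      D ^ m * δ := by
    refine avg_two_le _ _ (fun n => ?_) N
    exact prod_le a (fun j => e j (g j n • x)) D δ hD hδ.le (fun j => (hx2 j n).1 j) (hx2 a n).2
  rw [hsplit]
  refine (norm_add₃_le).trans ?_
  have b2 := hN.le
  calc _ ≤ D ^ m * (m * δ) + δ + D ^ m * δ := add_le_add (add_le_add b1 b2) b3
    _ = (D ^ m * (m + 1) + 1) * δ := by ring

end OneZero

open OneZero

theorem one_zero {X : Type*} {m0 : MeasurableSpace X} {μ : Measure X} [IsProbabilityMeasure μ]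
    {G : Type*} [Group G] [MulAction G X] [DecidableEq G]
    (hG : ∀ g : G, MeasurePreserving (fun x : X => g • x) μ μ) (𝔉 : Frame G)
    {m : ℕ} (g : Fin m → ℤ → G)
    (p : Fin m → Polynomial ℝ) (hp : ∀ j (n : ℤ), 𝔉.φ (g j n) = (p j).eval (n : ℝ))
    (h1 : ∀ j, ∃ a b : ℝ, (p j).eval a ≠ (p j).eval b)
    (h2 : ∀ i j, i ≠ j → ∃ a b : ℝ, (p j - p i).eval a ≠ (p j - p i).eval b)
    (hmax : ∀ j, MaxProp μ (fun n x => g j n • x))
    (F : Fin m → X → ℂ) (hF : ∀ j, Measurable[m0] (F j)) (D : ℝ) (hFD : ∀ j x, ‖F j x‖ ≤ D)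
    (a : Fin m) (ha : μ[F a|pinsker μ 𝔉 (X := X)] =ᵐ[μ] 0) :
    ∀ᵐ x ∂μ, Tendsto (fun N : ℕ => (2 * (N : ℂ) + 1)⁻¹ * ∑ n ∈ Finset.Icc (-(N : ℤ)) N,
      ∏ j, F j (g j n • x)) atTop (𝓝 0) := by
  set D' := max D 1 with hD'
  have hev : ∀ i : ℕ, ∀ᵐ x ∂μ, ∀ᶠ N : ℕ in atTop,
      ‖(2 * (N : ℂ) + 1)⁻¹ * ∑ n ∈ Finset.Icc (-(N : ℤ)) N, ∏ j, F j (g j n • x)‖ ≤
        (D' ^ m * (m + 1) + 1) * (1 / ((i : ℝ) + 1)) := fun i =>
    eventually_le hG 𝔉 g p hp h1 h2 hmax F hF D' (le_max_right _ _)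
      (fun j x => (hFD j x).trans (le_max_left _ _)) a ha (1 / ((i : ℝ) + 1)) (by positivity)
  rw [← ae_all_iff] at hev
  filter_upwards [hev] with x hx
  rw [tendsto_zero_iff_norm_tendsto_zero]
  have hlim : Tendsto (fun i : ℕ => (D' ^ m * (m + 1) + 1) * (1 / ((i : ℝ) + 1))) atTop
      (𝓝 ((D' ^ m * (m + 1) + 1) * 0)) :=
    tendsto_one_div_add_atTop_nhds_zero_nat.const_mul _
  rw [mul_zero] at hlim
  rw [Metric.tendsto_atTop]
  intro ε hε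
  obtain ⟨i, hi⟩ := (hlim.eventually (gt_mem_nhds hε)).exists
  obtain ⟨N0, hN0⟩ := eventually_atTop.1 (hx i)
  refine ⟨N0, fun N hN => ?_⟩
  rw [dist_zero_right, norm_norm]
  exact (hN0 N hN).trans_lt hi

end Pool.Pinsker
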