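import Pool.Agent.Pinsker.Heights
import Pool.Agent.Pinsker.MaxSmall
import Pool.Agent.Pinsker.Lower

set_option autoImplicit false
set_option warn.classDefReducibility false

/-!
# Module TailThm: the remote past of a finite partition is characteristic

`tail_thm`: the averages of `∏ h_j(α(g_j(n) x))` and of `∏ E(h_j∘α | tail)(g_j(n) x)` have
difference tending to zero almost everywhere.

Paper proof: this is `Pool.Lib.RP.replace_all` (helper21) for the filtration `𝒜 = level α φ`
(`level_mono`, `level_le`, `level_comap`; `⨅ t, 𝒜 t = tail α φ` by definition), `R0 = univ`, for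
`γ_j(n) = g_j(n)` and for `γ_j(n) = g_j(-n)` (`n ≥ 0`), combined with `two_sided`, exactly as in
the theorem `one_sided` of `Pool/Agent/Results/MP_4d8f14_an/RemotePast.lean` (that file may be
copied from):
* `hf : Measurable[𝒜 0] (h_j ∘ α)` from `fm_level_zero` (a function `ι → ℂ` is measurable for `⊤`);
  bounded by `D = max (1, max |h_j|)` (`ι` finite);
* `e_j` : bounded `⨅ 𝒜`-measurable versions of `E(h_j∘α | tail)` (`exists_version`);
* `hsep`, `hinc`: heights are the polynomials `p_j(n)` resp. `p_j(-n)` (`p.comp (-X)`); use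
  `dichotomy`, `inc_gap`, `inc_below` (module Heights) and `h1`, `h2`;
* `hsmall`: `small_of_max`.
`hinv : φ g⁻¹ = - φ g` from `φ_mul`.
-/

open MeasureTheory Filter Topology Finset

namespace Pool.Pinsker

open Pool.Lib.Erg Pool.Lib.RM Pool.Lib.RP

theorem tail_thm {X : Type*} {m0 : MeasurableSpace X} {μ : Measure X} [IsProbabilityMeasure μ]
    {G : Type*} [Group G] [MulAction G X]
    (hG : ∀ g : G, MeasurePreserving (fun x : X => g • x) μ μ)
    (φ : G → ℝ) (hφ : ∀ a b, φ (a * b) = φ a + φ b)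
    {ι : Type*} [Fintype ι] (α : X → ι) (hα : FM m0 α) {m : ℕ} (g : Fin m → ℤ → G)
    (p : Fin m → Polynomial ℝ) (hp : ∀ j (n : ℤ), φ (g j n) = (p j).eval (n : ℝ))
    (h1 : ∀ j, ∃ a b : ℝ, (p j).eval a ≠ (p j).eval b)
    (h2 : ∀ i j, i ≠ j → ∃ a b : ℝ, (p j - p i).eval a ≠ (p j - p i).eval b)
    (hmax : ∀ j, MaxProp μ (fun n x => g j n • x)) (h : Fin m → ι → ℂ) :
    ∀ᵐ x ∂μ, Tendsto (fun N : ℕ => (2 * (N : ℂ) + 1)⁻¹ * ∑ n ∈ Finset.Icc (-(N : ℤ)) N,
      (∏ j, h j (α (g j n • x)) - ∏ j, (μ[fun x => h j (α x)|tail α φ]) (g j n • x)))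
      atTop (𝓝 0) := by
  classical
  set 𝒜 : ℝ → MeasurableSpace X := level α φ with h𝒜
  have hmono : Monotone 𝒜 := level_mono α φ
  have hle : ∀ t, 𝒜 t ≤ m0 := level_le hG α hα φ
  have hcomap : ∀ (g : G) t, (𝒜 t).comap (fun x => g • x) ≤ 𝒜 (t + φ g) :=
    fun g t => level_comap α φ hφ g t
  have htl : tail α φ = ⨅ t, 𝒜 t := rfl
  have hT : (⨅ t, 𝒜 t) ≤ m0 := (iInf_le _ 0).trans (hle 0)
  have hinv : ∀ g : G, φ g⁻¹ = - φ g := by
    intro g
    have e1 := hφ g g⁻¹
    have e2 := hφ 1 1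
    rw [mul_inv_cancel] at e1
    rw [mul_one] at e2
    linarith
  set D : ℝ := 1 + ∑ j, ∑ i, ‖h j i‖ with hD
  have hfD : ∀ j x, ‖h j (α x)‖ ≤ D := by
    intro j x
    have e1 : ‖h j (α x)‖ ≤ ∑ i, ‖h j i‖ :=
      Finset.single_le_sum (f := fun i => ‖h j i‖) (fun i _ => norm_nonneg _)
        (Finset.mem_univ (α x))
    have e2 : ∑ i, ‖h j i‖ ≤ ∑ j, ∑ i, ‖h j i‖ :=
      Finset.single_le_sum (f := fun j => ∑ i, ‖h j i‖)
        (fun j _ => Finset.sum_nonneg fun i _ => norm_nonneg _) (Finset.mem_univ j)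
    linarith
  have hf : ∀ j, Measurable[𝒜 0] (fun x => h j (α x)) := by
    intro j u _
    exact fm_level_zero α φ hφ (h j ⁻¹' u)
  have hf0 : ∀ j, Measurable[m0] (fun x => h j (α x)) := fun j u hu => hle 0 _ (hf j hu)
  choose e hem heD hee using fun j =>
    exists_version (μ := μ) (⨅ t, 𝒜 t) hT (fun x => h j (α x)) (hf0 j) D (hfD j)
  -- one sided
  have key : ∀ (γ : Fin m → ℕ → G) (hγ : (∀ j, ∀ n : ℕ, γ j n = g j n) ∨
      (∀ j, ∀ n : ℕ, γ j n = g j (-(n : ℤ)))) (q : Fin m → Polynomial ℝ)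
      (_ : ∀ j, ∀ n : ℕ, φ (γ j n) = (q j).eval (n : ℝ))
      (_ : ∀ j, ∃ a b : ℝ, (q j).eval a ≠ (q j).eval b)
      (_ : ∀ i j, i ≠ j → ∃ a b : ℝ, (q j - q i).eval a ≠ (q j - q i).eval b),
      ∀ᵐ x ∂μ, Tendsto (avg fun n => ∏ j, h j (α (γ j n • x)) - ∏ j, e j (γ j n • x))
        atTop (𝓝 0) := by
    intro γ hγ q hq hq1 hq2
    have hphi : ∀ j, (fun n => φ (γ j n)) = fun n : ℕ => (q j).eval (n : ℝ) := fun j =>
      funext fun n => hq j n
    refine replace_all hG 𝒜 hmono hle φ hinv hcomap γ Finset.univ ?_ ?_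
      (fun j x => h j (α x)) e D hf hfD hem heD hee ?_ ?_
    · intro i _ j _ hij
      rw [hphi, hphi]
      rcases dichotomy _ (hq2 i j hij) with hd | hd
      · left; exact inc_below _ _ hd
      · right
        apply inc_below
        rw [neg_sub] at hd
        exact hd
    · intro a _
      rcases dichotomy _ (hq1 a) with hd | hd
      · left
        intro K
        obtain ⟨C, hC⟩ := inc_gap _ hd K
        refine ⟨C, fun n hn n' hn' => ?_⟩
        rw [hq, hq]
        exact hC n hn n' hn'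
      · right
        intro K
        obtain ⟨C, hC⟩ := inc_gap _ hd K
        refine ⟨C, fun n hn n' hn' => ?_⟩
        rw [hq, hq]
        have := hC n hn n' hn'
        rw [Polynomial.eval_neg, Polynomial.eval_neg] at this
        linarith
    · intro j hj
      exact absurd (Finset.mem_univ j) hj
    · intro j _
      exact small_of_max hG 𝒜 hmono hle (fun x => h j (α x)) (hf0 j) D (hfD j) (g j) (hmax j)
        (γ j) (hγ.imp (fun h => h j) (fun h => h j))
  have hpos := key (fun j n => g j (n : ℤ)) (Or.inl fun j n => rfl) p (fun j n => by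
    have := hp j (n : ℤ)
    rw [Int.cast_natCast] at this
    exact this) h1 h2
  have hneg := key (fun j n => g j (-(n : ℤ))) (Or.inr fun j n => rfl)
    (fun j => (p j).comp (-Polynomial.X)) (fun j n => by
      have := hp j (-(n : ℤ))
      push_cast at this
      rw [Polynomial.eval_comp]
      simpa using this)
    (fun j => by
      obtain ⟨a, b, hab⟩ := h1 j
      refine ⟨-a, -b, ?_⟩
      rw [Polynomial.eval_comp, Polynomial.eval_comp]
      simpa using hab)
    (fun i j hij => by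
      obtain ⟨a, b, hab⟩ := h2 i j hij
      rw [Polynomial.eval_sub, Polynomial.eval_sub] at hab
      refine ⟨-a, -b, ?_⟩
      rw [Polynomial.eval_sub, Polynomial.eval_sub, Polynomial.eval_comp, Polynomial.eval_comp,
        Polynomial.eval_comp, Polynomial.eval_comp]
      simpa using hab)
  have hall : ∀ᵐ x ∂μ, ∀ (j : Fin m) (n : ℤ),
      e j (g j n • x) = μ[fun x => h j (α x)|⨅ t, 𝒜 t] (g j n • x) := by
    rw [ae_all_iff]
    intro j
    rw [ae_all_iff]
    intro n
    exact (hG (g j n)).quasiMeasurePreserving.ae (hee j)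
  filter_upwards [hpos, hneg, hall] with x hx1 hx2 hx3
  have h3 := two_sided (fun n : ℤ => ∏ j, h j (α (g j n • x)) - ∏ j, e j (g j n • x)) 0 0 hx1 hx2
  rw [add_zero, zero_div] at h3
  refine h3.congr fun N => ?_
  push_cast
  congr 1
  apply Finset.sum_congr rfl
  intro n _
  congr 1
  exact Finset.prod_congr rfl fun j _ => hx3 j n

end Pool.Pinsker
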