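import Pool.Agent.Pinsker.Names

set_option autoImplicit false
set_option warn.classDefReducibility false

/-!
# Module Upper: upper bound of the entropy of names

Paper proof.  `𝔉.lt` is a strict total order, invariant under right multiplication.  Fix a finite
`F` with `f < 1` for `f ∈ F`, put `c = H(α | name α F)`, `L = log |ι| ≥ c` (`cent_le_log`; `ι` is
nonempty because `X` is, so `L ≥ 0`).
`upper_aux`: for every finite `B ⊆ G`
`H(name α B) ≤ Σ_{g ∈ B} (if F g ⊆ B then c else L)`.
Induction on `B` by removing the largest element `g` (a linear order on `G` can be built from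
`𝔉.lt`, then `Finset.induction_on_max`; or do strong induction on the cardinality and choose a
maximal element with `Finset.exists_maximal`-like arguments for the transitive irreflexive relation
`𝔉.lt`): `B = insert g B'`, all `h ∈ B'` are `< g`.  By `ent_name_insert`
`H(name α B) = H(name α B') + H(α∘g | name α B')`.
If `F g ⊆ B` then `F g ⊆ B'` (as `f g < g`, `mul_right`, hence `f g ≠ g`) and by
`cent_cond_factor` (restriction of names) and `cent_name_shift` the last term is `≤ c`; otherwise
it is `≤ L` (`cent_le_log`).  For `h ∈ B'`: if `F h ⊆ B` then `F h ⊆ B'` (since `f h < h < g`), so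
`(if F h ⊆ B' then c else L) ≤ (if F h ⊆ B then c else L)` by `c ≤ L`.
`upper`: the sum is `≤ |B| c + #{g ∈ B : F g ⊄ B} L` (as `c ≥ 0`).
`upper_lim`: with `B = Λ n`, divide by `|Λ n|` and use `𝔉.folner F`.
-/

open MeasureTheory Filter Topology Finset

namespace Pool.Pinsker

variable {X : Type*} {m0 : MeasurableSpace X} {μ : Measure X} [IsProbabilityMeasure μ]
variable {G : Type*} [Group G] [MulAction G X] [DecidableEq G]
variable {ι : Type*} [Fintype ι]

theorem frame_max (𝔉 : Frame G) (B : Finset G) (hB : B.Nonempty) :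
    ∃ g ∈ B, ∀ h ∈ B, h = g ∨ 𝔉.lt h g := by
  induction B using Finset.induction_on with
  | empty => exact absurd hB Finset.not_nonempty_empty
  | insert a B _ ih =>
    rcases B.eq_empty_or_nonempty with h0 | h0
    · subst h0
      refine ⟨a, Finset.mem_insert_self _ _, ?_⟩
      intro h hh
      rcases Finset.mem_insert.1 hh with h1 | h1
      · exact Or.inl h1
      · exact absurd h1 (Finset.notMem_empty _)
    · obtain ⟨g, hg, hmax⟩ := ih h0
      rcases 𝔉.total g a with h1 | h1 | h1
      · refine ⟨a, Finset.mem_insert_self _ _, ?_⟩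
        intro h hh
        rcases Finset.mem_insert.1 hh with h2 | h2
        · exact Or.inl h2
        · rcases hmax h h2 with h3 | h3
          · exact Or.inr (h3 ▸ h1)
          · exact Or.inr (𝔉.trans _ _ _ h3 h1)
      · refine ⟨g, Finset.mem_insert_of_mem hg, ?_⟩
        intro h hh
        rcases Finset.mem_insert.1 hh with h2 | h2
        · exact Or.inl (h2.trans h1.symm)
        · exact hmax h h2
      · refine ⟨g, Finset.mem_insert_of_mem hg, ?_⟩
        intro h hh
        rcases Finset.mem_insert.1 hh with h2 | h2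
        · exact Or.inr (h2 ▸ h1)
        · exact hmax h h2

/-- induction on a finite set by removing the largest element -/
theorem frame_induction (𝔉 : Frame G) (p : Finset G → Prop) (h0 : p ∅)
    (hs : ∀ (g : G) (B : Finset G), g ∉ B → (∀ h ∈ B, 𝔉.lt h g) → p B → p (insert g B))
    (B : Finset G) : p B := by
  induction B using Finset.strongInduction with
  | H B ih =>
    rcases B.eq_empty_or_nonempty with h1 | h1
    · rw [h1]; exact h0
    · obtain ⟨g, hg, hmax⟩ := frame_max 𝔉 B h1
      have h2 := hs g (B.erase g) (Finset.notMem_erase _ _) (by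
        intro h hh
        rcases hmax h (Finset.mem_of_mem_erase hh) with h3 | h3
        · exact absurd h3 (Finset.ne_of_mem_erase hh)
        · exact h3) (ih _ (Finset.erase_ssubset hg))
      rwa [Finset.insert_erase hg] at h2

theorem upper_aux (𝔉 : Frame G) (hG : ∀ g : G, MeasurePreserving (fun x : X => g • x) μ μ)
    (α : X → ι) (hα : FM m0 α) (F : Finset G) (hF : ∀ f ∈ F, 𝔉.lt f 1) (B : Finset G) :
    ent μ (name α B) ≤ ∑ g ∈ B, (if F.image (fun f => f * g) ⊆ B then cent μ α (name α F) else
      Real.log (Fintype.card ι)) := by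
  have hact : ∀ g : G, FM m0 (fun x => α (g • x)) := fun g => fm_act hG α hα g
  have hname : ∀ B : Finset G, FM m0 (name α B) := fun B => fm_name α B (fun g _ => hact g)
  induction B using frame_induction 𝔉 with
  | h0 =>
    rw [Finset.sum_empty, ent_eq_cent _ (hname ∅)]
    refine (cent_le_log _ _ (hname ∅) (fun s => ?_)).trans ?_
    · exact MeasurableSet.const _
    · have : Fintype.card ((∅ : Finset G) → ι) = 1 := by
        rw [Fintype.card_pi]
        simp
      rw [this]
      simp
  | hs g B hg hlt ih =>
    have hkey : ∀ h : G, (h = g ∨ h ∈ B) →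
        (F.image (fun f => f * h) ⊆ insert g B ↔ F.image (fun f => f * h) ⊆ B) := by
      intro h hh
      constructor
      · intro hsub x hx
        rcases Finset.mem_insert.1 (hsub hx) with h1 | h1
        · exfalso
          obtain ⟨f, hf, rfl⟩ := Finset.mem_image.1 hx
          have h2 : 𝔉.lt (f * h) h := by
            have := 𝔉.mul_right f 1 h (hF f hf)
            rwa [one_mul] at this
          rcases hh with h3 | h3
          · rw [h1, ← h3] at h2
            exact 𝔉.irrefl _ h2
          · have h4 := 𝔉.trans _ _ _ h2 (hlt h h3)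
            rw [h1] at h4
            exact 𝔉.irrefl _ h4
        · exact h1
      · intro hsub
        exact hsub.trans (Finset.subset_insert _ _)
    rw [ent_name_insert α g B hg, Finset.sum_insert hg, add_comm]
    have h1 : ∑ h ∈ B, (if F.image (fun f => f * h) ⊆ insert g B then cent μ α (name α F) else
        Real.log (Fintype.card ι)) = ∑ h ∈ B, (if F.image (fun f => f * h) ⊆ B then
        cent μ α (name α F) else Real.log (Fintype.card ι)) := by
      apply Finset.sum_congr rfl
      intro h hh
      have := hkey h (Or.inr hh)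
      by_cases h2 : F.image (fun f => f * h) ⊆ B
      · rw [if_pos h2, if_pos (this.2 h2)]
      · rw [if_neg h2, if_neg (fun h3 => h2 (this.1 h3))]
    rw [h1]
    refine add_le_add ?_ ih
    split_ifs with h2
    · have h3 := (hkey g (Or.inl rfl)).1 h2
      obtain ⟨e, he⟩ := name_factor (X := X) α B (F.image fun f => f * g) h3
      rw [← cent_name_shift hG α hα F g]
      exact cent_cond_factor _ _ _ (hact g) (hname B) e he
    · exact cent_le_log _ _ (hact g) (hname B)

theorem upper (𝔉 : Frame G) (hG : ∀ g : G, MeasurePreserving (fun x : X => g • x) μ μ)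
    (α : X → ι) (hα : FM m0 α) (F : Finset G) (hF : ∀ f ∈ F, 𝔉.lt f 1) (B : Finset G) :
    ent μ (name α B) ≤ (B.card : ℝ) * cent μ α (name α F) +
      ((B.filter fun g => ¬ (F.image (fun f => f * g) ⊆ B)).card : ℝ) *
        Real.log (Fintype.card ι) := by
  refine (upper_aux 𝔉 hG α hα F hF B).trans ?_
  have hname : FM m0 (name α F) := fm_name α F (fun g _ => fm_act hG α hα g)
  have hc : 0 ≤ cent μ α (name α F) := cent_nonneg _ _ hα hname
  rw [Finset.sum_ite, Finset.sum_const, Finset.sum_const, nsmul_eq_mul, nsmul_eq_mul]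
  have h1 : ((B.filter fun g => F.image (fun f => f * g) ⊆ B).card : ℝ) ≤ B.card := by
    exact_mod_cast Finset.card_filter_le _ _
  have h2 := mul_le_mul_of_nonneg_right h1 hc
  linarith

theorem upper_lim (𝔉 : Frame G) (hG : ∀ g : G, MeasurePreserving (fun x : X => g • x) μ μ)
    (α : X → ι) (hα : FM m0 α) (F : Finset G) (hF : ∀ f ∈ F, 𝔉.lt f 1) (ε : ℝ) (hε : 0 < ε) :
    ∀ᶠ n : ℕ in atTop, ent μ (name α (𝔉.Λ n)) ≤
      ((𝔉.Λ n).card : ℝ) * (cent μ α (name α F) + ε) := by
  have hname : FM m0 (name α F) := fm_name α F (fun g _ => fm_act hG α hα g)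
  have hc : 0 ≤ cent μ α (name α F) := cent_nonneg _ _ hα hname
  have hL : 0 ≤ Real.log (Fintype.card ι) := hc.trans (cent_le_log _ _ hα hname)
  have h1 := (𝔉.folner F).eventually (gt_mem_nhds
    (show (0 : ℝ) < ε / (Real.log (Fintype.card ι) + 1) by positivity))
  filter_upwards [h1] with n hn
  have hpos : (0 : ℝ) < (𝔉.Λ n).card := by exact_mod_cast 𝔉.Λ_card n
  rw [div_lt_div_iff₀ hpos (by positivity)] at hn
  refine (upper 𝔉 hG α hα F hF (𝔉.Λ n)).trans ?_
  have h2 : (0 : ℝ) ≤ (((𝔉.Λ n).filter fun g =>
    ¬ (F.image (fun f => f * g) ⊆ 𝔉.Λ n)).card : ℝ) := Nat.cast_nonneg _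
  nlinarith

end Pool.Pinsker
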